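import Pool.Agent.Helper32.BS.Rand

/-! One step of the recursion, around a random diagonal reference point. -/

set_option autoImplicit false
set_option linter.unusedSectionVars false
set_option linter.unusedSimpArgs false

open scoped BigOperators Matrix ComplexOrder MatrixOrder
open Matrix

namespace Pool.Agent.Helper32.SD

open Pool.Agent.Helper32.BS

variable {n : Type} [Fintype n] [DecidableEq n]

section d0

variable (F : Matrix n n ℂ) (ρ : n → ℂ)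

noncomputable def d0m : Matrix n n ℂ :=
  (Yy F - diagonal ρ)ᴴ * (Imm F)⁻¹ * (Yy F - diagonal ρ)

noncomputable def d0z : Matrix n n ℂ :=
  (Yy F - diagonal ρ) * (Imm F)⁻¹ * (Yy F - diagonal ρ)ᴴ

noncomputable def d0p : Matrix n n ℂ :=
  (Nn F - (diagonal ρ)ᴴ)ᴴ * (Imm F)⁻¹ * (Nn F - (diagonal ρ)ᴴ)

noncomputable def x0 : Matrix n n ℂ :=
  (Nn F - (diagonal ρ)ᴴ)ᴴ * (Imm F)⁻¹ * (Yy F - diagonal ρ)

/-- the real diagonal matrix `1 + Im ρ` -/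
noncomputable def sd : Matrix n n ℂ := diagonal fun x => ((1 + (ρ x).im : ℝ) : ℂ)

theorem ri_eq : diagonal ρ - (diagonal ρ)ᴴ = (2 * Complex.I) • (sd ρ - 1 : Matrix n n ℂ) := by
  unfold sd
  rw [diagonal_conjTranspose, diagonal_sub, ← diagonal_one, diagonal_sub, ← diagonal_smul]
  congr 1
  funext x
  apply Complex.ext
  · simp
  · simp
    ring

variable (hF : (Imm F).PosDef)

include hF

theorem d0m_psd : (d0m F ρ).PosSemidef := by
  unfold d0m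
  exact hF.inv.posSemidef.conjTranspose_mul_mul_same _

theorem d0z_psd : (d0z F ρ).PosSemidef := by
  unfold d0z
  exact hF.inv.posSemidef.mul_mul_conjTranspose_same _

theorem d0p_psd : (d0p F ρ).PosSemidef := by
  unfold d0p
  exact hF.inv.posSemidef.conjTranspose_mul_mul_same _

theorem d0_eq : d0p F ρ = d0z F ρ + (4 : ℂ) • sd ρ := by
  obtain ⟨h1, h2⟩ := im_inv F hF
  have e1 : (Nn F - (diagonal ρ)ᴴ)ᴴ = (Yy F - diagonal ρ) - (2 * Complex.I) • Imm F := by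
    rw [conjTranspose_sub, conjTranspose_conjTranspose, nn_conj_eq]
    abel
  have e2 : Nn F - (diagonal ρ)ᴴ = (Yy F - diagonal ρ)ᴴ + (2 * Complex.I) • Imm F := by
    rw [conjTranspose_sub, nn_eq]
    abel
  have e3 : (Yy F - diagonal ρ) - (Yy F - diagonal ρ)ᴴ =
      (2 * Complex.I) • Imm F - (2 * Complex.I) • sd ρ := by
    have a1 : Yy F - (Yy F)ᴴ = (2 * Complex.I) • Imm F - (2 * Complex.I) • 1 := by
      rw [yy_conj, ← imm_sub]
      unfold Yy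
      module
    have a2 := ri_eq ρ
    rw [conjTranspose_sub]
    have a3 : Yy F - diagonal ρ - ((Yy F)ᴴ - (diagonal ρ)ᴴ) = (Yy F - (Yy F)ᴴ) -
        (diagonal ρ - (diagonal ρ)ᴴ) := by abel
    rw [a3, a1, a2]
    module
  unfold d0p d0z
  rw [e1, e2]
  obtain ⟨y, hy⟩ : ∃ y, y = Yy F - diagonal ρ := ⟨_, rfl⟩
  rw [← hy] at e3 ⊢
  obtain ⟨q, hq⟩ : ∃ q, q = Imm F := ⟨_, rfl⟩
  rw [← hq] at h1 h2 e3 ⊢
  obtain ⟨r, hr⟩ : ∃ r, r = q⁻¹ := ⟨_, rfl⟩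
  rw [← hr] at h1 h2 ⊢
  have e4 : (y - (2 * Complex.I) • q) * r * (yᴴ + (2 * Complex.I) • q) =
      y * r * yᴴ + (2 * Complex.I) • (y - yᴴ) + (4 : ℂ) • q := by
    have b1 : y * r * q = y := by rw [Matrix.mul_assoc, h2, Matrix.mul_one]
    have b2 : q * r * yᴴ = yᴴ := by rw [h1, Matrix.one_mul]
    have b3 : q * r * q = q := by rw [h1, Matrix.one_mul]
    have b4 : (4 : ℂ) • q = -(2 * Complex.I * (2 * Complex.I)) • q := by
      congr 1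
      linear_combination 4 * Complex.I_mul_I
    simp only [Matrix.mul_add, Matrix.sub_mul, Matrix.mul_smul, Matrix.smul_mul, smul_sub,
      smul_smul, b1, b2, b3]
    rw [b4]
    module
  rw [e4, e3]
  simp only [smul_sub, smul_smul]
  have : (2 * Complex.I * (2 * Complex.I)) = (-4 : ℂ) := by
    linear_combination 4 * Complex.I_mul_I
  rw [this]
  module

/-- the inverse of the imaginary part -/
theorem s_inv : ((1 / 2 : ℂ) • (d0p F ρ + d0m F ρ) - sd ρ * (Imm F)⁻¹ * sd ρ).PosSemidef := by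
  have hs : (sd ρ)ᴴ = sd ρ := by
    unfold sd
    rw [diagonal_conjTranspose]
    congr 1
    funext x
    rw [Pi.star_apply, RCLike.star_def, Complex.conj_ofReal]
  have e0 : (Nn F - (diagonal ρ)ᴴ) - (Yy F - diagonal ρ) = (2 * Complex.I) • sd ρ := by
    have a1 : Nn F - Yy F = (2 * Complex.I) • 1 := by
      unfold Nn Yy
      module
    have a2 := ri_eq ρ
    have a3 : (Nn F - (diagonal ρ)ᴴ) - (Yy F - diagonal ρ) = (Nn F - Yy F) +
        (diagonal ρ - (diagonal ρ)ᴴ) := by abel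
    rw [a3, a1, a2]
    module
  obtain ⟨r, hr⟩ : ∃ r, r = (Imm F)⁻¹ := ⟨_, rfl⟩
  obtain ⟨y, hy⟩ : ∃ y, y = Yy F - diagonal ρ := ⟨_, rfl⟩
  obtain ⟨m, hm⟩ : ∃ m, m = Nn F - (diagonal ρ)ᴴ := ⟨_, rfl⟩
  have e1 : (4 : ℂ) • (sd ρ * r * sd ρ) = (m - y)ᴴ * r * (m - y) := by
    rw [hm, hy, e0, conjTranspose_smul, hs]
    simp only [Matrix.smul_mul, Matrix.mul_smul, smul_smul]
    congr 1
    simp only [RCLike.star_def, map_mul, Complex.conj_I, Complex.conj_ofNat]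
    linear_combination 4 * Complex.I_mul_I
  have e2 : (1 / 2 : ℂ) • (d0p F ρ + d0m F ρ) - sd ρ * (Imm F)⁻¹ * sd ρ =
      (1 / 4 : ℂ) • ((m + y)ᴴ * r * (m + y)) := by
    unfold d0p d0m
    rw [← hr, ← hy, ← hm]
    have e3 : sd ρ * r * sd ρ = (1 / 4 : ℂ) • ((m - y)ᴴ * r * (m - y)) := by
      rw [← e1, smul_smul]
      norm_num
    rw [e3]
    simp only [conjTranspose_add, conjTranspose_sub, Matrix.add_mul, Matrix.mul_add,
      Matrix.sub_mul, Matrix.mul_sub]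
    module
  rw [e2, hr]
  have h5 : (0 : ℂ) ≤ 1 / 4 := by
    rw [Complex.le_def]
    norm_num
  exact (hF.inv.posSemidef.conjTranspose_mul_mul_same _).smul h5

end d0

section step

variable {K : ℕ}

/-- one step -/
structure Sq (K : ℕ) (h : ℝ) (φ : Fin K → n → ℂ) (ρ : n → ℂ) (Ft g : Fin K → Matrix n n ℂ)
    (F' : Matrix n n ℂ) : Prop where
  hpos : 0 < h
  K0 : K ≠ 0
  pos : ∀ j, (Imm (Ft j)).PosDef
  unit : ∀ j, IsUnit (g j).det
  eQ : Imm F' = ∑ j, g j * (Imm (Ft j) + (h : ℂ) • 1) * (g j)ᴴ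
  eY : Yy F' - diagonal ρ = ∑ j, g j * Yy (Ft j) * diagonal (φ j)
  eN : Nn F' - (diagonal ρ)ᴴ = ∑ j, g j * (Nn (Ft j) + (2 * Complex.I * h) • 1) *
    (diagonal (φ j))ᴴ
  eP : ∀ x, 1 + (ρ x).im = (1 + h) * ∑ j, ‖φ j x‖ ^ 2

noncomputable def Wm (φ : Fin K → n → ℂ) (A : Fin K → Matrix n n ℂ) : Matrix n n ℂ :=
  ∑ j, (diagonal (φ j))ᴴ * A j * diagonal (φ j)

noncomputable def Wz (φ : Fin K → n → ℂ) (A : Fin K → Matrix n n ℂ) : Matrix n n ℂ :=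
  ∑ j, diagonal (φ j) * A j * (diagonal (φ j))ᴴ

noncomputable def Wx (φ : Fin K → n → ℂ) (A : Fin K → Matrix n n ℂ) : Matrix n n ℂ :=
  ∑ j, diagonal (φ j) * A j * diagonal (φ j)

noncomputable def wQ (h : ℝ) (Ft g : Fin K → Matrix n n ℂ) : Fin K × Bool → Matrix n n ℂ
  | (j, true) => g j * Imm (Ft j) * (g j)ᴴ
  | (j, false) => g j * ((h : ℂ) • 1) * (g j)ᴴ

noncomputable def wN (h : ℝ) (φ : Fin K → n → ℂ) (Ft g : Fin K → Matrix n n ℂ) :
    Fin K × Bool → Matrix n n ℂ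
  | (j, true) => g j * (Nn (Ft j) * (diagonal (φ j))ᴴ)
  | (j, false) => g j * ((2 * Complex.I * h) • (diagonal (φ j))ᴴ)

noncomputable def wY (φ : Fin K → n → ℂ) (Ft g : Fin K → Matrix n n ℂ) :
    Fin K × Bool → Matrix n n ℂ
  | (j, true) => g j * (Yy (Ft j) * diagonal (φ j))
  | (j, false) => g j * (0 : Matrix n n ℂ)

theorem inv_hsmul (h : ℝ) (hh : 0 < h) : ((h : ℂ) • (1 : Matrix n n ℂ))⁻¹ = ((h : ℂ)⁻¹) • 1 := by
  apply inv_eq_right_inv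
  rw [Matrix.smul_mul, Matrix.mul_smul, smul_smul, Matrix.one_mul, mul_inv_cancel₀ (by
    exact_mod_cast hh.ne'), one_smul]

theorem pos_conj (g Q : Matrix n n ℂ) (hg : IsUnit g.det) (hQ : Q.PosDef) :
    (g * Q * gᴴ).PosDef := by
  refine hQ.mul_mul_conjTranspose_same ?_
  rw [← isUnit_iff_isUnit_det] at hg
  exact Matrix.vecMul_injective_of_isUnit hg

theorem h_pos (h : ℝ) (hh : 0 < h) : ((h : ℂ) • (1 : Matrix n n ℂ)).PosDef := by
  have h2 : (0 : ℂ) < (h : ℂ) := by exact_mod_cast hh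
  exact PosDef.one.smul h2

variable {h : ℝ} {φ : Fin K → n → ℂ} {ρ : n → ℂ} {Ft g : Fin K → Matrix n n ℂ}
  {F' : Matrix n n ℂ}

theorem wQ_pos (hs : Sq K h φ ρ Ft g F') (i : Fin K × Bool) : (wQ h Ft g i).PosDef := by
  obtain ⟨j, b⟩ := i
  cases b with
  | true => exact pos_conj _ _ (hs.unit j) (hs.pos j)
  | false => exact pos_conj _ _ (hs.unit j) (h_pos h hs.hpos)

theorem sum_wQ (hs : Sq K h φ ρ Ft g F') : ∑ i, wQ h Ft g i = Imm F' := by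
  rw [hs.eQ, Fintype.sum_prod_type]
  refine Finset.sum_congr rfl fun j _ => ?_
  rw [Fintype.sum_bool]
  simp only [wQ, Matrix.mul_add, Matrix.add_mul]

theorem sum_wN (hs : Sq K h φ ρ Ft g F') : ∑ i, wN h φ Ft g i = Nn F' - (diagonal ρ)ᴴ := by
  rw [hs.eN, Fintype.sum_prod_type]
  refine Finset.sum_congr rfl fun j _ => ?_
  rw [Fintype.sum_bool]
  simp only [wN, Matrix.mul_add, Matrix.add_mul, Matrix.mul_assoc, Matrix.smul_mul,
    Matrix.mul_smul, Matrix.mul_one, Matrix.one_mul]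

theorem sum_wY (hs : Sq K h φ ρ Ft g F') : ∑ i, wY φ Ft g i = Yy F' - diagonal ρ := by
  rw [hs.eY, Fintype.sum_prod_type]
  refine Finset.sum_congr rfl fun j _ => ?_
  rw [Fintype.sum_bool]
  simp only [wY, Matrix.mul_zero, add_zero, Matrix.mul_assoc]

theorem Sq.ipos (hs : Sq K h φ ρ Ft g F') : (Imm F').PosDef := by
  rw [← sum_wQ hs]
  have : NeZero K := ⟨hs.K0⟩
  exact posDef_sum Finset.univ_nonempty fun i _ => wQ_pos hs i

theorem sq_diag (f : n → ℂ) : diagonal f * (diagonal f)ᴴ =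
    (diagonal fun x => ((‖f x‖ ^ 2 : ℝ) : ℂ) : Matrix n n ℂ) := by
  rw [diagonal_conjTranspose, diagonal_mul_diagonal]
  congr 1
  funext x
  rw [Pi.star_apply, RCLike.star_def, Complex.mul_conj, Complex.normSq_eq_norm_sq]

theorem sum_diag (f : Fin K → n → ℂ) :
    ∑ j, (diagonal (f j) : Matrix n n ℂ) = diagonal (fun x => ∑ j, f j x) := by
  ext x y
  rw [Matrix.sum_apply]
  by_cases hxy : x = y
  · subst hxy
    simp
  · simp [diagonal_apply_ne _ hxy]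

theorem defN (hs : Sq K h φ ρ Ft g F') : dfc (wQ h Ft g) (wN h φ Ft g) (wN h φ Ft g) =
    Wz φ (fun j => Dz (Ft j)) - d0z F' ρ := by
  have h1 : (∑ i, wN h φ Ft g i)ᴴ * (∑ i, wQ h Ft g i)⁻¹ * ∑ i, wN h φ Ft g i = d0p F' ρ := by
    rw [sum_wQ hs, sum_wN hs]
    rfl
  unfold dfc
  rw [h1, d0_eq F' ρ hs.ipos, Fintype.sum_prod_type]
  have h2 : ∀ j, ∑ b, (wN h φ Ft g (j, b))ᴴ * (wQ h Ft g (j, b))⁻¹ * wN h φ Ft g (j, b) =
      diagonal (φ j) * Dz (Ft j) * (diagonal (φ j))ᴴ + (4 * (1 + h) : ℂ) •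
        (diagonal (φ j) * (diagonal (φ j))ᴴ) := by
    intro j
    rw [Fintype.sum_bool]
    simp only [wN, wQ]
    rw [cancel _ _ (hs.unit j), cancel _ _ (hs.unit j), inv_hsmul h hs.hpos]
    have e1 : (Nn (Ft j) * (diagonal (φ j))ᴴ)ᴴ * (Imm (Ft j))⁻¹ * (Nn (Ft j) * (diagonal (φ j))ᴴ) =
        diagonal (φ j) * Dp (Ft j) * (diagonal (φ j))ᴴ := by
      unfold Dp
      rw [conjTranspose_mul, conjTranspose_conjTranspose]
      simp only [Matrix.mul_assoc]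
    have e2 : ((2 * Complex.I * h) • (diagonal (φ j))ᴴ)ᴴ * ((h : ℂ)⁻¹ • (1 : Matrix n n ℂ)) *
        ((2 * Complex.I * h) • (diagonal (φ j))ᴴ) = (4 * h : ℂ) •
        (diagonal (φ j) * (diagonal (φ j))ᴴ) := by
      rw [conjTranspose_smul, conjTranspose_conjTranspose]
      simp only [Matrix.smul_mul, Matrix.mul_smul, smul_smul, Matrix.mul_one]
      congr 1
      have : (h : ℂ) ≠ 0 := by exact_mod_cast hs.hpos.ne'
      simp only [RCLike.star_def, map_mul, Complex.conj_I, Complex.conj_ofNat,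
        Complex.conj_ofReal]
      field_simp
      linear_combination (-4) * Complex.I_sq
    rw [e1, e2, dp_eq _ (hs.pos j)]
    simp only [Matrix.mul_add, Matrix.add_mul, Matrix.mul_smul, Matrix.smul_mul, Matrix.mul_one]
    module
  rw [Finset.sum_congr rfl fun j _ => h2 j, Finset.sum_add_distrib]
  have h3 : ∑ j, (4 * (1 + h) : ℂ) • (diagonal (φ j) * (diagonal (φ j))ᴴ) =
      (4 : ℂ) • sd ρ := by
    unfold sd
    simp only [sq_diag]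
    rw [← Finset.smul_sum, sum_diag, ← diagonal_smul, ← diagonal_smul]
    congr 1
    funext x
    rw [Pi.smul_apply, Pi.smul_apply, hs.eP x]
    push_cast
    simp only [smul_eq_mul]
    ring
  rw [h3]
  unfold Wz
  abel

theorem defY (hs : Sq K h φ ρ Ft g F') : dfc (wQ h Ft g) (wY φ Ft g) (wY φ Ft g) =
    Wm φ (fun j => Dm (Ft j)) - d0m F' ρ := by
  have h1 : (∑ i, wY φ Ft g i)ᴴ * (∑ i, wQ h Ft g i)⁻¹ * ∑ i, wY φ Ft g i = d0m F' ρ := by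
    rw [sum_wQ hs, sum_wY hs]
    rfl
  unfold dfc
  rw [h1, Fintype.sum_prod_type]
  unfold Wm
  congr 1
  refine Finset.sum_congr rfl fun j _ => ?_
  rw [Fintype.sum_bool]
  simp only [wY, wQ]
  rw [cancel _ _ (hs.unit j)]
  simp only [Matrix.mul_zero, add_zero]
  unfold Dm
  rw [conjTranspose_mul]
  simp only [Matrix.mul_assoc]

theorem defX (hs : Sq K h φ ρ Ft g F') : dfc (wQ h Ft g) (wN h φ Ft g) (wY φ Ft g) =
    Wx φ (fun j => Xx (Ft j)) - x0 F' ρ := by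
  have h1 : (∑ i, wN h φ Ft g i)ᴴ * (∑ i, wQ h Ft g i)⁻¹ * ∑ i, wY φ Ft g i = x0 F' ρ := by
    rw [sum_wQ hs, sum_wY hs, sum_wN hs]
    rfl
  unfold dfc
  rw [h1, Fintype.sum_prod_type]
  unfold Wx
  congr 1
  refine Finset.sum_congr rfl fun j _ => ?_
  rw [Fintype.sum_bool]
  simp only [wY, wQ, wN]
  rw [cancel _ _ (hs.unit j)]
  simp only [Matrix.mul_zero, add_zero]
  unfold Xx
  rw [conjTranspose_mul, conjTranspose_conjTranspose]
  simp only [Matrix.mul_assoc]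

theorem conj_psd (D P : Matrix n n ℂ) (hP : P.PosSemidef) : (D * P * Dᴴ).PosSemidef :=
  hP.mul_mul_conjTranspose_same D

/-- **the slack of the one step inequality** -/
theorem slack (hs0 : Sq K h φ ρ Ft g F') : ∃ β : Matrix n n ℂ,
    x0 F' ρ = Wx φ (fun j => Xx (Ft j)) - β ∧
    hs β ≤ (hs (Wm φ fun j => Dm (Ft j)) - hs (d0m F' ρ) + (hs (Wz φ fun j => Dz (Ft j)) -
      hs (d0z F' ρ))) / 2 ∧
    (Wm φ (fun j => Dm (Ft j)) - d0m F' ρ).PosSemidef ∧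
    (Wz φ (fun j => Dz (Ft j)) - d0z F' ρ).PosSemidef := by
  have : NeZero K := ⟨hs0.K0⟩
  obtain ⟨C, E, g1, g2, g3⟩ := dfc_gram (wQ h Ft g) (wQ_pos hs0) (wN h φ Ft g) (wY φ Ft g)
  have p1 := dfc_psd (wQ h Ft g) (wQ_pos hs0) (wN h φ Ft g)
  have p2 := dfc_psd (wQ h Ft g) (wQ_pos hs0) (wY φ Ft g)
  rw [defN hs0] at g1 p1
  rw [defY hs0] at g2 p2
  rw [defX hs0] at g3
  refine ⟨Cᴴ * E, ?_, ?_, p2, p1⟩
  · rw [← g3]
    abel
  · have e1 := hs_cross C E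
    rw [← g1, ← g2] at e1
    have e2 := hs_slack _ _ (d0m_psd F' ρ hs0.ipos) p2
    have e3 := hs_slack _ _ (d0z_psd F' ρ hs0.ipos) p1
    linarith

end step

section pert

/-- Young's inequality for operators -/
theorem young_gen (A R r : Matrix n n ℂ) (hr : r.PosSemidef) (μ : ℝ) (hμ : 0 < μ) :
    (((1 + μ : ℝ) : ℂ) • (Aᴴ * r * A) + ((1 + 1 / μ : ℝ) : ℂ) • (Rᴴ * r * R) -
      (A + R)ᴴ * r * (A + R)).PosSemidef := by
  have hm : (μ : ℂ) ≠ 0 := by exact_mod_cast hμ.ne'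
  have h1 : ((1 + μ : ℝ) : ℂ) • (Aᴴ * r * A) + ((1 + 1 / μ : ℝ) : ℂ) • (Rᴴ * r * R) -
      (A + R)ᴴ * r * (A + R) =
      ((1 / μ : ℝ) : ℂ) • (((μ : ℂ) • A - R)ᴴ * r * ((μ : ℂ) • A - R)) := by
    rw [conjTranspose_sub, conjTranspose_smul, conjTranspose_add, RCLike.star_def,
      Complex.conj_ofReal]
    simp only [Matrix.add_mul, Matrix.mul_add, Matrix.sub_mul, Matrix.mul_sub, Matrix.smul_mul,
      Matrix.mul_smul, smul_smul, smul_sub, smul_add]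
    push_cast
    have e1 : 1 / (μ : ℂ) * ((μ : ℂ) * (μ : ℂ)) = μ := by field_simp
    have e2 : 1 / (μ : ℂ) * (μ : ℂ) = 1 := by field_simp
    rw [e1, e2]
    module
  rw [h1]
  have h2 : (0 : ℂ) ≤ ((1 / μ : ℝ) : ℂ) := by
    have : (0 : ℝ) ≤ 1 / μ := by positivity
    exact_mod_cast this
  exact (hr.conjTranspose_mul_mul_same _).smul h2

theorem hs_young3 (A R r : Matrix n n ℂ) (hr : r.PosSemidef) (μ : ℝ) (hμ : 0 < μ) (hμ1 : μ ≤ 1) :
    hs ((A + R)ᴴ * r * (A + R)) ≤ (1 + 7 * μ) * hs (Aᴴ * r * A) +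
      8 * μ⁻¹ ^ 3 * hs (Rᴴ * r * R) := by
  have h1 := young_gen A R r hr μ hμ
  have h2 := hs_mono _ _ (hr.conjTranspose_mul_mul_same (A + R)) h1
  have h3 := hs_young (((1 + μ : ℝ) : ℂ) • (Aᴴ * r * A)) (((1 + 1 / μ : ℝ) : ℂ) • (Rᴴ * r * R)) hμ
  rw [hs_smul, hs_smul, Complex.norm_real, Complex.norm_real, Real.norm_eq_abs, Real.norm_eq_abs,
    sq_abs, sq_abs] at h3
  have h4 := hs_nonneg (Aᴴ * r * A)
  have h5 := hs_nonneg (Rᴴ * r * R)
  have h6 : (1 + μ) * ((1 + μ) ^ 2 * hs (Aᴴ * r * A)) ≤ (1 + 7 * μ) * hs (Aᴴ * r * A) := by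
    have e1 : (1 + μ) * ((1 + μ) ^ 2 * hs (Aᴴ * r * A)) = (1 + μ) ^ 3 * hs (Aᴴ * r * A) := by ring
    have e2 : (1 + μ) ^ 3 ≤ 1 + 7 * μ := by
      nlinarith [mul_pos hμ hμ, mul_le_mul_of_nonneg_left hμ1 hμ.le,
        mul_le_mul_of_nonneg_left hμ1 (mul_pos hμ hμ).le]
    rw [e1]
    gcongr
  have h7 : (1 + 1 / μ) * ((1 + 1 / μ) ^ 2 * hs (Rᴴ * r * R)) ≤
      8 * μ⁻¹ ^ 3 * hs (Rᴴ * r * R) := by
    have e1 : (1 + 1 / μ) * ((1 + 1 / μ) ^ 2 * hs (Rᴴ * r * R)) =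
        (1 + 1 / μ) ^ 3 * hs (Rᴴ * r * R) := by ring
    have e2 : 1 + 1 / μ ≤ 2 * μ⁻¹ := by
      rw [one_div]
      have : 1 ≤ μ⁻¹ := (one_le_inv₀ hμ).2 hμ1
      linarith
    have e3 : (1 + 1 / μ) ^ 3 ≤ (2 * μ⁻¹) ^ 3 := by gcongr
    rw [e1]
    calc (1 + 1 / μ) ^ 3 * hs (Rᴴ * r * R) ≤ (2 * μ⁻¹) ^ 3 * hs (Rᴴ * r * R) := by gcongr
      _ = _ := by ring
  linarith

theorem cross_gen (A B q : Matrix n n ℂ) (hq : q.PosSemidef) (θ : ℝ) (hθ : 0 < θ) :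
    hs (Aᴴ * q * B) ≤ (θ ^ 2 * hs (Aᴴ * q * A) + θ⁻¹ ^ 2 * hs (Bᴴ * q * B)) / 2 := by
  obtain ⟨R, hR⟩ := gram _ hq
  obtain ⟨s, hs0, hs1⟩ : ∃ s : ℝ, 0 < s ∧ s ^ 2 = θ :=
    ⟨Real.sqrt θ, Real.sqrt_pos.2 hθ, Real.sq_sqrt hθ.le⟩
  have hsc : (s : ℂ) ≠ 0 := by exact_mod_cast hs0.ne'
  have h1 := hs_cross ((s : ℂ) • (R * A)) (((s⁻¹ : ℝ) : ℂ) • (R * B))
  have e1 : ((s : ℂ) • (R * A))ᴴ * (((s⁻¹ : ℝ) : ℂ) • (R * B)) = Aᴴ * q * B := by
    rw [conjTranspose_smul, conjTranspose_mul, hR, RCLike.star_def, Complex.conj_ofReal,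
      Matrix.smul_mul, Matrix.mul_smul, smul_smul]
    push_cast
    rw [mul_inv_cancel₀ hsc, one_smul]
    simp only [Matrix.mul_assoc]
  have e2 : ((s : ℂ) • (R * A))ᴴ * ((s : ℂ) • (R * A)) = (θ : ℂ) • (Aᴴ * q * A) := by
    rw [conjTranspose_smul, conjTranspose_mul, hR, RCLike.star_def, Complex.conj_ofReal,
      Matrix.smul_mul, Matrix.mul_smul, smul_smul, ← hs1]
    push_cast
    simp only [Matrix.mul_assoc, sq]
  have e3 : (((s⁻¹ : ℝ) : ℂ) • (R * B))ᴴ * (((s⁻¹ : ℝ) : ℂ) • (R * B)) =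
      ((θ⁻¹ : ℝ) : ℂ) • (Bᴴ * q * B) := by
    rw [conjTranspose_smul, conjTranspose_mul, hR, RCLike.star_def, Complex.conj_ofReal,
      Matrix.smul_mul, Matrix.mul_smul, smul_smul, ← hs1, ← Complex.ofReal_mul]
    simp only [Matrix.mul_assoc]
    congr 2
    rw [← mul_inv, sq]
  rw [e1, e2, e3, hs_smul, hs_smul, Complex.norm_real, Complex.norm_real, Real.norm_eq_abs,
    Real.norm_eq_abs, sq_abs, sq_abs] at h1
  exact h1

theorem hs_three (A B C : Matrix n n ℂ) : hs (A + B + C) ≤ 3 * hs A + 3 * hs B + 3 * hs C := by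
  have h1 := hs_young (A + B) C (θ := 1 / 2) (by norm_num)
  have h2 := hs_add A B
  norm_num at h1
  linarith

variable (F : Matrix n n ℂ) (ρ : n → ℂ)

noncomputable def em : Matrix n n ℂ := (diagonal ρ)ᴴ * (Imm F)⁻¹ * diagonal ρ

noncomputable def ez : Matrix n n ℂ := diagonal ρ * (Imm F)⁻¹ * (diagonal ρ)ᴴ

variable (hF : (Imm F).PosDef) (μ : ℝ) (hμ : 0 < μ) (hμ1 : μ ≤ 1)

include hF hμ hμ1

theorem per_m : hs (Dm F) ≤ (1 + 7 * μ) * hs (d0m F ρ) + 8 * μ⁻¹ ^ 3 * hs (em F ρ) := by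
  have h1 := hs_young3 (Yy F - diagonal ρ) (diagonal ρ) _ hF.inv.posSemidef μ hμ hμ1
  rw [sub_add_cancel] at h1
  exact h1

theorem per_z : hs (Dz F) ≤ (1 + 7 * μ) * hs (d0z F ρ) + 8 * μ⁻¹ ^ 3 * hs (ez F ρ) := by
  have h1 := hs_young3 (Yy F - diagonal ρ)ᴴ (diagonal ρ)ᴴ _ hF.inv.posSemidef μ hμ hμ1
  rw [← conjTranspose_add, sub_add_cancel] at h1
  simp only [conjTranspose_conjTranspose] at h1
  exact h1

theorem per_x : hs (Xx F - x0 F ρ) ≤ 3 / 2 * (μ ^ 2 * hs (d0p F ρ) + μ ^ 2 * hs (d0m F ρ) +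
    2 * μ⁻¹ ^ 2 * hs (em F ρ) + 2 * μ⁻¹ ^ 2 * hs (ez F ρ)) := by
  have hq := hF.inv.posSemidef
  have h1 : Xx F - x0 F ρ = (Nn F - (diagonal ρ)ᴴ)ᴴ * (Imm F)⁻¹ * diagonal ρ +
      ((diagonal ρ)ᴴ)ᴴ * (Imm F)⁻¹ * (Yy F - diagonal ρ) +
      ((diagonal ρ)ᴴ)ᴴ * (Imm F)⁻¹ * diagonal ρ := by
    unfold Xx x0
    simp only [conjTranspose_sub, conjTranspose_conjTranspose, Matrix.sub_mul, Matrix.mul_sub]
    abel
  rw [h1]
  have h2 := hs_three ((Nn F - (diagonal ρ)ᴴ)ᴴ * (Imm F)⁻¹ * diagonal ρ)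
    (((diagonal ρ)ᴴ)ᴴ * (Imm F)⁻¹ * (Yy F - diagonal ρ))
    (((diagonal ρ)ᴴ)ᴴ * (Imm F)⁻¹ * diagonal ρ)
  have h3 := cross_gen (Nn F - (diagonal ρ)ᴴ) (diagonal ρ) _ hq μ hμ
  have h4 := cross_gen (diagonal ρ)ᴴ (Yy F - diagonal ρ) _ hq μ⁻¹ (by positivity)
  have h5 := cross_gen (diagonal ρ)ᴴ (diagonal ρ) _ hq 1 one_pos
  rw [inv_inv] at h4
  have e1 : hs ((Nn F - (diagonal ρ)ᴴ)ᴴ * (Imm F)⁻¹ * (Nn F - (diagonal ρ)ᴴ)) = hs (d0p F ρ) := rfl
  have e2 : hs ((Yy F - diagonal ρ)ᴴ * (Imm F)⁻¹ * (Yy F - diagonal ρ)) = hs (d0m F ρ) := rfl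
  have e3 : hs ((diagonal ρ)ᴴ * (Imm F)⁻¹ * diagonal ρ) = hs (em F ρ) := rfl
  have e4 : hs (((diagonal ρ)ᴴ)ᴴ * (Imm F)⁻¹ * (diagonal ρ)ᴴ) = hs (ez F ρ) := by
    rw [conjTranspose_conjTranspose]
    rfl
  rw [e1, e3] at h3
  rw [e2, e4] at h4
  rw [e3, e4] at h5
  simp only [inv_one, one_pow, one_mul] at h5
  have h6 := hs_nonneg (em F ρ)
  have h7 := hs_nonneg (ez F ρ)
  have h8 : 1 ≤ μ⁻¹ ^ 2 := one_le_pow₀ ((one_le_inv₀ hμ).2 hμ1)
  have h9 : hs (em F ρ) ≤ μ⁻¹ ^ 2 * hs (em F ρ) := le_mul_of_one_le_left h6 h8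
  have h10 : hs (ez F ρ) ≤ μ⁻¹ ^ 2 * hs (ez F ρ) := le_mul_of_one_le_left h7 h8
  linarith

end pert

section err

variable {K : ℕ}

/-- the weighted norm -/
noncomputable def wh (u : n → ℂ) (M : Matrix n n ℂ) : ℝ := ∑ x, ∑ y, ‖u x‖ ^ 2 * ‖u y‖ ^ 2 * ‖M x y‖ ^ 2

theorem wh1 (u : n → ℂ) (M : Matrix n n ℂ) : hs ((diagonal u)ᴴ * M * diagonal u) = wh u M := by
  unfold hs wh
  refine Finset.sum_congr rfl fun x _ => Finset.sum_congr rfl fun y _ => ?_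
  rw [diagonal_conjTranspose, mul_diagonal, diagonal_mul, norm_mul, norm_mul, Pi.star_apply,
    norm_star]
  ring

theorem wh2 (u : n → ℂ) (M : Matrix n n ℂ) : hs (diagonal u * M * (diagonal u)ᴴ) = wh u M := by
  unfold hs wh
  refine Finset.sum_congr rfl fun x _ => Finset.sum_congr rfl fun y _ => ?_
  rw [diagonal_conjTranspose, mul_diagonal, diagonal_mul, norm_mul, norm_mul, Pi.star_apply,
    norm_star]
  ring

variable (F : Matrix n n ℂ) (ρ : n → ℂ) (hF : (Imm F).PosDef) (hρ : ∀ x, 0 < 1 + (ρ x).im)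
  (P Z : Matrix n n ℂ) (hP : (P - d0m F ρ).PosSemidef) (hZ : (Z - d0z F ρ).PosSemidef)

/-- the quotient -/
noncomputable def uq (ρ : n → ℂ) (x : n) : ℂ := ρ x / ((1 + (ρ x).im : ℝ) : ℂ)

include hρ in
theorem r_eq : (diagonal ρ : Matrix n n ℂ) = sd ρ * diagonal (uq ρ) := by
  unfold sd uq
  rw [diagonal_mul_diagonal]
  congr 1
  funext x
  have := (hρ x).ne'
  have h2 : (((1 + (ρ x).im : ℝ) : ℂ)) ≠ 0 := by exact_mod_cast this
  field_simp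

theorem sd_conj : (sd ρ)ᴴ = sd ρ := by
  unfold sd
  rw [diagonal_conjTranspose]
  congr 1
  funext x
  rw [Pi.star_apply, RCLike.star_def, Complex.conj_ofReal]

theorem sd_comm (u : n → ℂ) : sd ρ * diagonal u = diagonal u * sd ρ := by
  unfold sd
  rw [diagonal_mul_diagonal, diagonal_mul_diagonal]
  congr 1
  funext x
  ring

include hF hP hZ

theorem sqs_le : ((1 / 2 : ℂ) • (Z + P) + (2 : ℂ) • sd ρ - sd ρ * (Imm F)⁻¹ * sd ρ).PosSemidef := by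
  have h1 := s_inv F ρ hF
  rw [d0_eq F ρ hF] at h1
  have h5 : (0 : ℂ) ≤ 1 / 2 := by
    rw [Complex.le_def]
    norm_num
  have h2 := ((hP.add hZ).smul h5).add h1
  convert h2 using 1
  module

include hρ

theorem em_le : hs (em F ρ) ≤ 3 / 4 * wh (uq ρ) Z + 3 / 4 * wh (uq ρ) P +
    12 * wh (uq ρ) (sd ρ) := by
  have h1 := (sqs_le F ρ hF P Z hP hZ).conjTranspose_mul_mul_same (diagonal (uq ρ))
  have e1 : em F ρ = (diagonal (uq ρ))ᴴ * (sd ρ * (Imm F)⁻¹ * sd ρ) * diagonal (uq ρ) := by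
    unfold em
    rw [r_eq ρ hρ, conjTranspose_mul, sd_conj]
    simp only [Matrix.mul_assoc]
  have e2 : (em F ρ).PosSemidef := by
    unfold em
    exact hF.inv.posSemidef.conjTranspose_mul_mul_same _
  rw [Matrix.mul_sub, Matrix.sub_mul, ← e1] at h1
  have h2 := hs_mono _ _ e2 h1
  refine h2.trans ?_
  rw [Matrix.mul_add, Matrix.add_mul, Matrix.mul_smul, Matrix.mul_smul, Matrix.smul_mul,
    Matrix.smul_mul, Matrix.mul_add, Matrix.add_mul, smul_add]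
  refine (hs_three _ _ _).trans (le_of_eq ?_)
  rw [hs_smul, hs_smul, hs_smul, wh1, wh1, wh1]
  norm_num
  ring

theorem ez_le : hs (ez F ρ) ≤ 3 / 4 * wh (uq ρ) Z + 3 / 4 * wh (uq ρ) P +
    12 * wh (uq ρ) (sd ρ) := by
  have h1 := (sqs_le F ρ hF P Z hP hZ).mul_mul_conjTranspose_same (diagonal (uq ρ))
  have e1 : ez F ρ = diagonal (uq ρ) * (sd ρ * (Imm F)⁻¹ * sd ρ) * (diagonal (uq ρ))ᴴ := by
    unfold ez
    rw [r_eq ρ hρ, conjTranspose_mul, sd_conj]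
    conv_lhs => rw [sd_comm]
    simp only [Matrix.mul_assoc]
    congr 3
    have := congrArg conjTranspose (sd_comm ρ (uq ρ))
    rw [conjTranspose_mul, conjTranspose_mul, sd_conj] at this
    exact this
  have e2 : (ez F ρ).PosSemidef := by
    unfold ez
    exact hF.inv.posSemidef.mul_mul_conjTranspose_same _
  rw [Matrix.mul_sub, Matrix.sub_mul, ← e1] at h1
  have h2 := hs_mono _ _ e2 h1
  refine h2.trans ?_
  rw [Matrix.mul_add, Matrix.add_mul, Matrix.mul_smul, Matrix.mul_smul, Matrix.smul_mul,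
    Matrix.smul_mul, Matrix.mul_add, Matrix.add_mul, smul_add]
  refine (hs_three _ _ _).trans (le_of_eq ?_)
  rw [hs_smul, hs_smul, hs_smul, wh2, wh2, wh2]
  norm_num
  ring

end err

end Pool.Agent.Helper32.SD
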