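import Pool.Agent.Helper32.SD.Uni

/-! The consequences of the scalar facts. -/

set_option autoImplicit false
set_option linter.unusedSectionVars false
set_option linter.unusedSimpArgs false
set_option linter.unusedVariables false

namespace Pool.Agent.Helper32.SD

section

variable {K c E η R Γ x y : ℝ} (h : Fp K c E η R Γ x y)

include h

theorem Fp.ypos : 0 < y := by
  have := h.ey
  have := h.ηpos
  have := h.Γpos
  linarith

theorem Fp.xR : |x| ≤ |E| ∧ |R| ≤ |E| := by
  have h1 := h.H1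
  have h2 := h.ex
  rcases le_total 0 x with h0 | h0
  · have h3 : R ≤ 0 ∨ x = 0 := by
      by_contra hc
      push Not at hc
      have : 0 < x := lt_of_le_of_ne h0 (Ne.symm hc.2)
      nlinarith [mul_pos hc.1 this]
    rcases h3 with h3 | h3
    · have h4 : 0 ≤ E := by linarith
      rw [abs_of_nonneg h0, abs_of_nonpos h3, abs_of_nonneg h4]
      constructor <;> linarith
    · have h4 : R = -E := by linarith
      rw [h3, h4, abs_neg, abs_zero]
      exact ⟨abs_nonneg _, le_rfl⟩
  · have h3 : 0 ≤ R ∨ x = 0 := by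
      by_contra hc
      push Not at hc
      have : x < 0 := lt_of_le_of_ne h0 hc.2
      nlinarith [mul_pos_of_neg_of_neg hc.1 this]
    rcases h3 with h3 | h3
    · have h4 : E ≤ 0 := by linarith
      rw [abs_of_nonpos h0, abs_of_nonneg h3, abs_of_nonpos h4]
      constructor <;> linarith
    · have h4 : R = -E := by linarith
      rw [h3, h4, abs_neg, abs_zero]
      exact ⟨abs_nonneg _, le_rfl⟩

theorem Fp.my (hc : 0 < c) : K ≤ (|x| + c) ^ 2 + y ^ 2 := by
  have h1 := h.H4
  have hy := h.ypos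
  have hΓ : Γ ≤ y := by
    have := h.ey
    have := h.ηpos
    linarith
  have h2 : K * y ≤ y * ((|x| + c) ^ 2 + y ^ 2) := h1.trans (by gcongr)
  rw [mul_comm] at h2
  exact le_of_mul_le_mul_left h2 hy

variable (hc : 0 < c) (hη : η ≤ 1) {D : ℝ} (hD : 1 ≤ D) (hK : 10 ^ 17 * D * (c + D) ≤ K)
  (hE : |E| ≤ (c + Real.sqrt K) / 20)

include hc hη hD hK hE

theorem Fp.far (hx : c < |x|) : |x| ≤ Real.sqrt K / 19 ∧ 9 / 10 * Real.sqrt K ≤ y := by
  have hK0 : 0 < K := lt_of_lt_of_le (by positivity) hK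
  have hs : 0 < Real.sqrt K := Real.sqrt_pos.2 hK0
  have hs2 : Real.sqrt K ^ 2 = K := Real.sq_sqrt hK0.le
  obtain ⟨s, hs'⟩ : ∃ s, s = Real.sqrt K := ⟨_, rfl⟩
  rw [← hs'] at hs hs2 hE ⊢
  have h1 := h.xR.1
  have h2 : |x| ≤ s / 19 := by linarith
  refine ⟨h2, ?_⟩
  have h3 := h.my hc
  have hy := h.ypos
  have h4 : |x| + c ≤ 2 / 19 * s := by linarith
  have h5 : (|x| + c) ^ 2 ≤ (2 / 19 * s) ^ 2 := by
    have := abs_nonneg x
    gcongr
  by_contra hcon
  push Not at hcon
  have h6 : y ^ 2 ≤ (9 / 10 * s) ^ 2 := by gcongr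
  nlinarith

theorem Fp.sK : 3 * 10 ^ 8 * D ≤ Real.sqrt K := by
  apply Real.le_sqrt_of_sq_le
  have h1 : 10 ^ 17 * D * D ≤ 10 ^ 17 * D * (c + D) := by
    have : 0 ≤ c := hc.le
    have : D ≤ c + D := by linarith
    have : (0 : ℝ) ≤ 10 ^ 17 * D := by positivity
    gcongr
  nlinarith [sq_nonneg D]

theorem Fp.Γlow : 10 ^ 8 * D ≤ Γ := by
  have hK0 : 0 < K := lt_of_lt_of_le (by positivity) hK
  have hD0 : 0 < D := by linarith
  have hy := h.ypos
  have hey := h.ey
  have hηp := h.ηpos
  have hΓp := h.Γpos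
  rcases le_or_gt |x| c with hx | hx
  · rcases le_total y c with hyc | hyc
    · have h1 := h.H5 hx y hy.le hyc le_rfl
      have h2 : K ≤ 4 * c * Γ := by
        have : K * y = y * K := by ring
        rw [this] at h1
        have : 4 * c * y * Γ = y * (4 * c * Γ) := by ring
        rw [this] at h1
        exact le_of_mul_le_mul_left h1 hy
      have h3 : 10 ^ 17 * D * c ≤ 4 * c * Γ := by
        refine le_trans ?_ (hK.trans h2)
        have : c ≤ c + D := by linarith
        gcongr
      have h4 : c * (10 ^ 17 * D) ≤ c * (4 * Γ) := by linarith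
      have h5 := le_of_mul_le_mul_left h4 hc
      linarith
    · have h1 := h.H5 hx c hc.le le_rfl hyc
      have h2 : K ≤ 4 * y * Γ := by
        have : K * c = c * K := by ring
        rw [this] at h1
        have : 4 * c * y * Γ = c * (4 * y * Γ) := by ring
        rw [this] at h1
        exact le_of_mul_le_mul_left h1 hc
      by_contra hcon
      push Not at hcon
      have h3 : 10 ^ 17 * D * D ≤ K := by
        refine le_trans ?_ hK
        have : D ≤ c + D := by linarith
        gcongr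
      have h4 : y ≤ 2 * (10 ^ 8 * D) := by linarith
      have h5 : 4 * y * Γ ≤ 4 * (2 * (10 ^ 8 * D)) * (10 ^ 8 * D) := by gcongr
      nlinarith [sq_nonneg D, mul_pos hD0 hD0]
  · have h1 := (h.far hc hη hD hK hE hx).2
    have h2 := h.sK hc hη hD hK hE
    nlinarith

theorem Fp.xsq : x ^ 2 ≤ c ^ 2 + y ^ 2 := by
  have hK0 : 0 < K := lt_of_lt_of_le (by positivity) hK
  rw [← sq_abs x]
  rcases le_or_gt |x| c with hx | hx
  · have : |x| ^ 2 ≤ c ^ 2 := by gcongr
    have := sq_nonneg y
    linarith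
  · obtain ⟨h1, h2⟩ := h.far hc hη hD hK hE hx
    have hs : 0 < Real.sqrt K := Real.sqrt_pos.2 hK0
    have : |x| ^ 2 ≤ y ^ 2 := by
      have : |x| ≤ y := by linarith
      gcongr
    have := sq_nonneg c
    linarith

theorem Fp.str (hm : 2 * y < |x| + c) : |x| ≤ c ∧ y < c := by
  have hK0 : 0 < K := lt_of_lt_of_le (by positivity) hK
  have h0 : |x| ≤ c := by
    by_contra hx
    push Not at hx
    obtain ⟨h1, h2⟩ := h.far hc hη hD hK hE hx
    have hs : 0 < Real.sqrt K := Real.sqrt_pos.2 hK0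
    linarith
  exact ⟨h0, by linarith⟩

theorem Fp.Rle : |R| ≤ Γ := by
  have hK0 : 0 < K := lt_of_lt_of_le (by positivity) hK
  have hD0 : 0 < D := by linarith
  have hy := h.ypos
  have hey := h.ey
  have hηp := h.ηpos
  have hΓp := h.Γpos
  obtain ⟨h1, h2⟩ := h.xR
  have hsK := h.sK hc hη hD hK hE
  have hs2 : Real.sqrt K ^ 2 = K := Real.sq_sqrt hK0.le
  obtain ⟨s, hs'⟩ : ∃ s, s = Real.sqrt K := ⟨_, rfl⟩
  rw [← hs'] at hs2 hE hsK
  have hs0 : 0 < s := lt_of_lt_of_le (by positivity) hsK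
  have hx0 := abs_nonneg x
  rcases le_or_gt c (s / 2) with h3 | h3
  · have h4 : |E| ≤ 3 / 40 * s := by linarith
    have h5 := h.my hc
    have h6 : |x| + c ≤ 23 / 40 * s := by linarith
    have h7 : (|x| + c) ^ 2 ≤ (23 / 40 * s) ^ 2 := by gcongr
    have h8 : 4 / 5 * s ≤ y := by
      by_contra hcon
      push Not at hcon
      have h9 : y ^ 2 ≤ (4 / 5 * s) ^ 2 := by gcongr
      nlinarith
    have h9 : 1 ≤ s / 10 := by linarith
    linarith
  · have h4 : |x| ≤ 3 / 20 * c := by linarith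
    have h5 := h.H2
    have h6 : (17 / 20 * c) ^ 2 ≤ (c - |x|) ^ 2 := by
      have : 17 / 20 * c ≤ c - |x| := by linarith
      gcongr
    have hR0 := abs_nonneg R
    have h7 : ((17 / 20 * c) ^ 2 + y ^ 2) * |R| ≤ K * (3 / 20 * c) := by
      calc ((17 / 20 * c) ^ 2 + y ^ 2) * |R| ≤ ((c - |x|) ^ 2 + y ^ 2) * |R| := by gcongr
        _ ≤ K * |x| := h5
        _ ≤ _ := by gcongr
    have hxc : |x| ≤ c := by linarith
    rcases le_total y c with hyc | hyc
    · have e1 := h.H5 hxc y hy.le hyc le_rfl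
      have e2 : K ≤ 4 * c * Γ := by
        have : K * y = y * K := by ring
        rw [this] at e1
        have : 4 * c * y * Γ = y * (4 * c * Γ) := by ring
        rw [this] at e1
        exact le_of_mul_le_mul_left e1 hy
      have e3 : (17 / 20 * c) ^ 2 * |R| ≤ (4 * c * Γ) * (3 / 20 * c) := by
        calc (17 / 20 * c) ^ 2 * |R| ≤ ((17 / 20 * c) ^ 2 + y ^ 2) * |R| := by
              have := sq_nonneg y
              gcongr
              linarith
          _ ≤ K * (3 / 20 * c) := h7
          _ ≤ _ := by gcongr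
      have e4 : c ^ 2 * (289 / 400 * |R|) ≤ c ^ 2 * (3 / 5 * Γ) := by linarith
      have e5 := le_of_mul_le_mul_left e4 (by positivity)
      linarith
    · have e1 := h.H5 hxc c hc.le le_rfl hyc
      have e2 : K * c ≤ 4 * y ^ 2 * Γ := by
        have : 4 * c * y * Γ ≤ 4 * y * y * Γ := by gcongr
        linarith
      have e3 : y ^ 2 * |R| ≤ y ^ 2 * (3 / 5 * Γ) := by
        calc y ^ 2 * |R| ≤ ((17 / 20 * c) ^ 2 + y ^ 2) * |R| := by
              have := sq_nonneg (17 / 20 * c)
              gcongr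
              linarith
          _ ≤ K * (3 / 20 * c) := h7
          _ = 3 / 20 * (K * c) := by ring
          _ ≤ 3 / 20 * (4 * y ^ 2 * Γ) := by gcongr
          _ = _ := by ring
      have e5 := le_of_mul_le_mul_left e3 (by positivity)
      linarith

theorem Fp.Γup : Γ ≤ Real.sqrt K := by
  have hy := h.ypos
  have hey := h.ey
  have hηp := h.ηpos
  have hΓp := h.Γpos
  have h3 := h.H3
  apply Real.le_sqrt_of_sq_le
  nlinarith

end

end Pool.Agent.Helper32.SD
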