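import Pool.Agent.Helper32.SD.Mat
import Pool.Agent.Helper32.BS.Env

/-! The inverse of the imaginary part of the Green matrix. -/

set_option autoImplicit false
set_option linter.unusedSectionVars false
set_option linter.unusedSimpArgs false
set_option linter.unusedVariables false

open scoped BigOperators Matrix ComplexOrder MatrixOrder
open Matrix

namespace Pool.Agent.Helper32.SD

open Pool.Agent.Helper32.BS

section gen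

variable {n : Type} [Fintype n] [DecidableEq n]

theorem hs_sum_le {ι : Type} (s : Finset ι) (X : ι → Matrix n n ℂ) :
    hs (∑ i ∈ s, X i) ≤ s.card * ∑ i ∈ s, hs (X i) := by
  have h0 : ∑ i ∈ s, hs (X i) = ∑ a, ∑ b, ∑ i ∈ s, ‖X i a b‖ ^ 2 := by
    unfold hs
    rw [Finset.sum_comm]
    refine Finset.sum_congr rfl fun a _ => ?_
    rw [Finset.sum_comm]
  rw [h0]
  unfold hs
  rw [Finset.mul_sum]
  refine Finset.sum_le_sum fun a _ => ?_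
  rw [Finset.mul_sum]
  refine Finset.sum_le_sum fun b _ => ?_
  rw [Matrix.sum_apply]
  calc ‖∑ i ∈ s, X i a b‖ ^ 2 ≤ (∑ i ∈ s, ‖X i a b‖) ^ 2 := by
        gcongr
        exact norm_sum_le _ _
    _ ≤ _ := sq_sum_le_card_mul_sum_sq

theorem hs_umul (U X : Matrix n n ℂ) (hU : Uᴴ * U = 1) : hs (U * X) = hs X := by
  rw [hs_trace, hs_trace, conjTranspose_mul]
  congr 2
  rw [Matrix.mul_assoc, ← Matrix.mul_assoc Uᴴ, hU, Matrix.one_mul]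

theorem hs_umul' (U X : Matrix n n ℂ) (hU : Uᴴ * U = 1) : hs (Uᴴ * X) = hs X := by
  apply hs_umul
  rw [conjTranspose_conjTranspose]
  exact mul_eq_one_comm.1 hU

theorem hs_diag (u : n → ℂ) (M : ℝ) (hu : ∀ x, ‖u x‖ ≤ M) (X : Matrix n n ℂ) :
    hs (diagonal u * X) ≤ M ^ 2 * hs X := by
  unfold hs
  rw [Finset.mul_sum]
  refine Finset.sum_le_sum fun x _ => ?_
  rw [Finset.mul_sum]
  refine Finset.sum_le_sum fun y _ => ?_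
  rw [diagonal_mul, norm_mul, mul_pow]
  have := hu x
  gcongr

/-- the inverse decreases -/
theorem inv_shift (Q : Matrix n n ℂ) (hQ : Q.PosDef) (Γ η : ℝ) (hΓ : 0 < Γ) (hη : 0 < η) :
    ((Γ : ℂ)⁻¹ • Q⁻¹ - ((Γ : ℂ) • Q + (η : ℂ) • 1)⁻¹).PosSemidef := by
  have hΓc : (Γ : ℂ) ≠ 0 := by exact_mod_cast hΓ.ne'
  have hΓ0 : (0 : ℂ) < (Γ : ℂ) := by exact_mod_cast hΓ
  have hη0 : (0 : ℂ) < (η : ℂ) := by exact_mod_cast hη
  have p1 : ((Γ : ℂ) • Q).PosDef := hQ.smul hΓ0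
  have p2 : ((η : ℂ) • (1 : Matrix n n ℂ)).PosDef := PosDef.one.smul hη0
  have p3 : ((Γ : ℂ) • Q + (η : ℂ) • 1).PosDef := p1.add p2
  have hQQ : Q⁻¹ * Q = 1 := nonsing_inv_mul _ ((isUnit_iff_isUnit_det _).1 hQ.isUnit)
  have hQQ' : Q * Q⁻¹ = 1 := mul_nonsing_inv _ ((isUnit_iff_isUnit_det _).1 hQ.isUnit)
  obtain ⟨P, hP⟩ : ∃ P, P = (Γ : ℂ) • Q + (η : ℂ) • 1 := ⟨_, rfl⟩
  rw [← hP] at p3 ⊢
  have hPP : P⁻¹ * P = 1 := nonsing_inv_mul _ ((isUnit_iff_isUnit_det _).1 p3.isUnit)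
  have hPP' : P * P⁻¹ = 1 := mul_nonsing_inv _ ((isUnit_iff_isUnit_det _).1 p3.isUnit)
  have p4 : (((Γ : ℂ) • Q) * ((Γ : ℂ) • Q) + (η : ℂ) • ((Γ : ℂ) • Q)).PosDef := by
    have e1 : (((Γ : ℂ) • Q) * ((Γ : ℂ) • Q)).PosSemidef := by
      have := posSemidef_conjTranspose_mul_self ((Γ : ℂ) • Q)
      rwa [p1.isHermitian.eq] at this
    exact (p1.smul hη0).posSemidef_add e1
  have e1 : ((Γ : ℂ) • Q) * ((Γ : ℂ) • Q) + (η : ℂ) • ((Γ : ℂ) • Q) = P * ((Γ : ℂ) • Q) := by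
    rw [hP, Matrix.add_mul, Matrix.smul_mul (η : ℂ), Matrix.one_mul]
  rw [e1] at p4
  have p5 := p4.inv
  have a0 : ((Γ : ℂ) • Q) * ((Γ : ℂ)⁻¹ • Q⁻¹) = 1 := by
    rw [Matrix.smul_mul, Matrix.mul_smul, smul_smul, hQQ', mul_inv_cancel₀ hΓc, one_smul]
  have e2 : (P * ((Γ : ℂ) • Q))⁻¹ = ((Γ : ℂ)⁻¹ • Q⁻¹) * P⁻¹ := by
    apply inv_eq_right_inv
    calc P * ((Γ : ℂ) • Q) * ((Γ : ℂ)⁻¹ • Q⁻¹ * P⁻¹) =
        P * (((Γ : ℂ) • Q) * ((Γ : ℂ)⁻¹ • Q⁻¹)) * P⁻¹ := by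
          simp only [Matrix.mul_assoc]
      _ = 1 := by
          rw [a0, Matrix.mul_one, hPP']
  have e3 : (Γ : ℂ)⁻¹ • Q⁻¹ - P⁻¹ = (η : ℂ) • (((Γ : ℂ)⁻¹ • Q⁻¹) * P⁻¹) := by
    have a1 : (Γ : ℂ)⁻¹ • Q⁻¹ - P⁻¹ = ((Γ : ℂ)⁻¹ • Q⁻¹) * (P - (Γ : ℂ) • Q) * P⁻¹ := by
      rw [Matrix.mul_sub, Matrix.sub_mul, Matrix.mul_assoc _ P, hPP', Matrix.mul_one,
        Matrix.smul_mul, Matrix.mul_smul, smul_smul, hQQ, inv_mul_cancel₀ hΓc, one_smul,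
        Matrix.one_mul]
    rw [a1, hP, add_sub_cancel_left, Matrix.mul_smul, Matrix.mul_one, Matrix.smul_mul]
  rw [e3, ← e2]
  exact p5.posSemidef.smul hη0.le

/-- **the bound** -/
theorem inv_bd (W F G : Matrix n n ℂ) (Γ η w : ℝ) (hΓ : 1 ≤ Γ) (hη : 0 < η)
    (hF : (Imm F).PosDef) (hG : (W - (Γ : ℂ) • F) * G = 1)
    (hW : W - Wᴴ = (-(2 * Complex.I * η)) • 1) (hw0 : 0 ≤ w)
    (hw : ∀ X : Matrix n n ℂ, hs ((W - ((Γ : ℂ) * Complex.I) • 1)ᴴ * X *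
      (W - ((Γ : ℂ) * Complex.I) • 1)) ≤ w * hs X) :
    hs (Imm G)⁻¹ ≤ (256 * w + 8 * Γ ^ 2) * (hs (Dm F) + hs (Dz F) + Fintype.card n) := by
  have hΓ0 : 0 < Γ := by linarith
  have hΓc : (Γ : ℂ) ≠ 0 := by exact_mod_cast hΓ0.ne'
  have hG' := mul_eq_one_comm.1 hG
  obtain ⟨M, hM⟩ : ∃ M, M = W - (Γ : ℂ) • F := ⟨_, rfl⟩
  have e1 := one_Q hG hW
  rw [← hM] at hG hG'
  have hΓ0' : (0 : ℂ) < (Γ : ℂ) := by exact_mod_cast hΓ0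
  have hη0 : (0 : ℂ) < (η : ℂ) := by exact_mod_cast hη
  obtain ⟨P, hP⟩ : ∃ P, P = (Γ : ℂ) • Imm F + (η : ℂ) • (1 : Matrix n n ℂ) := ⟨_, rfl⟩
  have p3 : P.PosDef := by
    rw [hP]
    exact (hF.smul hΓ0').add (PosDef.one.smul hη0)
  have hPP' : P * P⁻¹ = 1 := mul_nonsing_inv _ ((isUnit_iff_isUnit_det _).1 p3.isUnit)
  rw [← hP] at e1
  have e2 : (Imm G)⁻¹ = Mᴴ * P⁻¹ * M := by
    rw [e1]
    apply inv_eq_right_inv
    have b1 : Gᴴ * Mᴴ = 1 := by rw [← conjTranspose_mul, hG, conjTranspose_one]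
    calc G * P * Gᴴ * (Mᴴ * P⁻¹ * M) = G * P * (Gᴴ * Mᴴ) * P⁻¹ * M := by
          simp only [Matrix.mul_assoc]
      _ = G * (P * P⁻¹) * M := by
          rw [b1, Matrix.mul_one]
          simp only [Matrix.mul_assoc]
      _ = 1 := by rw [hPP', Matrix.mul_one, hG']
  obtain ⟨U, hU⟩ : ∃ U, U = W - ((Γ : ℂ) * Complex.I) • (1 : Matrix n n ℂ) := ⟨_, rfl⟩
  rw [← hU] at hw
  have e3 : M = U - (Γ : ℂ) • Yy F := by
    rw [hM, hU]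
    unfold Yy
    rw [smul_sub, smul_smul]
    abel
  obtain ⟨R, hR⟩ : ∃ R, R = (Imm F)⁻¹ := ⟨_, rfl⟩
  have hRp : R.PosSemidef := by rw [hR]; exact hF.inv.posSemidef
  have q1 : (Mᴴ * ((Γ : ℂ)⁻¹ • R) * M - (Imm G)⁻¹).PosSemidef := by
    have := (inv_shift (Imm F) hF Γ η hΓ0 hη).conjTranspose_mul_mul_same M
    rw [← hP, ← hR, Matrix.mul_sub, Matrix.sub_mul, ← e2] at this
    exact this
  have q2 : ((2 * (Γ : ℂ)⁻¹) • (Uᴴ * R * U) + (2 * (Γ : ℂ)) • Dm F -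
      Mᴴ * ((Γ : ℂ)⁻¹ • R) * M).PosSemidef := by
    have e4 : (2 * (Γ : ℂ)⁻¹) • (Uᴴ * R * U) + (2 * (Γ : ℂ)) • Dm F -
        Mᴴ * ((Γ : ℂ)⁻¹ • R) * M = (Γ : ℂ)⁻¹ • ((U + (Γ : ℂ) • Yy F)ᴴ * R *
          (U + (Γ : ℂ) • Yy F)) := by
      unfold Dm
      rw [← hR, e3]
      simp only [conjTranspose_add, conjTranspose_sub, conjTranspose_smul, RCLike.star_def,
        Complex.conj_ofReal, Matrix.add_mul, Matrix.mul_add, Matrix.sub_mul, Matrix.mul_sub,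
        Matrix.smul_mul, Matrix.mul_smul, smul_add, smul_sub, smul_smul]
      have k1 : (Γ : ℂ)⁻¹ * ((Γ : ℂ) * (Γ : ℂ)) = Γ := by field_simp
      have k2 : (Γ : ℂ)⁻¹ * (Γ : ℂ) = 1 := by field_simp
      have k3 : (Γ : ℂ) * (Γ : ℂ)⁻¹ = 1 := by field_simp
      simp only [k1, k2, k3, mul_assoc]
      module
    rw [e4]
    have k4 : (0 : ℂ) ≤ (Γ : ℂ)⁻¹ := by
      have : (0 : ℝ) ≤ Γ⁻¹ := by positivity
      exact_mod_cast this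
    exact (hRp.conjTranspose_mul_mul_same _).smul k4
  have q3 : (Imm G)⁻¹.PosSemidef := by
    rw [e2]
    exact p3.inv.posSemidef.conjTranspose_mul_mul_same _
  have q4 : ((2 * (Γ : ℂ)⁻¹) • (Uᴴ * R * U) + (2 * (Γ : ℂ)) • Dm F - (Imm G)⁻¹).PosSemidef := by
    have := q2.add q1
    rwa [sub_add_sub_cancel] at this
  have h1 := hs_mono _ _ q3 q4
  have h2 := hs_add ((2 * (Γ : ℂ)⁻¹) • (Uᴴ * R * U)) ((2 * (Γ : ℂ)) • Dm F)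
  rw [hs_smul, hs_smul] at h2
  have n1 : ‖(2 * (Γ : ℂ)⁻¹)‖ ^ 2 ≤ 4 := by
    rw [norm_mul, norm_inv, Complex.norm_real, Real.norm_of_nonneg hΓ0.le]
    have : Γ⁻¹ ≤ 1 := inv_le_one_of_one_le₀ hΓ
    have : 0 < Γ⁻¹ := by positivity
    norm_num
    rw [mul_pow]
    nlinarith
  have n2 : ‖(2 * (Γ : ℂ))‖ ^ 2 = 4 * Γ ^ 2 := by
    rw [norm_mul, Complex.norm_real, Real.norm_of_nonneg hΓ0.le]
    norm_num
    ring
  rw [n2] at h2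
  have h3 := hw R
  have h4 : hs R ≤ 2 * hs (Dz F) + 32 * Fintype.card n := by
    rw [hR]
    exact (inv_le_dp F hF).trans (dp_le_dz F hF)
  have h5 := hs_nonneg (Dm F)
  have h6 := hs_nonneg (Dz F)
  have h7 : (0 : ℝ) ≤ Fintype.card n := Nat.cast_nonneg _
  have h8 : ‖(2 * (Γ : ℂ)⁻¹)‖ ^ 2 * hs (Uᴴ * R * U) ≤ 4 * (w * (2 * hs (Dz F) +
      32 * Fintype.card n)) := by
    have := hs_nonneg (Uᴴ * R * U)
    have h9 : hs (Uᴴ * R * U) ≤ w * (2 * hs (Dz F) + 32 * Fintype.card n) :=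
      h3.trans (by gcongr)
    gcongr
  have h10 : hs (Imm G)⁻¹ ≤ 2 * (4 * (w * (2 * hs (Dz F) + 32 * Fintype.card n))) +
      2 * (4 * Γ ^ 2 * hs (Dm F)) := by linarith
  refine h10.trans ?_
  have h11 : 0 ≤ Γ ^ 2 := sq_nonneg _
  nlinarith [mul_nonneg hw0 h5, mul_nonneg hw0 h6, mul_nonneg hw0 h7, mul_nonneg h11 h5,
    mul_nonneg h11 h6, mul_nonneg h11 h7]

end gen

end Pool.Agent.Helper32.SD
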