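import Pool.Agent.Helper32.SD.Mom
import Pool.Agent.Helper32.BS.Rf

/-! Absolutely continuous spectrum from the moment bound. -/

set_option autoImplicit false
set_option linter.unusedSectionVars false
set_option linter.unusedSimpArgs false
set_option linter.unusedVariables false

open scoped BigOperators InnerProductSpace Topology ENNReal
open Filter MeasureTheory ProbabilityTheory

namespace Pool.Agent.Helper32.SD

open Pool.Agent.Helper32.BS
open Pool.Agent.TH369.AN (Rz rz_eq rz_uniq rz_norm)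
open Pool.Agent.TH369.MU (SpM ep zk qk Fk qk_sq poisson_ae)
open Pool.Agent.TH369.MU.PO2 (ep_pos ep_tendsto)
open Pool.Agent.Y662.TR (LL lmk lmk_apply ll_inner ll_ext ll_summable ll_coord ll_sum dv dv_apply
  dv_self dv_ne inner_dv norm_dv ev ev_apply add_coord sub_coord neg_coord smul_coord
  clp clp_abs clp_eq clp_cont fatou_om)

variable {K d : ℕ} {S : Type} [AddGroup S]

/-- **absolutely continuous spectrum** from a uniform moment bound -/
theorem main_ac2 [Countable S] {Sn : ℕ → Type} [∀ n, AddGroup (Sn n)] [∀ n, Fintype (Sn n)]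
    [∀ n, DecidableEq (Sn n)] {π : ∀ n, S →+ Sn n} {J : ∀ n, Sn n → S} (hA : Apx S Sn π J)
    (hK : 2 ≤ K) (e : Fin d → S) {t : ℝ} (ht : 0 < t) {a b lam α β : ℝ}
    (ρ : Measure ℝ) [IsProbabilityMeasure ρ] (C : ℝ) (k0 : ℕ)
    (hmom : ∀ k, k0 ≤ k → ∀ E ∈ Set.Ioo α β, ∀ n (x : Sn n),
      ∫ ω, mq (fun i => π n (e i)) a t lam b (zk E k) x ω ^ 2 ∂(BS.Ph K (Sn n) ρ) ≤ C) :
    ∀ᵐ ω ∂(Pf K S ρ),
        (∀ (φ : LL (Tr K × S)) (m : Measure ℝ),
          SpM (Tf K e a t (lam * b) (pw lam b ω)) φ m →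
          ∀ A : Set ℝ, A ⊆ Set.Ioo α β → volume A = 0 → m A = 0) ∧
        (∀ (v : Tr K × S) (m : Measure ℝ),
          SpM (Tf K e a t (lam * b) (pw lam b ω)) (dv v) m →
          ∀ A : Set ℝ, A ⊆ Set.Ioo α β → MeasurableSet A → m A = 0 → volume A = 0) := by
  obtain ⟨R, hR⟩ : ∃ R : ℝ, R = |a| + |lam| * |b| + (|α| + |β| + 1) + 2 * d + t * (K + 1) :=
    ⟨_, rfl⟩
  obtain ⟨C1, hC1⟩ : ∃ C1, C1 = ENNReal.ofReal ((t⁻¹ ^ 2) ^ 2 * C) := ⟨_, rfl⟩
  obtain ⟨C2, hC2⟩ : ∃ C2, C2 = ENNReal.ofReal ((R ^ 2 * t⁻¹ ^ 2) ^ 2 *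
      ((2 + 2 * d + K) ^ 2 * C)) := ⟨_, rfl⟩
  have hz : ∀ k, ∀ E ∈ Set.Ioo α β, ‖zk E k‖ ≤ |α| + |β| + 1 := by
    intro k E hE
    refine (Complex.norm_le_abs_re_add_abs_im _).trans ?_
    rw [zk_re, zk_im, abs_of_pos (ep_pos k)]
    have e1 := ep_le k
    have e2 : |E| ≤ |α| + |β| := by
      rw [abs_le]
      have := neg_abs_le α
      have := le_abs_self β
      have := abs_nonneg α
      have := abs_nonneg β
      constructor
      · linarith [hE.1]
      · linarith [hE.2]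
    linarith
  have hfin : ∀ k, k0 ≤ k → ∀ E ∈ Set.Ioo α β, ∀ n (v : Tr K × Sn n),
      ∫⁻ ω, ENNReal.ofReal (‖GF (fun i => π n (e i)) a t lam b (zk E k) v ω‖ ^ 2)
        ∂(Pf K (Sn n) ρ) ≤ C1 ∧
      ∫⁻ ω, ENNReal.ofReal ((1 / (GF (fun i => π n (e i)) a t lam b (zk E k) v ω).im) ^ 2)
        ∂(Pf K (Sn n) ρ) ≤ C2 := by
    intro k hk E hE n v
    rw [hC1, hC2]
    refine site_bd hK (fun i => π n (e i)) ht (zk E k) (zk_im_pos E k) ρ C
      (fun x => hmom k hk E hE n x) R ?_ v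
    rw [hR]
    have := hz k E hE
    linarith
  have hb1 : ∀ k, k0 ≤ k → ∀ E ∈ Set.Ioo α β, ∀ v : Tr K × S,
      ∫⁻ ω, q1 e a t lam b k v E ω ∂(Pf K S ρ) ≤ C1 := by
    intro k hk E hE v
    exact hA.fatou e a t lam b (zk E k) (zk_im_pos E k) v ρ (fun w => ENNReal.ofReal (‖w‖ ^ 2))
      (by fun_prop) (fun w _ => phi1_cont w) C1 (fun n => inferInstance)
      (fun n => (hfin k hk E hE n _).1)
  have hb2 : ∀ k, k0 ≤ k → ∀ E ∈ Set.Ioo α β, ∀ v : Tr K × S,
      ∫⁻ ω, q2 e a t lam b k v E ω ∂(Pf K S ρ) ≤ C2 := by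
    intro k hk E hE v
    exact hA.fatou e a t lam b (zk E k) (zk_im_pos E k) v ρ
      (fun w => ENNReal.ofReal ((1 / w.im) ^ 2))
      (((Complex.measurable_im.const_div 1).pow_const 2).ennreal_ofReal) phi2_cont C2
      (fun n => inferInstance) (fun n => (hfin k hk E hE n _).2)
  have hm1 : ∀ k v E, Measurable fun ω => q1 (K := K) e a t lam b k v E ω := fun k v E =>
    Measurable.of_uncurry_left (q1_joint e a t lam b k v)
  have hall1 : ∀ s : Finset (Tr K × S), ∀ᵐ ω ∂(Pf K S ρ),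
      liminf (fun k => ∫⁻ E in Set.Ioo α β, ∑ v ∈ s, q1 e a t lam b k v E ω) atTop < ∞ := by
    intro s
    refine fatou_om (Pf K S ρ) (fun k E ω => ∑ v ∈ s, q1 e a t lam b k v E ω)
      (fun k => Finset.measurable_fun_sum s fun v _ => q1_joint e a t lam b k v)
      (Set.Ioo α β) measurableSet_Ioo (by simp) (s.card * C1)
      (ENNReal.mul_ne_top (ENNReal.natCast_ne_top _) (by rw [hC1]; exact ENNReal.ofReal_ne_top)) k0
      (fun k hk E hE => ?_)
    rw [lintegral_finsetSum s fun v _ => hm1 k v E]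
    refine (Finset.sum_le_sum fun v _ => hb1 k hk E hE v).trans ?_
    rw [Finset.sum_const, nsmul_eq_mul]
  have hall2 : ∀ v : Tr K × S, ∀ᵐ ω ∂(Pf K S ρ),
      liminf (fun k => ∫⁻ E in Set.Ioo α β, q2 e a t lam b k v E ω) atTop < ∞ := by
    intro v
    exact fatou_om (Pf K S ρ) (fun k E ω => q2 e a t lam b k v E ω)
      (fun k => q2_joint e a t lam b k v) (Set.Ioo α β) measurableSet_Ioo (by simp) C2
      (by rw [hC2]; exact ENNReal.ofReal_ne_top) k0 (fun k hk E hE => hb2 k hk E hE v)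
  filter_upwards [ae_all_iff.2 hall1, ae_all_iff.2 hall2] with ω hω1 hω2
  refine ⟨fun φ m hm A hA' hv => ?_, fun v m hm A hA' hAm hv => ?_⟩
  · exact det_ac e a t lam b α β ω hω1 φ m hm A hA' hv
  · exact det_pos e a t lam b α β v ω (hω2 v) m hm A hA' hAm hv

/-- **absolutely continuous spectrum for disorder of the order of the connectivity** -/
theorem main_sd {G : Type} [AddGroup G] [Countable G] (hG : RF G) {K d : ℕ} (e : Fin d → G)
    {c : ℝ} (hc : 0 < c) (hK : 10 ^ 17 * ((d : ℝ) + 1) * (c + ((d : ℝ) + 1)) ≤ K) {a α β : ℝ}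
    (h1 : a - (c + Real.sqrt K) / 20 ≤ α) (h2 : β ≤ a + (c + Real.sqrt K) / 20) :
    ∀ᵐ ω ∂(Pf K G (unif c)),
        (∀ (φ : LL (Tr K × G)) (m : Measure ℝ),
          SpM (Tf K e a 1 (1 * c) (pw 1 c ω)) φ m →
          ∀ A : Set ℝ, A ⊆ Set.Ioo α β → volume A = 0 → m A = 0) ∧
        (∀ (v : Tr K × G) (m : Measure ℝ),
          SpM (Tf K e a 1 (1 * c) (pw 1 c ω)) (dv v) m →
          ∀ A : Set ℝ, A ⊆ Set.Ioo α β → MeasurableSet A → m A = 0 → volume A = 0) := by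
  classical
  obtain ⟨N, J, hA⟩ := apx_ex hG
  have : ∀ n, Fintype (G ⧸ (N n).1) := fun n => Fintype.ofFinite _
  have hpr := unif_prob hc
  have hK2 : 2 ≤ K := by
    have h3 : (2 : ℝ) ≤ K := by
      refine le_trans ?_ hK
      have hd : (0 : ℝ) ≤ d := Nat.cast_nonneg _
      have h4 : (1 : ℝ) * 1 ≤ ((d : ℝ) + 1) * (c + ((d : ℝ) + 1)) := by
        gcongr
        · linarith
        · linarith
      nlinarith
    exact_mod_cast h3
  refine main_ac2 hA hK2 e one_pos (unif c) (Csd K d c) 0 fun k _ E hE n x => ?_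
  refine mom_sd (fun i => QuotientAddGroup.mk' (N n).1 (e i)) a c (zk E k) (zk_im_pos E k) hc
    ((d : ℝ) + 1) rfl hK ?_ ?_ x
  · rw [zk_im]
    exact ep_le k
  · rw [zk_re, abs_le]
    constructor
    · linarith [hE.1]
    · linarith [hE.2]

end Pool.Agent.Helper32.SD
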