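import Mathlib

/-! The fixed point of the coherent potential equation. -/

set_option autoImplicit false
set_option linter.unusedSectionVars false
set_option linter.unusedSimpArgs false

open scoped BigOperators Topology
open MeasureTheory Filter

namespace Pool.Agent.Helper32.SD

section fix

variable (μ : Measure ℝ) [IsProbabilityMeasure μ] (f : ℝ → ℝ) (hf : Measurable f) (K : ℝ)
  (hK : 0 < K) (z : ℂ) (hz : 0 < z.im)

/-- the resolvent of a point -/
noncomputable def gr (f : ℝ → ℝ) (z s : ℂ) (v : ℝ) : ℂ := ((f v : ℂ) - z - s)⁻¹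

theorem gr_im (s : ℂ) (v : ℝ) : ((f v : ℂ) - z - s).im = -(z.im + s.im) := by
  simp
  ring

include hz

theorem gr_ne (s : ℂ) (hs : 0 ≤ s.im) (v : ℝ) : (f v : ℂ) - z - s ≠ 0 := by
  intro h
  have h1 := congrArg Complex.im h
  rw [gr_im f z s v, Complex.zero_im] at h1
  linarith

theorem gr_norm (s : ℂ) (hs : 0 ≤ s.im) (v : ℝ) : ‖gr f z s v‖ ≤ (z.im + s.im)⁻¹ := by
  unfold gr
  rw [norm_inv]
  have h1 := Complex.abs_im_le_norm ((f v : ℂ) - z - s)
  rw [gr_im f z s v, abs_neg, abs_of_pos (by linarith)] at h1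
  exact inv_anti₀ (by linarith) h1

theorem gr_norm' (s : ℂ) (hs : 0 ≤ s.im) (v : ℝ) : ‖gr f z s v‖ ≤ z.im⁻¹ :=
  (gr_norm f z hz s hs v).trans (inv_anti₀ hz (by linarith))

theorem gr_pos (s : ℂ) (hs : 0 ≤ s.im) (v : ℝ) : 0 < ‖gr f z s v‖ := by
  unfold gr
  rw [norm_pos_iff]
  exact inv_ne_zero (gr_ne f z hz s hs v)

theorem gr_im_eq (s : ℂ) (hs : 0 ≤ s.im) (v : ℝ) :
    (gr f z s v).im = (z.im + s.im) * ‖gr f z s v‖ ^ 2 := by
  unfold gr
  rw [Complex.inv_im, gr_im f z s v, norm_inv, inv_pow, ← Complex.normSq_eq_norm_sq, neg_neg]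
  rfl

theorem gr_sub (s t : ℂ) (hs : 0 ≤ s.im) (ht : 0 ≤ t.im) (v : ℝ) :
    gr f z s v - gr f z t v = (s - t) * (gr f z s v * gr f z t v) := by
  unfold gr
  have h1 := gr_ne f z hz s hs v
  have h2 := gr_ne f z hz t ht v
  field_simp
  ring

include hf

omit hz in
theorem gr_meas (s : ℂ) : Measurable (gr f z s) := by
  unfold gr
  exact (((Complex.measurable_ofReal.comp hf).sub_const z).sub_const s).inv

theorem gr_int (s : ℂ) (hs : 0 ≤ s.im) : Integrable (gr f z s) μ :=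
  Integrable.of_bound (gr_meas f hf z s).aestronglyMeasurable _
    (Eventually.of_forall fun v => gr_norm' f z hz s hs v)

theorem gr_sq_int (s : ℂ) (hs : 0 ≤ s.im) : Integrable (fun v => ‖gr f z s v‖ ^ 2) μ := by
  refine Integrable.of_bound ((gr_meas f hf z s).norm.pow_const 2).aestronglyMeasurable
    (z.im⁻¹ ^ 2) (Eventually.of_forall fun v => ?_)
  rw [Real.norm_of_nonneg (by positivity)]
  have := gr_norm' f z hz s hs v
  gcongr

theorem gr_mul_int (s t : ℂ) (hs : 0 ≤ s.im) (ht : 0 ≤ t.im) :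
    Integrable (fun v => gr f z s v * gr f z t v) μ := by
  refine Integrable.of_bound ((gr_meas f hf z s).mul (gr_meas f hf z t)).aestronglyMeasurable
    (z.im⁻¹ * z.im⁻¹) (Eventually.of_forall fun v => ?_)
  rw [norm_mul]
  exact mul_le_mul (gr_norm' f z hz s hs v) (gr_norm' f z hz t ht v) (norm_nonneg _)
    (by positivity)

/-- the second moment -/
noncomputable def am (μ : Measure ℝ) (f : ℝ → ℝ) (z s : ℂ) : ℝ := ∫ v, ‖gr f z s v‖ ^ 2 ∂μ

theorem am_pos (s : ℂ) (hs : 0 ≤ s.im) : 0 < am μ f z s := by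
  unfold am
  rw [integral_pos_iff_support_of_nonneg (fun v => by positivity)
    (gr_sq_int μ f hf z hz s hs)]
  have : Function.support (fun v => ‖gr f z s v‖ ^ 2) = Set.univ := by
    ext v
    simp only [Function.mem_support, Set.mem_univ, iff_true]
    have := gr_pos f z hz s hs v
    positivity
  rw [this, measure_univ]
  exact one_pos

/-- Cauchy–Schwarz -/
theorem gr_cs (s t : ℂ) (hs : 0 ≤ s.im) (ht : 0 ≤ t.im) :
    ‖∫ v, gr f z s v * gr f z t v ∂μ‖ ^ 2 ≤ am μ f z s * am μ f z t := by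
  obtain ⟨X, hX⟩ : ∃ X, X = ∫ v, ‖gr f z s v‖ * ‖gr f z t v‖ ∂μ := ⟨_, rfl⟩
  have h0 : ‖∫ v, gr f z s v * gr f z t v ∂μ‖ ≤ X := by
    rw [hX]
    refine (norm_integral_le_integral_norm _).trans (le_of_eq ?_)
    simp only [norm_mul]
  have hA := am_pos μ f hf z hz s hs
  have hi : Integrable (fun v => ‖gr f z s v‖ * ‖gr f z t v‖) μ := by
    refine ((gr_mul_int μ f hf z hz s t hs ht).norm).congr (Eventually.of_forall fun v => ?_)
    exact norm_mul _ _
  have h1 : ∀ l : ℝ, 0 ≤ l ^ 2 * am μ f z s - 2 * l * X + am μ f z t := by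
    intro l
    have e1 : ∫ v, (l * ‖gr f z s v‖ - ‖gr f z t v‖) ^ 2 ∂μ =
        l ^ 2 * am μ f z s - 2 * l * X + am μ f z t := by
      have e2 : (fun v => (l * ‖gr f z s v‖ - ‖gr f z t v‖) ^ 2) =
          fun v => (l ^ 2 * ‖gr f z s v‖ ^ 2 - 2 * l * (‖gr f z s v‖ * ‖gr f z t v‖)) +
            ‖gr f z t v‖ ^ 2 := by
        funext v
        ring
      have i1 : Integrable (fun v => l ^ 2 * ‖gr f z s v‖ ^ 2) μ :=
        (gr_sq_int μ f hf z hz s hs).const_mul _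
      have i2 : Integrable (fun v => 2 * l * (‖gr f z s v‖ * ‖gr f z t v‖)) μ := hi.const_mul _
      have i3 : Integrable (fun v => l ^ 2 * ‖gr f z s v‖ ^ 2 -
        2 * l * (‖gr f z s v‖ * ‖gr f z t v‖)) μ := i1.sub i2
      rw [e2, integral_add i3 (gr_sq_int μ f hf z hz t ht), integral_sub i1 i2,
        integral_const_mul, integral_const_mul, ← hX]
      rfl
    rw [← e1]
    exact integral_nonneg fun v => sq_nonneg _
  have h2 := h1 (X / am μ f z s)
  have h3 : X ^ 2 ≤ am μ f z s * am μ f z t := by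
    have e1 : (X / am μ f z s) ^ 2 * am μ f z s - 2 * (X / am μ f z s) * X + am μ f z t =
        am μ f z t - X ^ 2 / am μ f z s := by
      field_simp
      ring
    rw [e1] at h2
    have e2 : X ^ 2 / am μ f z s ≤ am μ f z t := by linarith
    rw [div_le_iff₀ hA] at e2
    linarith
  calc ‖∫ v, gr f z s v * gr f z t v ∂μ‖ ^ 2 ≤ X ^ 2 := by gcongr
    _ ≤ _ := h3

/-- the map -/
noncomputable def Ph (μ : Measure ℝ) (f : ℝ → ℝ) (K : ℝ) (z s : ℂ) : ℂ :=
  (K : ℂ) * ∫ v, gr f z s v ∂μ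

theorem ph_im (s : ℂ) (hs : 0 ≤ s.im) :
    (Ph μ f K z s).im = K * ((z.im + s.im) * am μ f z s) := by
  unfold Ph am
  rw [Complex.im_ofReal_mul, ← integral_const_mul]
  congr 1
  have h1 : (∫ v, gr f z s v ∂μ).im = ∫ v, (gr f z s v).im ∂μ :=
    (integral_im (𝕜 := ℂ) (gr_int μ f hf z hz s hs)).symm
  rw [h1]
  exact integral_congr_ae (Eventually.of_forall fun v => gr_im_eq f z hz s hs v)

theorem ph_sub (s t : ℂ) (hs : 0 ≤ s.im) (ht : 0 ≤ t.im) : Ph μ f K z s - Ph μ f K z t =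
    (K : ℂ) * ((s - t) * ∫ v, gr f z s v * gr f z t v ∂μ) := by
  unfold Ph
  rw [← mul_sub, ← integral_sub (gr_int μ f hf z hz s hs) (gr_int μ f hf z hz t ht),
    ← integral_const_mul (s - t)]
  congr 1
  exact integral_congr_ae (Eventually.of_forall fun v => gr_sub f z hz s t hs ht v)

theorem ph_norm (s : ℂ) (hs : 0 ≤ s.im) (hK : 0 < K) : ‖Ph μ f K z s‖ ≤ K / z.im := by
  unfold Ph
  rw [norm_mul, Complex.norm_real, Real.norm_of_nonneg hK.le, div_eq_mul_inv]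
  have h1 : ‖∫ v, gr f z s v ∂μ‖ ≤ z.im⁻¹ * (μ Set.univ).toReal :=
    norm_integral_le_of_norm_le_const (Eventually.of_forall fun v => gr_norm' f z hz s hs v)
  rw [measure_univ, ENNReal.toReal_one, mul_one] at h1
  gcongr

theorem ph_lip (s t : ℂ) (hs : 0 ≤ s.im) (ht : 0 ≤ t.im) (hK : 0 < K) :
    ‖Ph μ f K z s - Ph μ f K z t‖ ≤ K * z.im⁻¹ ^ 2 * ‖s - t‖ := by
  rw [ph_sub μ f hf K z hz s t hs ht, norm_mul, norm_mul, Complex.norm_real,
    Real.norm_of_nonneg hK.le]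
  have h1 : ‖∫ v, gr f z s v * gr f z t v ∂μ‖ ≤ z.im⁻¹ ^ 2 * (μ Set.univ).toReal := by
    refine norm_integral_le_of_norm_le_const (Eventually.of_forall fun v => ?_)
    rw [norm_mul, sq]
    exact mul_le_mul (gr_norm' f z hz s hs v) (gr_norm' f z hz t ht v) (norm_nonneg _)
      (by positivity)
  rw [measure_univ, ENNReal.toReal_one, mul_one] at h1
  calc K * (‖s - t‖ * ‖∫ v, gr f z s v * gr f z t v ∂μ‖) ≤ K * (‖s - t‖ * z.im⁻¹ ^ 2) := by gcongr
    _ = _ := by ring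

theorem ph_pos (s : ℂ) (hs : 0 ≤ s.im) (hK : 0 < K) : 0 < (Ph μ f K z s).im := by
  rw [ph_im μ f hf K z hz s hs]
  have := am_pos μ f hf z hz s hs
  have : 0 < z.im + s.im := by linarith
  positivity

/-- the hyperbolic contraction -/
theorem ph_contr (s t : ℂ) (hs : 0 < s.im) (ht : 0 < t.im) (hK : 0 < K)
    (hs1 : s.im ≤ K / z.im) (ht1 : t.im ≤ K / z.im) :
    ‖Ph μ f K z s - Ph μ f K z t‖ ^ 2 / ((Ph μ f K z s).im * (Ph μ f K z t).im) ≤
      ((K / z.im) / (z.im + K / z.im)) ^ 2 * (‖s - t‖ ^ 2 / (s.im * t.im)) := by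
  rw [ph_sub μ f hf K z hz s t hs.le ht.le, ph_im μ f hf K z hz s hs.le,
    ph_im μ f hf K z hz t ht.le, norm_mul, norm_mul, Complex.norm_real, Real.norm_of_nonneg hK.le]
  have h1 := gr_cs μ f hf z hz s t hs.le ht.le
  obtain ⟨I, hI⟩ : ∃ I, I = ‖∫ v, gr f z s v * gr f z t v ∂μ‖ := ⟨_, rfl⟩
  obtain ⟨a, ha⟩ : ∃ a, a = am μ f z s := ⟨_, rfl⟩
  obtain ⟨b, hb⟩ : ∃ b, b = am μ f z t := ⟨_, rfl⟩
  have ha0 : 0 < a := by rw [ha]; exact am_pos μ f hf z hz s hs.le
  have hb0 : 0 < b := by rw [hb]; exact am_pos μ f hf z hz t ht.le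
  rw [← hI, ← ha, ← hb] at h1
  rw [← hI, ← ha, ← hb]
  obtain ⟨M, hM⟩ : ∃ M, M = K / z.im := ⟨_, rfl⟩
  have hM0 : 0 < M := by rw [hM]; positivity
  rw [← hM] at hs1 ht1 ⊢
  obtain ⟨η, hη⟩ : ∃ η, η = z.im := ⟨_, rfl⟩
  rw [← hη] at hz ⊢
  obtain ⟨x, hx⟩ : ∃ x, x = s.im := ⟨_, rfl⟩
  obtain ⟨y, hy⟩ : ∃ y, y = t.im := ⟨_, rfl⟩
  rw [← hx] at hs hs1 ⊢
  rw [← hy] at ht ht1 ⊢
  obtain ⟨D, hD⟩ : ∃ D, D = ‖s - t‖ := ⟨_, rfl⟩
  rw [← hD]
  have e1 : (K * (D * I)) ^ 2 / (K * ((η + x) * a) * (K * ((η + y) * b))) ≤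
      D ^ 2 / ((η + x) * (η + y)) := by
    rw [div_le_div_iff₀ (by positivity) (by positivity)]
    have : (K * (D * I)) ^ 2 * ((η + x) * (η + y)) =
        K ^ 2 * D ^ 2 * ((η + x) * (η + y)) * I ^ 2 := by ring
    rw [this]
    have e2 : D ^ 2 * (K * ((η + x) * a) * (K * ((η + y) * b))) =
        K ^ 2 * D ^ 2 * ((η + x) * (η + y)) * (a * b) := by ring
    rw [e2]
    have : 0 ≤ K ^ 2 * D ^ 2 * ((η + x) * (η + y)) := by positivity
    gcongr
  refine e1.trans ?_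
  have e3 : ∀ u : ℝ, 0 < u → u ≤ M → u / (η + u) ≤ M / (η + M) := by
    intro u hu hu1
    rw [div_le_div_iff₀ (by positivity) (by positivity)]
    nlinarith
  have e4 := e3 x hs hs1
  have e5 := e3 y ht ht1
  have e6 : D ^ 2 / ((η + x) * (η + y)) = (x / (η + x)) * (y / (η + y)) * (D ^ 2 / (x * y)) := by
    field_simp
  rw [e6, sq (M / (η + M))]
  gcongr

/-- **the fixed point** -/
theorem fix_ex (hK : 0 < K) : ∃ s : ℂ, 0 < s.im ∧ Ph μ f K z s = s := by
  obtain ⟨M, hM⟩ : ∃ M, M = K / z.im := ⟨_, rfl⟩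
  have hM0 : 0 < M := by rw [hM]; positivity
  obtain ⟨r, hr⟩ : ∃ r, r = M / (z.im + M) := ⟨_, rfl⟩
  have hr0 : 0 < r := by rw [hr]; positivity
  have hr1 : r < 1 := by
    rw [hr, div_lt_one (by positivity)]
    linarith
  obtain ⟨u, hu⟩ : ∃ u : ℕ → ℂ, u = fun k => (Ph μ f K z)^[k + 1] Complex.I := ⟨_, rfl⟩
  have hus : ∀ k, u (k + 1) = Ph μ f K z (u k) := by
    intro k
    rw [hu]
    exact Function.iterate_succ_apply' _ _ _
  have hpos : ∀ k, 0 < (u k).im := by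
    intro k
    induction k with
    | zero =>
      rw [hu]
      exact ph_pos μ f hf K z hz _ (by simp) hK
    | succ k ih =>
      rw [hus]
      exact ph_pos μ f hf K z hz _ ih.le hK
  have hle : ∀ k, (u k).im ≤ M := by
    intro k
    have h1 : ‖u k‖ ≤ M := by
      cases k with
      | zero =>
        rw [hu, hM]
        exact ph_norm μ f hf K z hz _ (by simp) hK
      | succ k =>
        rw [hus, hM]
        exact ph_norm μ f hf K z hz _ (hpos k).le hK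
    exact (Complex.im_le_norm _).trans h1
  obtain ⟨D, hD⟩ : ∃ D : ℕ → ℝ, D = fun k => ‖u (k + 1) - u k‖ ^ 2 /
    ((u (k + 1)).im * (u k).im) := ⟨_, rfl⟩
  have hD1 : ∀ k, D (k + 1) ≤ r ^ 2 * D k := by
    intro k
    rw [hD]
    show ‖u (k + 2) - u (k + 1)‖ ^ 2 / ((u (k + 2)).im * (u (k + 1)).im) ≤
      r ^ 2 * (‖u (k + 1) - u k‖ ^ 2 / ((u (k + 1)).im * (u k).im))
    have h1 := ph_contr μ f hf K z hz (u (k + 1)) (u k) (hpos _) (hpos _) hK
      (by rw [← hM]; exact hle _) (by rw [← hM]; exact hle _)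
    rw [← hus, ← hus, ← hM, ← hr] at h1
    exact h1
  have hD2 : ∀ k, D k ≤ (r ^ k) ^ 2 * D 0 := by
    intro k
    induction k with
    | zero => simp
    | succ k ih =>
      calc D (k + 1) ≤ r ^ 2 * D k := hD1 k
        _ ≤ r ^ 2 * ((r ^ k) ^ 2 * D 0) := by gcongr
        _ = _ := by ring
  have hD0 : 0 ≤ D 0 := by
    rw [hD]
    have := hpos 0
    have := hpos 1
    positivity
  have hd : ∀ k, dist (u k) (u (k + 1)) ≤ (M * Real.sqrt (D 0)) * r ^ k := by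
    intro k
    rw [dist_comm, dist_eq_norm]
    have h1 : ‖u (k + 1) - u k‖ ^ 2 ≤ ((M * Real.sqrt (D 0)) * r ^ k) ^ 2 := by
      have h2 := hD2 k
      have h3 : ‖u (k + 1) - u k‖ ^ 2 = D k * ((u (k + 1)).im * (u k).im) := by
        rw [hD]
        have := hpos k
        have := hpos (k + 1)
        field_simp
      rw [h3, mul_pow, mul_pow, Real.sq_sqrt hD0]
      have h4 : (u (k + 1)).im * (u k).im ≤ M ^ 2 := by
        rw [sq]
        exact mul_le_mul (hle _) (hle _) (hpos _).le hM0.le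
      have h5 : 0 < (u (k + 1)).im * (u k).im := mul_pos (hpos _) (hpos _)
      calc D k * ((u (k + 1)).im * (u k).im) ≤ ((r ^ k) ^ 2 * D 0) * ((u (k + 1)).im * (u k).im) := by
            gcongr
        _ ≤ ((r ^ k) ^ 2 * D 0) * M ^ 2 := by gcongr
        _ = _ := by ring
    exact (pow_le_pow_iff_left₀ (norm_nonneg _) (by positivity) two_ne_zero).1 h1
  have hc := cauchySeq_of_le_geometric r _ hr1 hd
  obtain ⟨s, hs⟩ := cauchySeq_tendsto_of_complete hc
  have hs0 : 0 ≤ s.im := by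
    refine ge_of_tendsto ((Complex.continuous_im.tendsto s).comp hs)
      (Eventually.of_forall fun k => (hpos k).le)
  have h1 : Tendsto (fun k => Ph μ f K z (u k)) atTop (𝓝 (Ph μ f K z s)) := by
    rw [tendsto_iff_norm_sub_tendsto_zero]
    have h2 : Tendsto (fun k => K * z.im⁻¹ ^ 2 * ‖u k - s‖) atTop (𝓝 0) := by
      have := (tendsto_iff_norm_sub_tendsto_zero.1 hs).const_mul (K * z.im⁻¹ ^ 2)
      simpa using this
    exact squeeze_zero (fun _ => norm_nonneg _)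
      (fun k => ph_lip μ f hf K z hz (u k) s (hpos k).le hs0 hK) h2
  have h2 : Tendsto (fun k => u (k + 1)) atTop (𝓝 s) := hs.comp (tendsto_add_atTop_nat 1)
  simp only [hus] at h2
  have h3 := tendsto_nhds_unique h1 h2
  refine ⟨s, ?_, h3⟩
  rw [← h3]
  exact ph_pos μ f hf K z hz s hs0 hK

end fix

end Pool.Agent.Helper32.SD
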