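import Pool.Agent.Helper32.SD.Arith
import Pool.Agent.Helper32.BS.Rand

/-! The fluctuations of sums of independent variables. -/

set_option autoImplicit false
set_option linter.unusedSectionVars false
set_option linter.unusedSimpArgs false
set_option linter.unusedVariables false

open scoped BigOperators Topology ENNReal
open MeasureTheory Filter

namespace Pool.Agent.Helper32.SD

open Pool.Agent.Y662.TR (clp clp_abs clp_eq clp_cont)
open Pool.Agent.Helper32.BS (bint bintr)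

section gen

variable {K : ℕ} (μ : Measure ℝ) [IsProbabilityMeasure μ]

/-- the product law -/
noncomputable abbrev Qk (K : ℕ) (μ : Measure ℝ) : Measure (Fin K → ℝ) :=
  Measure.pi fun _ : Fin K => μ

theorem exp_prod (g : ℝ → ℝ) : ∫ v, Real.exp (∑ j, g (v j)) ∂(Qk K μ) =
    (∫ a, Real.exp (g a) ∂μ) ^ K := by
  simp only [Real.exp_sum]
  rw [integral_fintype_prod_eq_pow (fun a => Real.exp (g a)), Fintype.card_fin]

theorem exp_sum_le (Y : ℝ → ℝ) (hY : Measurable Y) (hb : ∀ a, |Y a| ≤ 1) (h0 : ∫ a, Y a ∂μ = 0)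
    (h2 : K * ∫ a, Y a ^ 2 ∂μ ≤ 1) : ∫ v, Real.exp (∑ j, Y (v j)) ∂(Qk K μ) ≤ Real.exp 1 := by
  rw [exp_prod]
  have iY : Integrable Y μ := bintr hY hb
  have iY2 : Integrable (fun a => Y a ^ 2) μ := by
    refine bintr (hY.pow_const 2) (M := 1) fun a => ?_
    rw [abs_of_nonneg (sq_nonneg _), ← sq_abs]
    have := hb a
    have := abs_nonneg (Y a)
    nlinarith
  have iE : Integrable (fun a => Real.exp (Y a)) μ := by
    refine bintr hY.exp (M := Real.exp 1) fun a => ?_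
    rw [abs_of_pos (Real.exp_pos _)]
    exact Real.exp_le_exp.2 ((le_abs_self _).trans (hb a))
  have h3 : ∫ a, Real.exp (Y a) ∂μ ≤ 1 + ∫ a, Y a ^ 2 ∂μ := by
    have e1 : ∫ a, Real.exp (Y a) ∂μ ≤ ∫ a, ((1 + Y a) + Y a ^ 2) ∂μ := by
      refine integral_mono iE (((integrable_const 1).add iY).add iY2) fun a => ?_
      have := (abs_le.1 (Real.abs_exp_sub_one_sub_id_le (hb a))).2
      show Real.exp (Y a) ≤ (1 + Y a) + Y a ^ 2
      linarith
    have i1 : Integrable (fun a => 1 + Y a) μ := (integrable_const 1).add iY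
    rw [integral_add i1 iY2, integral_add (integrable_const 1) iY, h0] at e1
    simpa using e1
  have h4 : 0 ≤ ∫ a, Real.exp (Y a) ∂μ := integral_nonneg fun a => (Real.exp_pos _).le
  obtain ⟨q, hq⟩ : ∃ q, q = ∫ a, Y a ^ 2 ∂μ := ⟨_, rfl⟩
  rw [← hq] at h2 h3
  calc (∫ a, Real.exp (Y a) ∂μ) ^ K ≤ (1 + q) ^ K := by gcongr
    _ ≤ (Real.exp q) ^ K := by
        have : 0 ≤ q := by
          rw [hq]
          exact integral_nonneg fun a => sq_nonneg _
        have h5 := Real.add_one_le_exp q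
        gcongr
        linarith
    _ = Real.exp (K * q) := by rw [← Real.exp_nat_mul]
    _ ≤ Real.exp 1 := Real.exp_le_exp.2 h2

theorem sum_meas (Y : ℝ → ℝ) (hY : Measurable Y) :
    Measurable fun v : Fin K → ℝ => ∑ j, Y (v j) :=
  Finset.measurable_fun_sum _ fun j _ => hY.comp (measurable_pi_apply j)

theorem sum_bd (Y : ℝ → ℝ) (M : ℝ) (hb : ∀ a, |Y a| ≤ M) (v : Fin K → ℝ) :
    |∑ j, Y (v j)| ≤ K * M := by
  refine (Finset.abs_sum_le_sum_abs _ _).trans ((Finset.sum_le_sum fun j _ => hb (v j)).trans ?_)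
  rw [Finset.sum_const, Finset.card_univ, Fintype.card_fin, nsmul_eq_mul]

/-- the eighth moment of a centered sum -/
theorem eighth (Y : ℝ → ℝ) (hY : Measurable Y) (hb : ∀ a, |Y a| ≤ 1) (h0 : ∫ a, Y a ∂μ = 0)
    (h2 : K * ∫ a, Y a ^ 2 ∂μ ≤ 1) : ∫ v, (∑ j, Y (v j)) ^ 8 ∂(Qk K μ) ≤ 220000 := by
  have e1 := exp_sum_le (K := K) μ Y hY hb h0 h2
  have e2 := exp_sum_le (K := K) μ (fun a => -Y a) hY.neg (fun a => by rw [abs_neg]; exact hb a)
    (by rw [integral_neg, h0, neg_zero]) (by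
      simp only [neg_sq]
      exact h2)
  have hm := sum_meas (K := K) Y hY
  have hbd := sum_bd (K := K) Y 1 hb
  have i1 : Integrable (fun v : Fin K → ℝ => Real.exp (∑ j, Y (v j))) (Qk K μ) := by
    refine bintr hm.exp (M := Real.exp (K * 1)) fun v => ?_
    rw [abs_of_pos (Real.exp_pos _)]
    exact Real.exp_le_exp.2 ((le_abs_self _).trans (hbd v))
  have i2 : Integrable (fun v : Fin K → ℝ => Real.exp (∑ j, -Y (v j))) (Qk K μ) := by
    refine bintr (sum_meas (fun a => -Y a) hY.neg).exp (M := Real.exp (K * 1)) fun v => ?_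
    rw [abs_of_pos (Real.exp_pos _), Finset.sum_neg_distrib]
    exact Real.exp_le_exp.2 ((neg_le_abs _).trans (hbd v))
  have i3 : Integrable (fun v : Fin K → ℝ => (∑ j, Y (v j)) ^ 8) (Qk K μ) := by
    refine bintr (hm.pow_const 8) (M := (K * 1) ^ 8) fun v => ?_
    rw [abs_pow]
    have := hbd v
    gcongr
  have h3 : ∀ a : ℝ, a ^ 8 ≤ 40320 * (Real.exp a + Real.exp (-a)) := by
    intro a
    have k1 := Real.pow_div_factorial_le_exp |a| (abs_nonneg a) 8
    have k2 : |a| ^ 8 = a ^ 8 := by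
      rw [← abs_pow, abs_of_nonneg (by positivity)]
    have k3 : ((Nat.factorial 8 : ℕ) : ℝ) = 40320 := by
      norm_num [Nat.factorial]
    rw [k2, k3, div_le_iff₀ (by norm_num)] at k1
    have k4 : Real.exp |a| ≤ Real.exp a + Real.exp (-a) := by
      rcases abs_cases a with ⟨h, _⟩ | ⟨h, _⟩
      · rw [h]
        have := Real.exp_pos (-a)
        linarith
      · rw [h]
        have := Real.exp_pos a
        linarith
    linarith
  have h4 : ∫ v, (∑ j, Y (v j)) ^ 8 ∂(Qk K μ) ≤ ∫ v : Fin K → ℝ,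
      40320 * (Real.exp (∑ j, Y (v j)) + Real.exp (∑ j, -Y (v j))) ∂(Qk K μ) := by
    refine integral_mono i3 ((i1.add i2).const_mul _) fun v => ?_
    have := h3 (∑ j, Y (v j))
    show (∑ j, Y (v j)) ^ 8 ≤ 40320 * (Real.exp (∑ j, Y (v j)) + Real.exp (∑ j, -Y (v j)))
    rw [Finset.sum_neg_distrib]
    exact this
  rw [integral_const_mul, integral_add i1 i2] at h4
  have h5 : Real.exp 1 < 2.7182818286 := Real.exp_one_lt_d9
  linarith

/-- the Laplace transform -/
theorem lap (g : ℝ → ℝ) (t : ℝ) : ∫ v, Real.exp (-(t * ∑ j, g (v j))) ∂(Qk K μ) =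
    (∫ a, Real.exp (-(t * g a)) ∂μ) ^ K := by
  rw [← exp_prod μ fun a => -(t * g a)]
  congr 1
  funext v
  rw [Finset.sum_neg_distrib, Finset.mul_sum]

theorem pow_exp_le {a b : ℝ} (ha : 0 ≤ a) (h : a ≤ 1 - b) (K : ℕ) : a ^ K ≤ Real.exp (-(K * b)) := by
  have h1 : a ≤ Real.exp (-b) := by
    have := Real.add_one_le_exp (-b)
    linarith
  calc a ^ K ≤ Real.exp (-b) ^ K := by gcongr
    _ = _ := by
      rw [← Real.exp_nat_mul]
      congr 1
      ring

end gen

section inv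

/-- a pointwise bound of the inverse fourth power -/
theorem inv_four (y Γ S : ℝ) (hy : 0 < y) (hΓ : 0 < Γ) (hS : 0 < S) (n : ℕ)
    (hn : 1 ≤ 2 * y * 4 ^ n * S) : (S⁻¹) ^ 4 ≤ 1296 * (Γ⁻¹) ^ 4 +
      16 * y ^ 4 * Real.exp (y * Γ / 3) * Real.exp (-(2 * y * S)) +
      ∑ k ∈ Finset.range n, 4096 * y ^ 4 * 256 ^ k *
        (Real.exp 1 * Real.exp (-(2 * y * 4 ^ k * S))) := by
  induction n with
  | zero =>
    rw [Finset.range_zero, Finset.sum_empty, add_zero]
    have h1 : 0 ≤ 16 * y ^ 4 * Real.exp (y * Γ / 3) * Real.exp (-(2 * y * S)) := by positivity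
    have h2 : 0 ≤ 1296 * (Γ⁻¹) ^ 4 := by positivity
    rw [pow_zero, mul_one] at hn
    rcases le_or_gt S (Γ / 6) with h | h
    · have h3 : S⁻¹ ≤ 2 * y := by
        rw [inv_le_iff_one_le_mul₀ hS]
        exact hn
      have h4 : (S⁻¹) ^ 4 ≤ 16 * y ^ 4 := by
        calc (S⁻¹) ^ 4 ≤ (2 * y) ^ 4 := by gcongr
          _ = _ := by ring
      have h5 : 1 ≤ Real.exp (y * Γ / 3) * Real.exp (-(2 * y * S)) := by
        rw [← Real.exp_add]
        apply Real.one_le_exp
        have : 2 * y * S ≤ 2 * y * (Γ / 6) := by gcongr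
        linarith
      have h6 : 16 * y ^ 4 * 1 ≤ 16 * y ^ 4 * (Real.exp (y * Γ / 3) * Real.exp (-(2 * y * S))) := by
        gcongr
      rw [← mul_assoc] at h6
      linarith
    · have h3 : S⁻¹ ≤ 6 * Γ⁻¹ := by
        rw [inv_le_comm₀ hS (by positivity), mul_inv, inv_inv]
        linarith
      have h4 : (S⁻¹) ^ 4 ≤ 1296 * (Γ⁻¹) ^ 4 := by
        calc (S⁻¹) ^ 4 ≤ (6 * Γ⁻¹) ^ 4 := by gcongr
          _ = _ := by ring
      linarith
  | succ n ih =>
    rw [Finset.sum_range_succ]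
    have h0 : 0 ≤ 4096 * y ^ 4 * 256 ^ n * (Real.exp 1 * Real.exp (-(2 * y * 4 ^ n * S))) := by
      positivity
    rcases le_or_gt 1 (2 * y * 4 ^ n * S) with h | h
    · have := ih h
      linarith
    · have h1 : 0 ≤ 16 * y ^ 4 * Real.exp (y * Γ / 3) * Real.exp (-(2 * y * S)) := by positivity
      have h2 : 0 ≤ 1296 * (Γ⁻¹) ^ 4 := by positivity
      have h3 : 0 ≤ ∑ k ∈ Finset.range n, 4096 * y ^ 4 * 256 ^ k *
          (Real.exp 1 * Real.exp (-(2 * y * 4 ^ k * S))) :=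
        Finset.sum_nonneg fun k _ => by positivity
      have h4 : S⁻¹ ≤ 8 * y * 4 ^ n := by
        rw [inv_le_iff_one_le_mul₀ hS]
        refine hn.trans (le_of_eq ?_)
        ring
      have h5 : (S⁻¹) ^ 4 ≤ 4096 * y ^ 4 * 256 ^ n := by
        calc (S⁻¹) ^ 4 ≤ (8 * y * 4 ^ n) ^ 4 := by gcongr
          _ = 4096 * y ^ 4 * (4 ^ n) ^ 4 := by ring
          _ = _ := by
            rw [← pow_mul, mul_comm n 4, pow_mul]
            norm_num
      have h6 : 1 ≤ Real.exp 1 * Real.exp (-(2 * y * 4 ^ n * S)) := by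
        rw [← Real.exp_add]
        apply Real.one_le_exp
        linarith
      have h7 : 4096 * y ^ 4 * 256 ^ n * 1 ≤ 4096 * y ^ 4 * 256 ^ n *
          (Real.exp 1 * Real.exp (-(2 * y * 4 ^ n * S))) := by gcongr
      linarith

end inv

end Pool.Agent.Helper32.SD
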