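import Pool.Agent.Helper32.SD.Lap

/-! The tilt. -/

set_option autoImplicit false
set_option linter.unusedSectionVars false
set_option linter.unusedSimpArgs false
set_option linter.unusedVariables false

open scoped BigOperators Topology ENNReal
open MeasureTheory Filter

namespace Pool.Agent.Helper32.SD

open Pool.Agent.Y662.TR (clp clp_abs clp_eq clp_cont)
open Pool.Agent.Helper32.BS (bint bintr)

theorem center {K : ℕ} (μ : Measure ℝ) [IsProbabilityMeasure μ] (Y : ℝ → ℝ) (hY : Measurable Y)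
    (hb : ∀ a, |Y a| ≤ 1 / 2) (m : ℝ) (hm : ∫ a, Y a ∂μ = m) (h2 : K * ∫ a, Y a ^ 2 ∂μ ≤ 1) :
    ∫ v, (∑ j : Fin K, (Y (v j) - m)) ^ 8 ∂(Qk K μ) ≤ 220000 := by
  have iY : Integrable Y μ := bintr hY hb
  have iY2 : Integrable (fun a => Y a ^ 2) μ := by
    refine bintr (hY.pow_const 2) (M := 1) fun a => ?_
    rw [abs_of_nonneg (sq_nonneg _), ← sq_abs]
    have := hb a
    have := abs_nonneg (Y a)
    nlinarith
  have hm' : |m| ≤ 1 / 2 := by
    rw [← hm, ← Real.norm_eq_abs]
    have := norm_integral_le_of_norm_le_const (μ := μ) (f := Y) (C := 1 / 2)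
      (Eventually.of_forall fun a => hb a)
    simpa using this
  refine eighth μ (fun a => Y a - m) (hY.sub_const m) (fun a => ?_) ?_ ?_
  · have := abs_sub (Y a) m
    have := hb a
    linarith
  · rw [integral_sub iY (integrable_const m), hm]
    simp
  · refine le_trans ?_ h2
    have e1 : ∫ a, (Y a - m) ^ 2 ∂μ = ∫ a, Y a ^ 2 ∂μ - m ^ 2 := by
      have e2 : (fun a => (Y a - m) ^ 2) = fun a => (Y a ^ 2 - 2 * m * Y a) + m ^ 2 := by
        funext a
        ring
      have i1 : Integrable (fun a => 2 * m * Y a) μ := iY.const_mul _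
      have i2 : Integrable (fun a => Y a ^ 2 - 2 * m * Y a) μ := iY2.sub i1
      rw [e2, integral_add i2 (integrable_const _), integral_sub iY2 i1, integral_const_mul, hm]
      simp
      ring
    rw [e1]
    have : 0 ≤ m ^ 2 := sq_nonneg m
    gcongr
    linarith

section

variable {K : ℕ} {c : ℝ} (hc : 0 < c) (z s : ℂ) (hz : 0 < z.im) (hs : 0 < s.im)
  (hK : (0 : ℝ) < K) (hf : Ph (unif c) (clp c) K z s = s)

/-- the reference point at one site -/
noncomputable def rv (K : ℕ) (c : ℝ) (z s : ℂ) (v : Fin K → ℝ) : ℂ :=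
  ((∑ j, gr (clp c) z s (v j)) - s) / (s.im : ℂ)

include hc hz hs hK hf

theorem sv_int : s.im = K * ∫ v, sv c (z + s).re (z + s).im v ∂(unif c) := by
  have h1 := fp_im hc hK z s hz hs hf
  have h2 : ∀ v, sv c (z + s).re (z + s).im v = (z + s).im * ‖gr (clp c) z s v‖ ^ 2 := by
    intro v
    rw [gr_nsq]
    rfl
  simp only [h2, integral_const_mul]
  exact h1

theorem kam : K * am (unif c) (clp c) z s ≤ 1 := by
  have h1 := fp_im hc hK z s hz hs hf
  have h2 : (0 : ℝ) < (z + s).im := by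
    rw [Complex.add_im]
    linarith
  have h3 : (z + s).im * (K * am (unif c) (clp c) z s) ≤ (z + s).im * 1 := by
    have e1 : (z + s).im * (K * am (unif c) (clp c) z s) = s.im := by
      calc (z + s).im * (K * am (unif c) (clp c) z s) =
          K * ((z + s).im * am (unif c) (clp c) z s) := by ring
        _ = s.im := h1.symm
    rw [e1, Complex.add_im]
    linarith
  exact le_of_mul_le_mul_left h3 h2

theorem int_gr : ∫ v, gr (clp c) z s v ∂(unif c) = s / (K : ℂ) := by
  have h1 := hf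
  unfold Ph at h1
  have h2 : (K : ℂ) ≠ 0 := by
    have : (K : ℝ) ≠ 0 := hK.ne'
    exact_mod_cast this
  rw [eq_div_iff h2, mul_comm]
  exact_mod_cast h1

theorem sum_sv (v : Fin K → ℝ) : (∑ j, gr (clp c) z s (v j)).im =
    ∑ j, sv c (z + s).re (z + s).im (v j) := by
  rw [Complex.im_sum]
  refine Finset.sum_congr rfl fun j _ => ?_
  rw [gr_im_eq (clp c) z hz s hs.le, gr_nsq]
  unfold sv
  simp only [Complex.add_im]

theorem rv_one (v : Fin K → ℝ) : 1 + (rv K c z s v).im =
    (∑ j, sv c (z + s).re (z + s).im (v j)) / s.im := by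
  unfold rv
  rw [Complex.div_ofReal_im, Complex.sub_im, sum_sv hc z s hz hs hK hf]
  field_simp
  ring

/-- the eighth moment of the fluctuation -/
theorem r_eight (hy : 2 ≤ (z + s).im) :
    ∫ v : Fin K → ℝ, ‖(∑ j, gr (clp c) z s (v j)) - s‖ ^ 8 ∂(Qk K (unif c)) ≤ 3600000 := by
  have := unif_prob hc
  have hgm : Measurable (gr (clp c) z s) := gr_meas (clp c) (clp_cont c).measurable z s
  have hgb : ∀ a, ‖gr (clp c) z s a‖ ≤ 1 / 2 := by
    intro a
    refine (gr_norm (clp c) z hz s hs.le a).trans ?_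
    rw [one_div]
    rw [Complex.add_im] at hy
    exact inv_anti₀ (by norm_num) hy
  have hgi := gr_int (unif c) (clp c) (clp_cont c).measurable z hz s hs.le
  have hg2 := gr_sq_int (unif c) (clp c) (clp_cont c).measurable z hz s hs.le
  have hint := int_gr hc z s hz hs hK hf
  have hkam := kam hc z s hz hs hK hf
  have hre : ∫ v, (gr (clp c) z s v).re ∂(unif c) = (s / (K : ℂ)).re := by
    rw [← hint]
    exact integral_re (𝕜 := ℂ) hgi
  have him : ∫ v, (gr (clp c) z s v).im ∂(unif c) = (s / (K : ℂ)).im := by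
    rw [← hint]
    exact integral_im (𝕜 := ℂ) hgi
  have h1 := center (K := K) (unif c) (fun v => (gr (clp c) z s v).re)
    (Complex.measurable_re.comp hgm) (fun a => (Complex.abs_re_le_norm _).trans (hgb a)) _ hre (by
      refine le_trans ?_ hkam
      unfold am
      refine mul_le_mul_of_nonneg_left (integral_mono ?_ hg2 fun v => ?_) hK.le
      · refine bintr ((Complex.measurable_re.comp hgm).pow_const 2) (M := 1) fun a => ?_
        rw [abs_of_nonneg (sq_nonneg _), ← sq_abs]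
        have e1 := (Complex.abs_re_le_norm _).trans (hgb a)
        have := abs_nonneg (gr (clp c) z s a).re
        nlinarith
      · show (gr (clp c) z s v).re ^ 2 ≤ ‖gr (clp c) z s v‖ ^ 2
        rw [← sq_abs]
        have := Complex.abs_re_le_norm (gr (clp c) z s v)
        gcongr)
  have h2 := center (K := K) (unif c) (fun v => (gr (clp c) z s v).im)
    (Complex.measurable_im.comp hgm) (fun a => (Complex.abs_im_le_norm _).trans (hgb a)) _ him (by
      refine le_trans ?_ hkam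
      unfold am
      refine mul_le_mul_of_nonneg_left (integral_mono ?_ hg2 fun v => ?_) hK.le
      · refine bintr ((Complex.measurable_im.comp hgm).pow_const 2) (M := 1) fun a => ?_
        rw [abs_of_nonneg (sq_nonneg _), ← sq_abs]
        have e1 := (Complex.abs_im_le_norm _).trans (hgb a)
        have := abs_nonneg (gr (clp c) z s a).im
        nlinarith
      · show (gr (clp c) z s v).im ^ 2 ≤ ‖gr (clp c) z s v‖ ^ 2
        rw [← sq_abs]
        have := Complex.abs_im_le_norm (gr (clp c) z s v)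
        gcongr)
  have hKc : (K : ℂ) ≠ 0 := by
    have : (K : ℝ) ≠ 0 := hK.ne'
    exact_mod_cast this
  have hcoord : ∀ v : Fin K → ℝ, (∑ j, gr (clp c) z s (v j)) - s =
      ∑ j, (gr (clp c) z s (v j) - s / (K : ℂ)) := by
    intro v
    rw [Finset.sum_sub_distrib, Finset.sum_const, Finset.card_univ, Fintype.card_fin,
      nsmul_eq_mul, mul_div_cancel₀ _ hKc]
  have hpt : ∀ v : Fin K → ℝ, ‖(∑ j, gr (clp c) z s (v j)) - s‖ ^ 8 ≤
      8 * ((∑ j : Fin K, ((gr (clp c) z s (v j)).re - (s / (K : ℂ)).re)) ^ 8 +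
        (∑ j : Fin K, ((gr (clp c) z s (v j)).im - (s / (K : ℂ)).im)) ^ 8) := by
    intro v
    rw [hcoord]
    obtain ⟨w, hw⟩ : ∃ w, w = ∑ j, (gr (clp c) z s (v j) - s / (K : ℂ)) := ⟨_, rfl⟩
    have e1 : ∑ j : Fin K, ((gr (clp c) z s (v j)).re - (s / (K : ℂ)).re) = w.re := by
      rw [hw, Complex.re_sum]
      rfl
    have e2 : ∑ j : Fin K, ((gr (clp c) z s (v j)).im - (s / (K : ℂ)).im) = w.im := by
      rw [hw, Complex.im_sum]
      rfl
    rw [e1, e2, ← hw]
    have e3 : ‖w‖ ^ 8 = (w.re ^ 2 + w.im ^ 2) ^ 4 := by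
      have : ‖w‖ ^ 2 = w.re ^ 2 + w.im ^ 2 := by
        rw [← Complex.normSq_eq_norm_sq, Complex.normSq_apply]
        ring
      rw [← this]
      ring
    rw [e3]
    have e4 := add_pow_le (sq_nonneg w.re) (sq_nonneg w.im) 4
    have e5 : (2 : ℝ) ^ (4 - 1) = 8 := by norm_num
    rw [e5] at e4
    refine e4.trans (le_of_eq ?_)
    ring
  have hgb1 : ∀ a, ‖gr (clp c) z s a - s / (K : ℂ)‖ ≤ 1 := by
    intro a
    have e1 : ‖s / (K : ℂ)‖ ≤ 1 / 2 := by
      rw [← hint]
      have := norm_integral_le_of_norm_le_const (μ := unif c) (f := gr (clp c) z s) (C := 1 / 2)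
        (Eventually.of_forall fun a => hgb a)
      simpa using this
    have := norm_sub_le (gr (clp c) z s a) (s / (K : ℂ))
    have := hgb a
    linarith
  have hb1 : ∀ v : Fin K → ℝ, ‖(∑ j, gr (clp c) z s (v j)) - s‖ ≤ K := by
    intro v
    rw [hcoord]
    refine (norm_sum_le _ _).trans ((Finset.sum_le_sum fun j _ => hgb1 (v j)).trans ?_)
    simp
  have hm0 : Measurable fun v : Fin K → ℝ => (∑ j, gr (clp c) z s (v j)) - s :=
    (Finset.measurable_fun_sum _ fun j _ => hgm.comp (measurable_pi_apply j)).sub_const s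
  have i0 : Integrable (fun v : Fin K → ℝ => ‖(∑ j, gr (clp c) z s (v j)) - s‖ ^ 8)
      (Qk K (unif c)) := by
    refine bintr (hm0.norm.pow_const 8) (M := K ^ 8) fun v => ?_
    rw [abs_of_nonneg (by positivity)]
    have := hb1 v
    gcongr
  have i1 : Integrable (fun v : Fin K → ℝ => (∑ j : Fin K, ((gr (clp c) z s (v j)).re -
      (s / (K : ℂ)).re)) ^ 8) (Qk K (unif c)) := by
    refine bintr ((Finset.measurable_fun_sum _ fun j _ => ((Complex.measurable_re.comp hgm).comp
      (measurable_pi_apply j)).sub_const _).pow_const 8) (M := K ^ 8) fun v => ?_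
    rw [abs_pow]
    have e1 : |∑ j : Fin K, ((gr (clp c) z s (v j)).re - (s / (K : ℂ)).re)| ≤ K := by
      refine le_trans ?_ (hb1 v)
      rw [hcoord]
      have := Complex.abs_re_le_norm (∑ j, (gr (clp c) z s (v j) - s / (K : ℂ)))
      rw [Complex.re_sum] at this
      exact this
    gcongr
  have i2 : Integrable (fun v : Fin K → ℝ => (∑ j : Fin K, ((gr (clp c) z s (v j)).im -
      (s / (K : ℂ)).im)) ^ 8) (Qk K (unif c)) := by
    refine bintr ((Finset.measurable_fun_sum _ fun j _ => ((Complex.measurable_im.comp hgm).comp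
      (measurable_pi_apply j)).sub_const _).pow_const 8) (M := K ^ 8) fun v => ?_
    rw [abs_pow]
    have e1 : |∑ j : Fin K, ((gr (clp c) z s (v j)).im - (s / (K : ℂ)).im)| ≤ K := by
      refine le_trans ?_ (hb1 v)
      rw [hcoord]
      have := Complex.abs_im_le_norm (∑ j, (gr (clp c) z s (v j) - s / (K : ℂ)))
      rw [Complex.im_sum] at this
      exact this
    gcongr
  have h3 : ∫ v : Fin K → ℝ, ‖(∑ j, gr (clp c) z s (v j)) - s‖ ^ 8 ∂(Qk K (unif c)) ≤
      ∫ v : Fin K → ℝ, 8 * ((∑ j : Fin K, ((gr (clp c) z s (v j)).re - (s / (K : ℂ)).re)) ^ 8 +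
        (∑ j : Fin K, ((gr (clp c) z s (v j)).im - (s / (K : ℂ)).im)) ^ 8) ∂(Qk K (unif c)) :=
    integral_mono i0 ((i1.add i2).const_mul _) hpt
  rw [integral_const_mul, integral_add i1 i2] at h3
  linarith

/-- **the tilt** -/
theorem tilt (hΓ : 10 ^ 8 ≤ s.im)
    (hst : 2 * (z + s).im < |(z + s).re| + c → |(z + s).re| ≤ c ∧ (z + s).im < c) :
    Integrable (fun v : Fin K → ℝ => (‖rv K c z s v‖ ^ 2 / (1 + (rv K c z s v).im)) ^ 2)
      (Qk K (unif c)) ∧
    ∫ v : Fin K → ℝ, (‖rv K c z s v‖ ^ 2 / (1 + (rv K c z s v).im)) ^ 2 ∂(Qk K (unif c)) ≤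
      2 * 10 ^ 6 * (s.im⁻¹) ^ 4 := by
  have := unif_prob hc
  have hF := fp_fact hc hK z s hz hs hf
  have hI := sv_int hc z s hz hs hK hf
  have hgm : Measurable (gr (clp c) z s) := gr_meas (clp c) (clp_cont c).measurable z s
  have hsm := sv_meas (c := c) (x := (z + s).re) (y := (z + s).im)
  have hy : 2 ≤ (z + s).im := by
    rw [Complex.add_im]
    linarith
  have hy0 : 0 < (z + s).im := by linarith
  have h8 := r_eight hc z s hz hs hK hf hy
  have h4 := s_four hF hc hI hΓ hst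
  have hSpos : ∀ v : Fin K → ℝ, 0 < ∑ j, sv c (z + s).re (z + s).im (v j) := by
    intro v
    have hKn : 0 < K := by exact_mod_cast hK
    exact Finset.sum_pos (fun j _ => sv_pos hy0 _) ⟨⟨0, hKn⟩, Finset.mem_univ _⟩
  obtain ⟨low, hlow⟩ : ∃ low, low = (z + s).im * ((|(z + s).re| + c) ^ 2 + (z + s).im ^ 2)⁻¹ :=
    ⟨_, rfl⟩
  have hlow0 : 0 < low := by
    rw [hlow]
    positivity
  have hSlow : ∀ v : Fin K → ℝ, K * low ≤ ∑ j, sv c (z + s).re (z + s).im (v j) := by
    intro v
    have : ∑ _j : Fin K, low ≤ ∑ j, sv c (z + s).re (z + s).im (v j) :=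
      Finset.sum_le_sum fun j _ => by
        rw [hlow]
        exact sv_low hc hy0 _
    rwa [Finset.sum_const, Finset.card_univ, Fintype.card_fin, nsmul_eq_mul] at this
  have hgb : ∀ a, ‖gr (clp c) z s a‖ ≤ 1 := by
    intro a
    refine (gr_norm (clp c) z hz s hs.le a).trans ?_
    rw [Complex.add_im] at hy
    apply inv_le_one_of_one_le₀
    linarith
  have hRb : ∀ v : Fin K → ℝ, ‖(∑ j, gr (clp c) z s (v j)) - s‖ ≤ K + ‖s‖ := by
    intro v
    refine (norm_sub_le _ _).trans ?_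
    have : ‖∑ j, gr (clp c) z s (v j)‖ ≤ K := by
      refine (norm_sum_le _ _).trans ((Finset.sum_le_sum fun j _ => hgb (v j)).trans ?_)
      simp
    linarith
  have hm0 : Measurable fun v : Fin K → ℝ => (∑ j, gr (clp c) z s (v j)) - s :=
    (Finset.measurable_fun_sum _ fun j _ => hgm.comp (measurable_pi_apply j)).sub_const s
  have hSm : Measurable fun v : Fin K → ℝ => ∑ j, sv c (z + s).re (z + s).im (v j) :=
    sum_meas _ hsm
  have i8 : Integrable (fun v : Fin K → ℝ => ‖(∑ j, gr (clp c) z s (v j)) - s‖ ^ 8)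
      (Qk K (unif c)) := by
    refine bintr (hm0.norm.pow_const 8) (M := (K + ‖s‖) ^ 8) fun v => ?_
    rw [abs_of_nonneg (by positivity)]
    have := hRb v
    gcongr
  have i4 : Integrable (fun v : Fin K → ℝ => ((∑ j, sv c (z + s).re (z + s).im (v j))⁻¹) ^ 4)
      (Qk K (unif c)) := by
    refine bintr (hSm.inv.pow_const 4) (M := ((K * low)⁻¹) ^ 4) fun v => ?_
    have := hSpos v
    rw [abs_of_nonneg (by positivity)]
    have := hSlow v
    gcongr
  have hpt : ∀ v : Fin K → ℝ, (‖rv K c z s v‖ ^ 2 / (1 + (rv K c z s v).im)) ^ 2 ≤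
      1 / 2 * ((s.im⁻¹) ^ 4 * ‖(∑ j, gr (clp c) z s (v j)) - s‖ ^ 8 +
        ((∑ j, sv c (z + s).re (z + s).im (v j))⁻¹) ^ 4) := by
    intro v
    rw [rv_one hc z s hz hs hK hf]
    have e1 : ‖rv K c z s v‖ = ‖(∑ j, gr (clp c) z s (v j)) - s‖ / s.im := by
      unfold rv
      rw [norm_div, Complex.norm_real, Real.norm_of_nonneg hs.le]
    rw [e1]
    obtain ⟨a, ha⟩ : ∃ a, a = ‖(∑ j, gr (clp c) z s (v j)) - s‖ := ⟨_, rfl⟩
    obtain ⟨S, hS⟩ : ∃ S, S = ∑ j, sv c (z + s).re (z + s).im (v j) := ⟨_, rfl⟩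
    have hS0 : 0 < S := by
      rw [hS]
      exact hSpos v
    rw [← ha, ← hS]
    have e2 : ((a / s.im) ^ 2 / (S / s.im)) ^ 2 = ((s.im⁻¹) ^ 2 * a ^ 4) * (S⁻¹) ^ 2 := by
      field_simp
    rw [e2]
    nlinarith [sq_nonneg ((s.im⁻¹) ^ 2 * a ^ 4 - (S⁻¹) ^ 2)]
  have hti : Integrable (fun v : Fin K → ℝ => (‖rv K c z s v‖ ^ 2 /
      (1 + (rv K c z s v).im)) ^ 2) (Qk K (unif c)) := by
    refine Integrable.mono' (((i8.const_mul ((s.im⁻¹) ^ 4)).add i4).const_mul (1 / 2)) ?_ ?_
    · have hrm : Measurable (rv K c z s) := hm0.div_const _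
      exact (((hrm.norm.pow_const 2).div
        ((Complex.measurable_im.comp hrm).const_add 1)).pow_const 2).aestronglyMeasurable
    · refine Eventually.of_forall fun v => ?_
      rw [Real.norm_of_nonneg (by positivity)]
      exact hpt v
  refine ⟨hti, ?_⟩
  have h5 := integral_mono hti (((i8.const_mul ((s.im⁻¹) ^ 4)).add i4).const_mul (1 / 2)) hpt
  have h6 : ∫ v : Fin K → ℝ, 1 / 2 * ((s.im⁻¹) ^ 4 * ‖(∑ j, gr (clp c) z s (v j)) - s‖ ^ 8 +
      ((∑ j, sv c (z + s).re (z + s).im (v j))⁻¹) ^ 4) ∂(Qk K (unif c)) ≤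
      1 / 2 * ((s.im⁻¹) ^ 4 * 3600000 + 1300 * (s.im⁻¹) ^ 4) := by
    rw [integral_const_mul, integral_add (i8.const_mul _) i4, integral_const_mul]
    gcongr
  have h7 : 0 < (s.im⁻¹) ^ 4 := by positivity
  refine h5.trans (h6.trans ?_)
  linarith

end

end Pool.Agent.Helper32.SD
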