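import Pool.Agent.Helper32.SD.Fin
import Pool.Agent.Helper32.SD.Tilt

/-! The hopping matrix, the spectral gap, and the independence. -/

set_option autoImplicit false
set_option linter.unusedSectionVars false
set_option linter.unusedSimpArgs false
set_option linter.unusedVariables false

open scoped BigOperators Matrix ComplexOrder MatrixOrder Topology
open Matrix MeasureTheory ProbabilityTheory Filter

namespace Pool.Agent.Helper32.SD

open Pool.Agent.Helper32.BS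
open Pool.Agent.Y662.TR (clp clp_abs clp_eq clp_cont)

section hop

variable {d : ℕ} {S : Type} [AddGroup S] [Fintype S] [DecidableEq S]

/-- the hopping matrix -/
noncomputable def Bm (e : Fin d → S) : Matrix S S ℂ := -∑ i, (Rt (e i) + (Rt (e i))ᴴ)

theorem am_bm (e : Fin d → S) (a : ℝ) : Am e a = (a : ℂ) • 1 + Bm e := by
  rw [am_rt, Bm, sub_eq_add_neg]

theorem bm_herm (e : Fin d → S) : (Bm e)ᴴ = Bm e := by
  unfold Bm
  rw [conjTranspose_neg, conjTranspose_sum]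
  congr 1
  refine Finset.sum_congr rfl fun i _ => ?_
  rw [conjTranspose_add, conjTranspose_conjTranspose, add_comm]

theorem bm_left (e : Fin d → S) (X : Matrix S S ℂ) : hs (Bm e * X) ≤ 4 * (d : ℝ) ^ 2 * hs X := by
  unfold Bm
  rw [Matrix.neg_mul, hs_neg, Finset.sum_mul]
  refine (hs_sum_le _ _).trans ?_
  have h1 : ∀ i, hs ((Rt (e i) + (Rt (e i))ᴴ) * X) ≤ 4 * hs X := by
    intro i
    rw [Matrix.add_mul]
    refine (hs_add _ _).trans ?_
    rw [hs_umul _ _ (rt_unit _), hs_umul' _ _ (rt_unit _)]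
    linarith
  have h2 : ∑ i, hs ((Rt (e i) + (Rt (e i))ᴴ) * X) ≤ d * (4 * hs X) := by
    refine (Finset.sum_le_sum fun i _ => h1 i).trans ?_
    rw [Finset.sum_const, Finset.card_univ, Fintype.card_fin, nsmul_eq_mul]
  rw [Finset.card_univ, Fintype.card_fin]
  calc (d : ℝ) * ∑ i, hs ((Rt (e i) + (Rt (e i))ᴴ) * X) ≤ d * (d * (4 * hs X)) := by gcongr
    _ = _ := by ring

theorem bm_right (e : Fin d → S) (X : Matrix S S ℂ) : hs (X * Bm e) ≤ 4 * (d : ℝ) ^ 2 * hs X := by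
  rw [← hs_conj, conjTranspose_mul, bm_herm, ← hs_conj X]
  exact bm_left e _

theorem bm_con (e : Fin d → S) (D : ℝ) (hD : (d : ℝ) ≤ D) (hD0 : 0 < D) (X : Matrix S S ℂ) :
    hs ((((1 / (2 * D) : ℝ) : ℂ) • Bm e) * X * (((1 / (2 * D) : ℝ) : ℂ) • Bm e)) ≤ hs X := by
  rw [Matrix.mul_smul, Matrix.smul_mul, Matrix.smul_mul, smul_smul, hs_smul, norm_mul,
    Complex.norm_real, Real.norm_of_nonneg (by positivity)]
  have h1 := bm_right e (Bm e * X)
  have h2 := bm_left e X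
  have h3 := hs_nonneg X
  have hd : (0 : ℝ) ≤ d := Nat.cast_nonneg _
  have h4 : hs (Bm e * X * Bm e) ≤ 4 * (d : ℝ) ^ 2 * (4 * (d : ℝ) ^ 2 * hs X) :=
    h1.trans (by gcongr)
  calc (1 / (2 * D) * (1 / (2 * D))) ^ 2 * hs (Bm e * X * Bm e) ≤
      (1 / (2 * D) * (1 / (2 * D))) ^ 2 * (4 * (d : ℝ) ^ 2 * (4 * (d : ℝ) ^ 2 * hs X)) := by gcongr
    _ = ((d : ℝ) / D) ^ 4 * hs X := by
        field_simp
        ring
    _ ≤ 1 ^ 4 * hs X := by
        have : (d : ℝ) / D ≤ 1 := by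
          rw [div_le_one hD0]
          exact hD
        gcongr
    _ = hs X := by ring

theorem bm_w (e : Fin d → S) (u : S → ℂ) (M : ℝ) (hu : ∀ x, ‖u x‖ ≤ M) (X : Matrix S S ℂ) :
    hs ((Bm e + diagonal u)ᴴ * X * (Bm e + diagonal u)) ≤
      (8 * (d : ℝ) ^ 2 + 2 * M ^ 2) ^ 2 * hs X := by
  have h0 : ∀ (w : S → ℂ) (hw : ∀ x, ‖w x‖ ≤ M) (Z : Matrix S S ℂ),
      hs ((Bm e + diagonal w) * Z) ≤ (8 * (d : ℝ) ^ 2 + 2 * M ^ 2) * hs Z := by
    intro w hw Z
    rw [Matrix.add_mul]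
    refine (hs_add _ _).trans ?_
    have h1 := bm_left e Z
    have h2 := hs_diag w M hw Z
    linarith
  have h1 : (Bm e + diagonal u)ᴴ = Bm e + diagonal (star u) := by
    rw [conjTranspose_add, bm_herm, diagonal_conjTranspose]
  have h2 : hs ((Bm e + diagonal u)ᴴ * X * (Bm e + diagonal u)) ≤
      (8 * (d : ℝ) ^ 2 + 2 * M ^ 2) * hs ((Bm e + diagonal u)ᴴ * X) := by
    rw [← hs_conj, conjTranspose_mul, ← hs_conj ((Bm e + diagonal u)ᴴ * X)]
    rw [h1]
    exact h0 _ (fun x => by rw [Pi.star_apply, norm_star]; exact hu x) _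
  have h3 : hs ((Bm e + diagonal u)ᴴ * X) ≤ (8 * (d : ℝ) ^ 2 + 2 * M ^ 2) * hs X := by
    rw [h1]
    exact h0 _ (fun x => by rw [Pi.star_apply, norm_star]; exact hu x) _
  calc hs ((Bm e + diagonal u)ᴴ * X * (Bm e + diagonal u)) ≤
      (8 * (d : ℝ) ^ 2 + 2 * M ^ 2) * hs ((Bm e + diagonal u)ᴴ * X) := h2
    _ ≤ (8 * (d : ℝ) ^ 2 + 2 * M ^ 2) * ((8 * (d : ℝ) ^ 2 + 2 * M ^ 2) * hs X) := by gcongr
    _ = _ := by ring

end hop

section gap

theorem one_sub_norm {u : ℂ} (hu : u.re ≤ 0) : 1 ≤ ‖1 - u‖ := by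
  have h1 := Complex.abs_re_le_norm (1 - u)
  have h2 := le_abs_self (1 - u).re
  rw [Complex.sub_re, Complex.one_re] at h1 h2
  linarith

variable {K c : ℝ} (hc : 0 < c) (hK : 0 < K) (z s : ℂ) (hz : 0 < z.im) (hs : 0 < s.im)
  (hf : Ph (unif c) (clp c) K z s = s)

include hc hK hz hs in
theorem gap_sq (hx : (z + s).re ^ 2 ≤ c ^ 2 + (z + s).im ^ 2) :
    1 ≤ ‖1 - (K : ℂ) * ∫ v, gr (clp c) z s v * gr (clp c) z s v ∂(unif c)‖ := by
  apply one_sub_norm
  have hy : 0 < (z + s).im := by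
    rw [Complex.add_im]
    linarith
  have h1 : ∫ v, gr (clp c) z s v * gr (clp c) z s v ∂(unif c) =
      (((z + s) ^ 2 - (c : ℂ) ^ 2))⁻¹ := by
    have e1 : ∀ v, gr (clp c) z s v * gr (clp c) z s v = (((clp c v : ℝ) : ℂ) - (z + s))⁻¹ ^ 2 := by
      intro v
      unfold gr
      rw [sq, ← sub_sub]
    simp only [e1]
    rw [clp_int hc fun a : ℝ => ((a : ℂ) - (z + s))⁻¹ ^ 2, int_sq _ hy, Complex.real_smul]
    push_cast
    have hcc : (c : ℂ) ≠ 0 := by exact_mod_cast hc.ne'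
    field_simp
  rw [h1]
  obtain ⟨w, hw⟩ : ∃ w, w = (z + s) ^ 2 - (c : ℂ) ^ 2 := ⟨_, rfl⟩
  rw [← hw, Complex.re_ofReal_mul, Complex.inv_re]
  have h2 : w.re ≤ 0 := by
    rw [hw]
    have e1 : ((z + s) ^ 2 - (c : ℂ) ^ 2).re = (z + s).re ^ 2 - (z + s).im ^ 2 - c ^ 2 := by
      rw [Complex.sub_re, sq (z + s), Complex.mul_re, ← Complex.ofReal_pow, Complex.ofReal_re]
      ring
    rw [e1]
    linarith
  exact mul_nonpos_of_nonneg_of_nonpos hK.le
    (div_nonpos_of_nonpos_of_nonneg h2 (Complex.normSq_nonneg _))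

include hc hK hz hs hf in
theorem gap_ne (hR : |s.re| ≤ s.im) :
    1 ≤ ‖1 - (K : ℂ) * ((∫ v, gr (clp c) z s v ∂(unif c)) * ∫ v, gr (clp c) z s v ∂(unif c))‖ := by
  apply one_sub_norm
  have hKc : (K : ℂ) ≠ 0 := by exact_mod_cast hK.ne'
  have h1 : ∫ v, gr (clp c) z s v ∂(unif c) = s / (K : ℂ) := by
    have h1 := hf
    unfold Ph at h1
    rw [eq_div_iff hKc, mul_comm]
    exact h1
  rw [h1]
  have h2 : (K : ℂ) * (s / (K : ℂ) * (s / (K : ℂ))) = (s * s) / (K : ℂ) := by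
    field_simp
  rw [h2, Complex.div_ofReal_re, Complex.mul_re]
  apply div_nonpos_of_nonpos_of_nonneg _ hK.le
  have h3 : s.re ^ 2 ≤ s.im ^ 2 := by
    rw [← sq_abs s.re]
    gcongr
  nlinarith

end gap

section prob

/-- disjoint parts of an iid environment are independent -/
theorem pi_indep' {ι κ κ' : Type} (μ : Measure ℝ) [IsProbabilityMeasure μ] (f : κ → ι)
    (g : κ' → ι) (hfg : ∀ x y, f x ≠ g y) : IndepFun (fun (ω : ι → ℝ) (x : κ) => ω (f x))
      (fun (ω : ι → ℝ) (y : κ') => ω (g y)) (Measure.infinitePi fun _ : ι => μ) := by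
  have h1 := iIndepFun_infinitePi (P := fun _ : ι => μ) (X := fun _ : ι => (id : ℝ → ℝ))
    (fun _ => measurable_id)
  have h2 := h1.iIndep
  have h3 := indep_iSup_of_disjoint (S := Set.range f) (T := Set.range g)
    (fun i => (measurable_id.comp (measurable_pi_apply i)).comap_le) h2 (by
      rw [Set.disjoint_left]
      rintro w ⟨x, rfl⟩ ⟨y, hy⟩
      exact hfg x y hy.symm)
  have h4 : ∀ (κ'' : Type) (k : κ'' → ι), MeasurableSpace.comap
      (fun (ω : ι → ℝ) (x : κ'') => ω (k x))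
      MeasurableSpace.pi ≤ ⨆ i ∈ Set.range k, MeasurableSpace.comap (fun ω : ι → ℝ => id (ω i))
        inferInstance := by
    intro κ'' k
    unfold MeasurableSpace.pi
    rw [MeasurableSpace.comap_iSup]
    refine iSup_le fun x => ?_
    rw [MeasurableSpace.comap_comp]
    exact le_iSup₂_of_le (k x) ⟨x, rfl⟩ le_rfl
  exact indep_of_indep_of_le_left (indep_of_indep_of_le_right h3 (h4 _ g)) (h4 _ f)

theorem ev_int {ι : Type} {E : Type} [NormedAddCommGroup E] [NormedSpace ℝ E] (μ : Measure ℝ)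
    [IsProbabilityMeasure μ] (i : ι) (f : ℝ → E) (hf : AEStronglyMeasurable f μ) :
    ∫ ω : ι → ℝ, f (ω i) ∂(Measure.infinitePi fun _ : ι => μ) = ∫ v, f v ∂μ := by
  have h1 := measurePreserving_eval_infinitePi (fun _ : ι => μ) i
  have h2 := integral_map (μ := Measure.infinitePi fun _ : ι => μ) (φ := Function.eval i)
    h1.measurable.aemeasurable (f := f) (by rw [h1.map_eq]; exact hf)
  rw [h1.map_eq] at h2
  exact h2.symm

theorem two_int {ι : Type} (μ : Measure ℝ) [IsProbabilityMeasure μ] (i j : ι) (hij : i ≠ j)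
    (f : ℝ → ℂ) (hf : Measurable f) :
    ∫ ω : ι → ℝ, f (ω i) * f (ω j) ∂(Measure.infinitePi fun _ : ι => μ) =
      (∫ v, f v ∂μ) * ∫ v, f v ∂μ := by
  have h1 := pi_indep' μ (fun _ : Unit => i) (fun _ : Unit => j) (fun _ _ => hij)
  have m1 : ∀ k : ι, Measurable fun (ω : ι → ℝ) (_ : Unit) => ω k := fun k =>
    measurable_pi_lambda _ fun _ => measurable_pi_apply k
  have h2 := h1.integral_fun_comp_mul_comp (f := fun v : Unit → ℝ => f (v ()))
    (g := fun v : Unit → ℝ => f (v ())) (m1 i).aemeasurable (m1 j).aemeasurable (by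
      exact (hf.comp (measurable_pi_apply ())).aestronglyMeasurable) (by
      exact (hf.comp (measurable_pi_apply ())).aestronglyMeasurable)
  rw [h2, ev_int μ i f hf.aestronglyMeasurable, ev_int μ j f hf.aestronglyMeasurable]

theorem kap_mp {ι : Type} {K : ℕ} (μ : Measure ℝ) [IsProbabilityMeasure μ] (f : Fin K → ι)
    (hf : Function.Injective f) : MeasurePreserving (fun (ω : ι → ℝ) (x : Fin K) => ω (f x))
      (Measure.infinitePi fun _ : ι => μ) (Qk K μ) := by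
  have h1 := pi_mp μ f hf
  rw [Measure.infinitePi_eq_pi (μ := fun _ : Fin K => μ)] at h1
  exact h1

end prob

end Pool.Agent.Helper32.SD
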