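import Pool.Agent.Helper32.SD.Ham

/-! The moment bound of the rooted tree times a finite group, for strong disorder. -/

set_option autoImplicit false
set_option linter.unusedSectionVars false
set_option linter.unusedSimpArgs false
set_option linter.unusedVariables false

open scoped BigOperators Matrix ComplexOrder MatrixOrder Topology
open Matrix MeasureTheory ProbabilityTheory Filter

namespace Pool.Agent.Helper32.SD

open Pool.Agent.Helper32.BS hiding Ph
open Pool.Agent.Y662.TR (clp clp_abs clp_eq clp_cont)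

section cont

variable {S Ω : Type} [Fintype S] [DecidableEq S] [TopologicalSpace Ω]

theorem cont_dz {F : Ω → Matrix S S ℂ} (hF : Continuous F) (hp : ∀ ω, (Imm (F ω)).PosDef) :
    Continuous fun ω => Dz (F ω) := by
  unfold Dz
  exact ((cont_yy hF).matrix_mul (cont_inv (cont_imm hF) hp)).matrix_mul
    (cont_yy hF).matrix_conjTranspose

theorem cont_pt {F : Ω → Matrix S S ℂ} (hF : Continuous F) (ε : ℝ) (V : Matrix S S ℂ) :
    Continuous fun ω => pt ε V (F ω) := by
  unfold pt
  exact hF.sub continuous_const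

end cont

variable {K d : ℕ} {S : Type} [AddGroup S] [Fintype S] [DecidableEq S]

/-- the scalar resolvents of the root level -/
noncomputable def ph (K : ℕ) (S : Type) (c : ℝ) (z s : ℂ) (ω : List (Fin K) × S → ℝ) (x : S) : ℂ :=
  gr (clp c) z s (ω ([], x))

/-- the reference point -/
noncomputable def rh (K : ℕ) (S : Type) (s : ℂ) (f : Fin K → S → ℂ) (x : S) : ℂ :=
  ((∑ j, f j x) - s) / (s.im : ℂ)

/-- the normalized sum of the Green matrices of the children, as a function of their
environments -/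
noncomputable def fh (e : Fin d → S) (a c : ℝ) (z s : ℂ)
    (ρ : Fin K × (List (Fin K) × S) → ℝ) : Matrix S S ℂ :=
  (s.im : ℂ)⁻¹ • ((∑ j, Gh K e a 1 1 c z (fun v => ρ (j, v))) - (s.re : ℂ) • 1)

/-- the environments below the root -/
def below (K : ℕ) (S : Type) (ω : List (Fin K) × S → ℝ) (p : Fin K × (List (Fin K) × S)) : ℝ :=
  ω (p.2.1 ++ [p.1], p.2.2)

noncomputable def Fh (e : Fin d → S) (a c : ℝ) (z s : ℂ) (ω : List (Fin K) × S → ℝ) :
    Matrix S S ℂ :=
  (s.im : ℂ)⁻¹ • ((∑ j, Gh K e a 1 1 c z (tau K S j ω)) - (s.re : ℂ) • 1)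

theorem Fh_eq (e : Fin d → S) (a c : ℝ) (z s : ℂ) (ω : List (Fin K) × S → ℝ) :
    Fh e a c z s ω = fh e a c z s (below K S ω) := rfl

variable (e : Fin d → S) (a c : ℝ) (z s : ℂ) (hz : 0 < z.im) (hs : 0 < s.im)

include hz in
theorem fh_cont : Continuous (fh (K := K) e a c z s) := by
  unfold fh
  refine Continuous.const_smul (M := ℂ) (Continuous.sub (continuous_finsetSum _ fun j _ => ?_)
    continuous_const) ((s.im : ℂ)⁻¹)
  have h1 : Continuous fun (ρ : Fin K × (List (Fin K) × S) → ℝ) (v : List (Fin K) × S) =>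
      ρ (j, v) := continuous_pi fun v => continuous_apply _
  exact (gh_cont (K := K) e a 1 1 c z hz).comp h1

theorem below_cont : Continuous (below K S) := continuous_pi fun p => continuous_apply _

include hz in
theorem Fh_cont : Continuous (Fh (K := K) e a c z s) := by
  have : Fh (K := K) e a c z s = fh e a c z s ∘ below K S := rfl
  rw [this]
  exact (fh_cont e a c z s hz).comp below_cont

theorem imm_lin (Γ R : ℝ) (G : Fin K → Matrix S S ℂ) :
    Imm ((Γ : ℂ)⁻¹ • ((∑ j, G j) - (R : ℂ) • 1)) = (Γ : ℂ)⁻¹ • ∑ j, Imm (G j) := by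
  unfold Imm
  rw [conjTranspose_smul, conjTranspose_sub, conjTranspose_smul, conjTranspose_one,
    conjTranspose_sum, RCLike.star_def, map_inv₀, Complex.conj_ofReal,
    Complex.conj_ofReal, ← Finset.smul_sum, Finset.sum_sub_distrib]
  module

include hz hs in
theorem fh_pos (hK : K ≠ 0) (ρ : Fin K × (List (Fin K) × S) → ℝ) :
    (Imm (fh e a c z s ρ)).PosDef := by
  unfold fh
  rw [imm_lin]
  have h1 : (0 : ℂ) < (s.im : ℂ)⁻¹ := by
    have : (0 : ℝ) < s.im⁻¹ := by positivity
    exact_mod_cast this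
  refine PosDef.smul (posDef_sum ⟨⟨0, Nat.pos_of_ne_zero hK⟩, Finset.mem_univ _⟩ fun j _ => ?_) h1
  exact gm_pos _ z (Th_sa _ _ _ _ _) hz

include hz hs in
theorem Fh_pos (hK : K ≠ 0) (ω : List (Fin K) × S → ℝ) : (Imm (Fh e a c z s ω)).PosDef :=
  fh_pos e a c z s hz hs hK (below K S ω)

theorem Fh_clp (ω : List (Fin K) × S → ℝ) :
    Fh e a c z s (fun v => clp c (ω v)) = Fh e a c z s ω := by
  unfold Fh
  congr 2
  refine Finset.sum_congr rfl fun j _ => ?_
  exact gh_clp e a 1 1 c z (tau K S j ω)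

theorem fh_bd {f : (List (Fin K) × S → ℝ) → ℝ} (hf : Continuous f)
    (hc : ∀ ω, f (fun v => clp c (ω v)) = f ω) : ∃ M, ∀ ω, |f ω| ≤ M := by
  obtain ⟨M, hM⟩ := (isCompact_univ_pi fun _ : List (Fin K) × S =>
    isCompact_Icc (a := -|c|) (b := |c|)).exists_bound_of_continuousOn hf.continuousOn
  refine ⟨M, fun ω => ?_⟩
  have h1 := hM (fun v => clp c (ω v)) (fun v _ => abs_le.1 (clp_abs c (ω v)))
  rw [hc] at h1
  exact h1

theorem ph_meas : Measurable (ph K S c z s) := by
  refine measurable_pi_lambda _ fun x => ?_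
  exact (gr_meas (clp c) (clp_cont c).measurable z s).comp (measurable_pi_apply _)

theorem rh_meas : Measurable (rh K S s) := by
  refine measurable_pi_lambda _ fun x => ?_
  unfold rh
  refine (Measurable.sub_const (Finset.measurable_fun_sum _ fun j _ => ?_) s).div_const _
  exact (measurable_pi_apply x).comp (measurable_pi_apply j)

/-- the children of the root -/
def kids (K : ℕ) (S : Type) (ω : List (Fin K) × S → ℝ) (p : Fin K × S) : ℝ := ω ([p.1], p.2)

theorem ind_one {E : Type} [MeasurableSpace E] (f : (Fin K × (List (Fin K) × S) → ℝ) → E)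
    (hf : Measurable f) (μ : Measure ℝ) [IsProbabilityMeasure μ] :
    IndepFun (ph K S c z s) (fun ω => f (below K S ω)) (BS.Ph K S μ) := by
  have h1 := pi_indep' μ (fun x : S => (([], x) : List (Fin K) × S))
    (fun p : Fin K × (List (Fin K) × S) => (p.2.1 ++ [p.1], p.2.2)) (by
      intro x p h
      have := congrArg Prod.fst h
      simp at this)
  have h2 : Measurable fun (v : S → ℝ) (x : S) => gr (clp c) z s (v x) :=
    measurable_pi_lambda _ fun x => (gr_meas (clp c) (clp_cont c).measurable z s).comp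
      (measurable_pi_apply x)
  exact h1.comp h2 hf

theorem ind_two {E : Type} [MeasurableSpace E] (f : (Fin K × (List (Fin K) × S) → ℝ) → E)
    (hf : Measurable f) (μ : Measure ℝ) [IsProbabilityMeasure μ] (j : Fin K) :
    IndepFun (fam (tau K S) (ph K S c z s)) (fun ω => f (below K S (tau K S j ω)))
      (BS.Ph K S μ) := by
  have h1 := pi_indep' μ (fun p : Fin K × S => (([p.1], p.2) : List (Fin K) × S))
    (fun p : Fin K × (List (Fin K) × S) => ((p.2.1 ++ [p.1]) ++ [j], p.2.2)) (by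
      intro x p h
      have := congrArg List.length (congrArg Prod.fst h)
      simp at this)
  have h2 : Measurable fun (v : Fin K × S → ℝ) (j : Fin K) (x : S) =>
      gr (clp c) z s (v (j, x)) :=
    measurable_pi_lambda _ fun j => measurable_pi_lambda _ fun x =>
      (gr_meas (clp c) (clp_cont c).measurable z s).comp (measurable_pi_apply (j, x))
  exact h1.comp h2 hf

section main

variable (hc : 0 < c) (D : ℝ) (hD : D = d + 1) (hK : 10 ^ 17 * D * (c + D) ≤ K)
  (hz1 : z.im ≤ 1) (hE : |z.re - a| ≤ (c + Real.sqrt K) / 20)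
  (hf : SD.Ph (unif c) (clp c) K (z - a) s = s)

include hz hs hc hD hK hz1 hE hf

/-- the recursion around the random reference point -/
theorem the_dt : ∃ M : ℝ, Dt (BS.Ph K S (unif c)) K (z.im / s.im) (2 * D / s.im) ((s.im⁻¹) ^ 2)
    (2 * 10 ^ 6 * (s.im⁻¹) ^ 4) M 1 (tau K S) (ph K S c (z - a) s) (rh K S s)
    (((1 / (2 * D) : ℝ) : ℂ) • Bm e) (Fh e a c z s) (Gh K e a 1 1 c z) := by
  have hpr := unif_prob hc
  have hd0 : (0 : ℝ) ≤ d := Nat.cast_nonneg _
  have hD1 : 1 ≤ D := by linarith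
  have hD0 : 0 < D := by linarith
  have hKp : (0 : ℝ) < K := lt_of_lt_of_le (by positivity) hK
  have hKn : K ≠ 0 := by
    have : 0 < K := by exact_mod_cast hKp
    omega
  have hzi : (z - (a : ℂ)).im = z.im := by simp
  have hzr : (z - (a : ℂ)).re = z.re - a := by simp
  have hz' : 0 < (z - (a : ℂ)).im := by rw [hzi]; exact hz
  have hF := fp_fact hc hKp (z - (a : ℂ)) s hz' hs hf
  have hE' : |(z - (a : ℂ)).re| ≤ (c + Real.sqrt K) / 20 := by rw [hzr]; exact hE
  have hη' : (z - (a : ℂ)).im ≤ 1 := by rw [hzi]; exact hz1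
  have hlow := hF.Γlow hc hη' hD1 hK hE'
  have hΓ8 : 10 ^ 8 ≤ s.im := by
    refine le_trans ?_ hlow
    linarith
  have hxsq := hF.xsq hc hη' hD1 hK hE'
  have hstr := hF.str hc hη' hD1 hK hE'
  have hR := hF.Rle hc hη' hD1 hK hE'
  have hyΓ : ((z - (a : ℂ)) + s).im = z.im + s.im := by rw [Complex.add_im, hzi]
  have hy2 : 2 ≤ ((z - (a : ℂ)) + s).im := by
    rw [hyΓ]
    linarith
  have hkam := kam hc (z - (a : ℂ)) s hz' hs hKp hf
  have htilt := tilt hc (z - (a : ℂ)) s hz' hs hKp hf hΓ8 hstr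
  obtain ⟨V, hV⟩ : ∃ V : Matrix S S ℂ, V = ((1 / (2 * D) : ℝ) : ℂ) • Bm e := ⟨_, rfl⟩
  obtain ⟨ε, hε⟩ : ∃ ε : ℝ, ε = 2 * D / s.im := ⟨_, rfl⟩
  have hVh : Vᴴ = V := by
    rw [hV, conjTranspose_smul, bm_herm, RCLike.star_def, Complex.conj_ofReal]
  have hB : (s.im : ℂ) • (ε : ℂ) • V = Bm e := by
    rw [hV, hε, smul_smul, smul_smul]
    have : (s.im : ℂ) * ((2 * D / s.im : ℝ) : ℂ) * ((1 / (2 * D) : ℝ) : ℂ) = 1 := by
      rw [← Complex.ofReal_mul, ← Complex.ofReal_mul]
      have : s.im * (2 * D / s.im) * (1 / (2 * D)) = 1 := by field_simp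
      rw [this, Complex.ofReal_one]
    rw [this, one_smul]
  have hFc := Fh_cont (K := K) e a c z s hz
  have hFp := Fh_pos (K := K) e a c z s hz hs hKn
  have hfc := fh_cont (K := K) e a c z s hz
  have hfp := fh_pos (K := K) e a c z s hz hs hKn
  have hFtc := cont_pt hFc ε V
  have hFtp : ∀ ω, (Imm (pt ε V (Fh (K := K) e a c z s ω))).PosDef := fun ω => by
    rw [imm_pt _ _ _ hVh]
    exact hFp ω
  have hftc := cont_pt hfc ε V
  have hftp : ∀ ρ, (Imm (pt ε V (fh (K := K) e a c z s ρ))).PosDef := fun ρ => by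
    rw [imm_pt _ _ _ hVh]
    exact hfp ρ
  obtain ⟨M1, hM1⟩ := fh_bd (K := K) (S := S) c (cont_hs (cont_dp hFc hFp))
    (fun ω => by rw [Fh_clp])
  obtain ⟨M2, hM2⟩ := fh_bd (K := K) (S := S) c (cont_hs (cont_dp hFtc hFtp))
    (fun ω => by rw [Fh_clp])
  have hgrm : Measurable (gr (clp c) (z - (a : ℂ)) s) :=
    gr_meas (clp c) (clp_cont c).measurable (z - (a : ℂ)) s
  have hgrb : ∀ v, ‖gr (clp c) (z - (a : ℂ)) s v‖ ≤ s.im⁻¹ := by
    intro v
    refine (gr_norm (clp c) (z - (a : ℂ)) hz' s hs.le v).trans ?_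
    rw [hzi]
    exact inv_anti₀ hs (by linarith)
  have hΓi : s.im⁻¹ ≤ 1 / 10 ^ 8 := by
    rw [one_div]
    exact inv_anti₀ (by norm_num) hΓ8
  have hΓi0 : 0 < s.im⁻¹ := by positivity
  refine ⟨max M1 M2, ?_⟩
  rw [← hV, ← hε]
  refine
    { εpos := by rw [hε]; positivity
      εle := ?_
      δle := ?_
      Tle := ?_
      mp := fun i => pi_mp (unif c) _ (tm_inj (List.append_left_injective _))
      ind := fun i j hij => ?_
      step := fun ω => ?_
      ne := fun ω x => ?_
      B0 := zero_le_one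
      bφ := fun ω x => ?_
      mφ := ph_meas c _ s
      mρ := rh_meas s
      herm := hVh
      con := fun X => ?_
      pos := hFp
      ind1m := fun x y => ?_
      ind1z := fun x y => ?_
      ind1x := fun x y => ?_
      ind2m := fun j x y => ?_
      ind2z := fun j x y => ?_
      m2 := fun x => ?_
      m4 := fun x => ?_
      q := fun x y => ?_
      Ti := fun x => ?_
      Tm := fun x => ?_
      mDm := fun x y => ((cont_dm hFc hFp).matrix_elem x y).measurable
      mDz := fun x y => ((cont_dz hFc hFp).matrix_elem x y).measurable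
      mXx := fun x y => ((cont_xx hFc hFp).matrix_elem x y).measurable
      tDm := fun x y => ((cont_dm hFtc hFtp).matrix_elem x y).measurable
      tDz := fun x y => ((cont_dz hFtc hFtp).matrix_elem x y).measurable
      tXx := fun x y => ((cont_xx hFtc hFtp).matrix_elem x y).measurable
      bdd := fun ω => (le_abs_self _).trans ((hM1 ω).trans (le_max_left _ _))
      bdt := fun ω => (le_abs_self _).trans ((hM2 ω).trans (le_max_right _ _)) }
  · -- εle
    rw [hε, mul_div_assoc', div_le_one hs]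
    linarith
  · -- δle
    have : (s.im⁻¹) ^ 2 ≤ (1 / 10 ^ 8) ^ 2 := by gcongr
    norm_num at this ⊢
    linarith
  · -- Tle
    have : (s.im⁻¹) ^ 4 ≤ (1 / 10 ^ 8) ^ 4 := by gcongr
    norm_num at this ⊢
    linarith
  · -- ind
    refine pi_indep (unif c) _ _ ?_
    rintro ⟨l, x⟩ ⟨l', x'⟩ h
    unfold tm at h
    simp only [Prod.mk.injEq] at h
    have h1 := List.append_inj' h.1 rfl
    simp only [List.cons.injEq, and_true] at h1
    exact hij h1.2
  · -- step
    have h1 := sq_of (n := S) hKn (z := z - (a : ℂ)) (s := s) hzi rfl hz hs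
      (fun j x => clp c (tau K S j ω ([], x))) (fun j => Fh e a c z s (tau K S j ω))
      (fun j => Gh K e a 1 1 c z (tau K S j ω)) (fun j => hFp _) (Bm e) V ε hB hVh (fun j => by
        have h2 := gh_rec e a 1 1 c z hz (tau K S j ω)
        have h3 : (s.im : ℂ) • Fh e a c z s (tau K S j ω) =
            (∑ i, Gh K e a 1 1 c z (tau K S i (tau K S j ω))) - (s.re : ℂ) • 1 := by
          unfold Fh
          rw [smul_smul, mul_inv_cancel₀ (by exact_mod_cast hs.ne'), one_smul]
        refine Eq.trans ?_ h2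
        rw [h3, am_bm]
        congr 1
        have h4 : ((1 ^ 2 : ℝ) : ℂ) = 1 := by norm_num
        rw [h4, Complex.ofReal_one, one_smul, one_smul]
        module)
    exact h1
  · -- ne
    have := gr_pos (clp c) (z - (a : ℂ)) hz' s hs.le (ω ([], x))
    unfold ph
    exact norm_pos_iff.1 this
  · -- bφ
    unfold ph
    exact (hgrb _).trans (hΓi.trans (by norm_num))
  · -- con
    rw [hV]
    exact bm_con e D (by linarith) hD0 X
  · exact ind_one c (z - (a : ℂ)) s (fun ρ => Dm (pt ε V (fh e a c z s ρ)) x y)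
      ((cont_dm hftc hftp).matrix_elem x y).measurable (unif c)
  · exact ind_one c (z - (a : ℂ)) s (fun ρ => Dz (pt ε V (fh e a c z s ρ)) x y)
      ((cont_dz hftc hftp).matrix_elem x y).measurable (unif c)
  · exact ind_one c (z - (a : ℂ)) s (fun ρ => Xx (pt ε V (fh e a c z s ρ)) x y)
      ((cont_xx hftc hftp).matrix_elem x y).measurable (unif c)
  · exact ind_two c (z - (a : ℂ)) s (fun ρ => Dm (pt ε V (fh e a c z s ρ)) x y)
      ((cont_dm hftc hftp).matrix_elem x y).measurable (unif c) j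
  · exact ind_two c (z - (a : ℂ)) s (fun ρ => Dz (pt ε V (fh e a c z s ρ)) x y)
      ((cont_dz hftc hftp).matrix_elem x y).measurable (unif c) j
  · -- m2
    unfold ph BS.Ph
    rw [ev_int (unif c) (([], x) : List (Fin K) × S)
      (fun v => ‖gr (clp c) (z - (a : ℂ)) s v‖ ^ 2) (hgrm.norm.pow_const 2).aestronglyMeasurable]
    exact hkam
  · -- m4
    unfold ph BS.Ph
    rw [ev_int (unif c) (([], x) : List (Fin K) × S)
      (fun v => ‖gr (clp c) (z - (a : ℂ)) s v‖ ^ 4) (hgrm.norm.pow_const 4).aestronglyMeasurable]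
    have h2 := gr_sq_int (unif c) (clp c) (clp_cont c).measurable (z - (a : ℂ)) hz' s hs.le
    have h4 : Integrable (fun v => ‖gr (clp c) (z - (a : ℂ)) s v‖ ^ 4) (unif c) := by
      refine bintr (hgrm.norm.pow_const 4) (M := (s.im⁻¹) ^ 4) fun v => ?_
      rw [abs_of_nonneg (by positivity)]
      have := hgrb v
      gcongr
    have h5 : ∫ v, ‖gr (clp c) (z - (a : ℂ)) s v‖ ^ 4 ∂(unif c) ≤
        (s.im⁻¹) ^ 2 * am (unif c) (clp c) (z - (a : ℂ)) s := by
      unfold am
      rw [← integral_const_mul]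
      refine integral_mono h4 (h2.const_mul _) fun v => ?_
      show ‖gr (clp c) (z - (a : ℂ)) s v‖ ^ 4 ≤ (s.im⁻¹) ^ 2 * ‖gr (clp c) (z - (a : ℂ)) s v‖ ^ 2
      have := hgrb v
      calc ‖gr (clp c) (z - (a : ℂ)) s v‖ ^ 4 = ‖gr (clp c) (z - (a : ℂ)) s v‖ ^ 2 *
          ‖gr (clp c) (z - (a : ℂ)) s v‖ ^ 2 := by ring
        _ ≤ (s.im⁻¹) ^ 2 * ‖gr (clp c) (z - (a : ℂ)) s v‖ ^ 2 := by gcongr
    calc (K : ℝ) * ∫ v, ‖gr (clp c) (z - (a : ℂ)) s v‖ ^ 4 ∂(unif c) ≤
        K * ((s.im⁻¹) ^ 2 * am (unif c) (clp c) (z - (a : ℂ)) s) := by gcongr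
      _ = (s.im⁻¹) ^ 2 * (K * am (unif c) (clp c) (z - (a : ℂ)) s) := by ring
      _ ≤ (s.im⁻¹) ^ 2 * 1 := by gcongr
      _ = _ := mul_one _
  · -- q
    unfold ph BS.Ph
    by_cases hxy : x = y
    · subst hxy
      rw [ev_int (unif c) (([], x) : List (Fin K) × S)
        (fun v => gr (clp c) (z - (a : ℂ)) s v * gr (clp c) (z - (a : ℂ)) s v)
        (hgrm.mul hgrm).aestronglyMeasurable]
      have := gap_sq hc hKp (z - (a : ℂ)) s hz' hs hxsq
      exact_mod_cast this
    · rw [two_int (unif c) (([], x) : List (Fin K) × S) ([], y) (by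
        intro h
        simp only [Prod.mk.injEq, true_and] at h
        exact hxy h) _ hgrm]
      have := gap_ne hc hKp (z - (a : ℂ)) s hz' hs hf hR
      exact_mod_cast this
  · -- Ti
    have h1 := kap_mp (K := K) (unif c) (fun j : Fin K => (([j], x) : List (Fin K) × S)) (by
      intro i j h
      simpa using h)
    exact h1.integrable_comp_of_integrable htilt.1
  · -- Tm
    have h1 := kap_mp (K := K) (unif c) (fun j : Fin K => (([j], x) : List (Fin K) × S)) (by
      intro i j h
      simpa using h)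
    have h2 := integral_map (μ := BS.Ph K S (unif c)) h1.measurable.aemeasurable
      (f := fun v : Fin K → ℝ => (‖rv K c (z - (a : ℂ)) s v‖ ^ 2 /
        (1 + (rv K c (z - (a : ℂ)) s v).im)) ^ 2) (by
        rw [BS.Ph, h1.map_eq]
        exact htilt.1.aestronglyMeasurable)
    rw [BS.Ph, h1.map_eq] at h2
    have h3 := htilt.2
    rw [h2] at h3
    exact h3

end main

end Pool.Agent.Helper32.SD
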