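import Pool.Agent.Helper32.SD.Fluc

/-! The inverse moments of the imaginary part, and the tilt. -/

set_option autoImplicit false
set_option linter.unusedSectionVars false
set_option linter.unusedSimpArgs false
set_option linter.unusedVariables false

open scoped BigOperators Topology ENNReal
open MeasureTheory Filter

namespace Pool.Agent.Helper32.SD

open Pool.Agent.Y662.TR (clp clp_abs clp_eq clp_cont)
open Pool.Agent.Helper32.BS (bint bintr)

/-- the imaginary part -/
noncomputable def sv (c x y : ℝ) (v : ℝ) : ℝ := y * ((clp c v - x) ^ 2 + y ^ 2)⁻¹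

section

variable {c x y : ℝ}

theorem sv_pos (hy : 0 < y) (v : ℝ) : 0 < sv c x y v := by
  unfold sv
  positivity

theorem sv_le (hy : 0 < y) (v : ℝ) : y * sv c x y v ≤ 1 := by
  unfold sv
  have h1 : y * (y * ((clp c v - x) ^ 2 + y ^ 2)⁻¹) = y ^ 2 / ((clp c v - x) ^ 2 + y ^ 2) := by
    ring
  rw [h1, div_le_one (by positivity)]
  nlinarith [sq_nonneg (clp c v - x)]

theorem sv_meas : Measurable (sv c x y) := by
  unfold sv
  have := (clp_cont c).measurable
  fun_prop

theorem sv_low (hc : 0 < c) (hy : 0 < y) (v : ℝ) : y * ((|x| + c) ^ 2 + y ^ 2)⁻¹ ≤ sv c x y v := by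
  unfold sv
  have h3 : |clp c v - x| ≤ |x| + c := by
    have h4 := clp_abs c v
    rw [abs_of_pos hc] at h4
    have h5 := abs_sub (clp c v) x
    linarith
  have h6 : (clp c v - x) ^ 2 ≤ (|x| + c) ^ 2 := by
    rw [← sq_abs (clp c v - x)]
    gcongr
  gcongr

theorem exp_third {u : ℝ} (h0 : 0 ≤ u) (h2 : u ≤ 2) : Real.exp (-u) ≤ 1 - u / 3 := by
  have h1 := Real.add_one_le_exp u
  have h3 : Real.exp (-u) * Real.exp u = 1 := by
    rw [← Real.exp_add]
    simp
  have h4 := Real.exp_pos (-u)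
  have h5 : Real.exp (-u) * (u + 1) ≤ 1 :=
    (mul_le_mul_of_nonneg_left h1 h4.le).trans h3.le
  have h6 : 1 ≤ (1 - u / 3) * (u + 1) := by nlinarith
  have h7 : Real.exp (-u) * (u + 1) ≤ (1 - u / 3) * (u + 1) := h5.trans h6
  exact le_of_mul_le_mul_right h7 (by linarith)

end

section

variable {K : ℕ} {c E η R Γ x y : ℝ} (h : Fp K c E η R Γ x y) (hc : 0 < c)
  (hI : Γ = K * ∫ v, sv c x y v ∂(unif c))

include h hc hI

theorem Kpos' : (0 : ℝ) < K := by
  have h1 := h.H3
  have h2 := h.ypos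
  have h3 := h.Γpos
  have : 0 < Γ * y := by positivity
  linarith

theorem lap1 : (∫ v, Real.exp (-(2 * y * sv c x y v)) ∂(unif c)) ^ K ≤
    Real.exp (-(2 * y * Γ / 3)) := by
  have := unif_prob hc
  have hy := h.ypos
  have hK := Kpos' h hc hI
  have h0 : 0 ≤ ∫ v, Real.exp (-(2 * y * sv c x y v)) ∂(unif c) :=
    integral_nonneg fun v => (Real.exp_pos _).le
  have hsi : Integrable (sv c x y) (unif c) := by
    refine bintr sv_meas (M := y⁻¹) fun v => ?_
    rw [abs_of_pos (sv_pos hy v)]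
    have := sv_le (c := c) (x := x) hy v
    rw [le_inv_comm₀ (sv_pos hy v) hy, ← one_div, le_div_iff₀ (sv_pos hy v)]
    exact this
  have h1 : ∫ v, Real.exp (-(2 * y * sv c x y v)) ∂(unif c) ≤ 1 - 2 * y * (Γ / K) / 3 := by
    have e1 : ∫ v, Real.exp (-(2 * y * sv c x y v)) ∂(unif c) ≤
        ∫ v, (1 - 2 * y / 3 * sv c x y v) ∂(unif c) := by
      refine integral_mono ?_ ((integrable_const _).sub (hsi.const_mul _)) fun v => ?_
      · refine bintr ?_ (M := 1) fun v => ?_
        · have := sv_meas (c := c) (x := x) (y := y)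
          fun_prop
        · rw [abs_of_pos (Real.exp_pos _)]
          apply Real.exp_le_one_iff.2
          have := sv_pos (c := c) (x := x) hy v
          have : 0 ≤ 2 * y * sv c x y v := by positivity
          linarith
      · have e2 := exp_third (u := 2 * y * sv c x y v) (by
          have := sv_pos (c := c) (x := x) hy v
          positivity) (by
          have := sv_le (c := c) (x := x) hy v
          linarith)
        show Real.exp (-(2 * y * sv c x y v)) ≤ 1 - 2 * y / 3 * sv c x y v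
        linarith
    rw [integral_sub (integrable_const _) (hsi.const_mul _), integral_const_mul] at e1
    have e3 : ∫ v, sv c x y v ∂(unif c) = Γ / K := by
      rw [hI]
      field_simp
    rw [e3] at e1
    simp only [integral_const, probReal_univ, smul_eq_mul, mul_one] at e1
    linarith
  have h2 := pow_exp_le h0 h1 K
  have h3 : (K : ℝ) * (2 * y * (Γ / K) / 3) = 2 * y * Γ / 3 := by field_simp
  rw [h3] at h2
  exact h2

theorem lap2 (hx : |x| ≤ c) (k : ℕ) (hk : y * 2 ^ k ≤ c) :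
    (∫ v, Real.exp (-(2 * y * 4 ^ k * sv c x y v)) ∂(unif c)) ^ K ≤
      Real.exp (-(K * y / (4 * c) * 2 ^ k)) := by
  have := unif_prob hc
  have hy := h.ypos
  have hK := Kpos' h hc hI
  have h0 : 0 ≤ ∫ v, Real.exp (-(2 * y * 4 ^ k * sv c x y v)) ∂(unif c) :=
    integral_nonneg fun v => (Real.exp_pos _).le
  have hle : ∀ v, Real.exp (-(2 * y * 4 ^ k * sv c x y v)) ≤ 1 := by
    intro v
    apply Real.exp_le_one_iff.2
    have := sv_pos (c := c) (x := x) hy v
    have : 0 ≤ 2 * y * 4 ^ k * sv c x y v := by positivity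
    linarith
  have hei : Integrable (fun v => Real.exp (-(2 * y * 4 ^ k * sv c x y v))) (unif c) := by
    refine bintr ?_ (M := 1) fun v => ?_
    · have := sv_meas (c := c) (x := x) (y := y)
      fun_prop
    · rw [abs_of_pos (Real.exp_pos _)]
      exact hle v
  have h1 := unif_low hc x (y * 2 ^ k) hx (by positivity) hk
    (fun v => 1 - Real.exp (-(2 * y * 4 ^ k * sv c x y v))) ((integrable_const _).sub hei)
    (fun v => by have := hle v; linarith) (1 / 2) (by norm_num) (fun v hv hvx => by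
      have e1 : 1 ≤ 2 * y * 4 ^ k * sv c x y v := by
        unfold sv
        rw [clp_eq (hv.trans (le_abs_self c))]
        have e2 : (v - x) ^ 2 ≤ (y * 2 ^ k) ^ 2 := by
          rw [← sq_abs (v - x)]
          gcongr
        have e3 : (4 : ℝ) ^ k = (2 ^ k) ^ 2 := by
          rw [← pow_mul, mul_comm k 2, pow_mul]
          norm_num
        have e4 : 1 ≤ ((2 : ℝ) ^ k) ^ 2 := by
          have : (1 : ℝ) ≤ 2 ^ k := one_le_pow₀ (by norm_num)
          nlinarith
        have e5 : 2 * y * 4 ^ k * (y * ((v - x) ^ 2 + y ^ 2)⁻¹) =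
            (2 * y ^ 2 * 4 ^ k) / ((v - x) ^ 2 + y ^ 2) := by
          ring
        rw [e5, le_div_iff₀ (by positivity), e3]
        have e6 : y ^ 2 * 1 ≤ y ^ 2 * (2 ^ k) ^ 2 := by gcongr
        nlinarith
      have e2 : Real.exp (-(2 * y * 4 ^ k * sv c x y v)) ≤ Real.exp (-1) :=
        Real.exp_le_exp.2 (by linarith)
      have e3 : Real.exp (-1) ≤ 1 / 2 := by
        have e4 : (2 : ℝ) ≤ Real.exp 1 := by
          have := Real.add_one_le_exp (1 : ℝ)
          linarith
        rw [Real.exp_neg, one_div]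
        exact inv_anti₀ (by norm_num) e4
      show 1 / 2 ≤ 1 - Real.exp (-(2 * y * 4 ^ k * sv c x y v))
      linarith)
  rw [integral_sub (integrable_const _) hei] at h1
  simp only [integral_const, probReal_univ, smul_eq_mul, mul_one] at h1
  have h2 : ∫ v, Real.exp (-(2 * y * 4 ^ k * sv c x y v)) ∂(unif c) ≤
      1 - y / (4 * c) * 2 ^ k := by
    have : 1 / 2 * (y * 2 ^ k / (2 * c)) = y / (4 * c) * 2 ^ k := by
      field_simp
      norm_num
    linarith
  have h3 := pow_exp_le h0 h2 K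
  have h4 : (K : ℝ) * (y / (4 * c) * 2 ^ k) = K * y / (4 * c) * 2 ^ k := by ring
  rw [h4] at h3
  exact h3

variable (hΓ : 10 ^ 8 ≤ Γ) (hst : 2 * y < |x| + c → |x| ≤ c ∧ y < c)

include hΓ hst

/-- the inverse fourth moment -/
theorem s_four : ∫ v, ((∑ j, sv c x y (v j))⁻¹) ^ 4 ∂(Qk K (unif c)) ≤ 1300 * (Γ⁻¹) ^ 4 := by
  have := unif_prob hc
  have hy := h.ypos
  have hK := Kpos' h hc hI
  have hΓ0 : 0 < Γ := h.Γpos
  have hyΓ : Γ ≤ y := by
    have := h.ey
    have := h.ηpos
    linarith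
  have hKn : 0 < K := by exact_mod_cast hK
  obtain ⟨low, hlow⟩ : ∃ low, low = y * ((|x| + c) ^ 2 + y ^ 2)⁻¹ := ⟨_, rfl⟩
  have hlow0 : 0 < low := by
    rw [hlow]
    positivity
  have hSlow : ∀ v : Fin K → ℝ, K * low ≤ ∑ j, sv c x y (v j) := by
    intro v
    have : ∑ _j : Fin K, low ≤ ∑ j, sv c x y (v j) :=
      Finset.sum_le_sum fun j _ => by
        rw [hlow]
        exact sv_low hc hy _
    rwa [Finset.sum_const, Finset.card_univ, Fintype.card_fin, nsmul_eq_mul] at this
  have hSpos : ∀ v : Fin K → ℝ, 0 < ∑ j, sv c x y (v j) := fun v =>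
    lt_of_lt_of_le (by positivity) (hSlow v)
  have hSm : Measurable fun v : Fin K → ℝ => ∑ j, sv c x y (v j) := sum_meas _ sv_meas
  have hint : Integrable (fun v : Fin K → ℝ => ((∑ j, sv c x y (v j))⁻¹) ^ 4)
      (Qk K (unif c)) := by
    refine bintr (hSm.inv.pow_const 4) (M := ((K * low)⁻¹) ^ 4) fun v => ?_
    have := hSpos v
    rw [abs_of_nonneg (by positivity)]
    have := hSlow v
    gcongr
  have hΓ4 : 0 < (Γ⁻¹) ^ 4 := by positivity
  rcases le_or_gt (|x| + c) (2 * y) with hm | hm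
  · -- weak
    have h1 : ∀ v : Fin K → ℝ, ((∑ j, sv c x y (v j))⁻¹) ^ 4 ≤ 1300 * (Γ⁻¹) ^ 4 := by
      intro v
      have e1 : Γ / 5 ≤ K * low := by
        rw [hlow]
        have e2 : (5 * y)⁻¹ ≤ y * ((|x| + c) ^ 2 + y ^ 2)⁻¹ := by
          have e3 : y * ((|x| + c) ^ 2 + y ^ 2)⁻¹ = y / ((|x| + c) ^ 2 + y ^ 2) := by ring
          rw [e3, inv_eq_one_div, div_le_div_iff₀ (by positivity) (by positivity)]
          have e4 : (|x| + c) ^ 2 ≤ (2 * y) ^ 2 := by
            have := abs_nonneg x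
            gcongr
          nlinarith
        calc Γ / 5 = (Γ * y) * (5 * y)⁻¹ := by
              field_simp
          _ ≤ K * (5 * y)⁻¹ := by
              have := h.H3
              gcongr
          _ ≤ _ := by gcongr
      have e2 : Γ / 5 ≤ ∑ j, sv c x y (v j) := e1.trans (hSlow v)
      calc ((∑ j, sv c x y (v j))⁻¹) ^ 4 ≤ ((Γ / 5)⁻¹) ^ 4 := by
            have := hSpos v
            gcongr
        _ = 625 * (Γ⁻¹) ^ 4 := by
            rw [inv_div]
            ring
        _ ≤ 1300 * (Γ⁻¹) ^ 4 := by linarith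
    have h2 : ∫ v, ((∑ j, sv c x y (v j))⁻¹) ^ 4 ∂(Qk K (unif c)) ≤
        ∫ _v, 1300 * (Γ⁻¹) ^ 4 ∂(Qk K (unif c)) :=
      integral_mono hint (integrable_const _) h1
    simpa using h2
  · -- strong
    obtain ⟨hx, hyc⟩ := hst hm
    obtain ⟨n, hn1, hn2⟩ : ∃ n : ℕ, c < y * 2 ^ n ∧ ∀ k < n, y * 2 ^ k ≤ c := by
      have hex : ∃ n : ℕ, c < y * 2 ^ n := by
        obtain ⟨n, hn⟩ := pow_unbounded_of_one_lt (c / y) (one_lt_two)
        refine ⟨n, ?_⟩
        rw [div_lt_iff₀ hy] at hn
        linarith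
      refine ⟨Nat.find hex, Nat.find_spec hex, fun k hk => ?_⟩
      exact not_lt.1 (Nat.find_min hex hk)
    have hK3 : (3 : ℝ) ≤ K := by
      have h1 := h.H3
      have h2 : (10 : ℝ) ^ 8 * 10 ^ 8 ≤ Γ * y := by
        have := hΓ.trans hyΓ
        gcongr
      linarith
    have hnS : ∀ v : Fin K → ℝ, 1 ≤ 2 * y * 4 ^ n * ∑ j, sv c x y (v j) := by
      intro v
      have e1 : y / (5 * c ^ 2) ≤ low := by
        rw [hlow]
        have e3 : y * ((|x| + c) ^ 2 + y ^ 2)⁻¹ = y / ((|x| + c) ^ 2 + y ^ 2) := by ring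
        rw [e3]
        have e4 : (|x| + c) ^ 2 ≤ (2 * c) ^ 2 := by
          have := abs_nonneg x
          have : |x| + c ≤ 2 * c := by linarith
          gcongr
        have e5 : y ^ 2 ≤ c ^ 2 := by gcongr
        have e6 : (|x| + c) ^ 2 + y ^ 2 ≤ 5 * c ^ 2 := by linarith
        gcongr
      have e2 : 2 * y * 4 ^ n * (K * (y / (5 * c ^ 2))) ≤ 2 * y * 4 ^ n * ∑ j, sv c x y (v j) := by
        have := hSlow v
        have e7 : K * (y / (5 * c ^ 2)) ≤ K * low := by gcongr
        have e8 := e7.trans this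
        gcongr
      refine le_trans ?_ e2
      have e3 : (4 : ℝ) ^ n = (2 ^ n) ^ 2 := by
        rw [← pow_mul, mul_comm n 2, pow_mul]
        norm_num
      have e4 : 2 * y * 4 ^ n * (K * (y / (5 * c ^ 2))) = 2 / 5 * K * ((y * 2 ^ n) ^ 2 / c ^ 2) := by
        rw [e3]
        field_simp
      rw [e4]
      have e5 : 1 ≤ (y * 2 ^ n) ^ 2 / c ^ 2 := by
        rw [one_le_div (by positivity)]
        gcongr
      have e6 : 2 / 5 * 3 * 1 ≤ 2 / 5 * K * ((y * 2 ^ n) ^ 2 / c ^ 2) := by gcongr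
      linarith
    have hpt := fun v : Fin K → ℝ => inv_four y Γ (∑ j, sv c x y (v j)) hy hΓ0 (hSpos v) n (hnS v)
    have hexi : ∀ t : ℝ, 0 ≤ t → Integrable
        (fun v : Fin K → ℝ => Real.exp (-(t * ∑ j, sv c x y (v j)))) (Qk K (unif c)) := by
      intro t ht
      refine bintr (by fun_prop) (M := 1) fun v => ?_
      rw [abs_of_pos (Real.exp_pos _)]
      apply Real.exp_le_one_iff.2
      have := hSpos v
      have : 0 ≤ t * ∑ j, sv c x y (v j) := by positivity
      linarith
    have i1 : Integrable (fun v : Fin K → ℝ => 16 * y ^ 4 * Real.exp (y * Γ / 3) *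
        Real.exp (-(2 * y * ∑ j, sv c x y (v j)))) (Qk K (unif c)) :=
      (hexi (2 * y) (by positivity)).const_mul _
    have i2 : ∀ k ∈ Finset.range n, Integrable (fun v : Fin K → ℝ => 4096 * y ^ 4 * 256 ^ k *
        (Real.exp 1 * Real.exp (-(2 * y * 4 ^ k * ∑ j, sv c x y (v j))))) (Qk K (unif c)) :=
      fun k _ => ((hexi (2 * y * 4 ^ k) (by positivity)).const_mul _).const_mul _
    have h1 : ∫ v, ((∑ j, sv c x y (v j))⁻¹) ^ 4 ∂(Qk K (unif c)) ≤
        ∫ v : Fin K → ℝ, ((1296 * (Γ⁻¹) ^ 4 +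
      16 * y ^ 4 * Real.exp (y * Γ / 3) * Real.exp (-(2 * y * ∑ j, sv c x y (v j)))) +
      ∑ k ∈ Finset.range n, 4096 * y ^ 4 * 256 ^ k *
        (Real.exp 1 * Real.exp (-(2 * y * 4 ^ k * ∑ j, sv c x y (v j))))) ∂(Qk K (unif c)) :=
      integral_mono hint (((integrable_const _).add i1).add (integrable_finsetSum _ i2)) hpt
    have i3 : Integrable (fun v : Fin K → ℝ => 1296 * (Γ⁻¹) ^ 4 +
      16 * y ^ 4 * Real.exp (y * Γ / 3) * Real.exp (-(2 * y * ∑ j, sv c x y (v j))))
        (Qk K (unif c)) := (integrable_const _).add i1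
    rw [integral_add i3 (integrable_finsetSum _ i2), integral_add (integrable_const _) i1,
      integral_finsetSum _ i2, integral_const_mul] at h1
    simp only [integral_const_mul, lap, integral_const, probReal_univ, smul_eq_mul,
      one_mul] at h1
    have h2 : 16 * y ^ 4 * Real.exp (y * Γ / 3) *
        (∫ v, Real.exp (-(2 * y * sv c x y v)) ∂(unif c)) ^ K ≤ (Γ⁻¹) ^ 4 := by
      have e1 := lap1 h hc hI
      have e2 : 16 * y ^ 4 * Real.exp (y * Γ / 3) *
          (∫ v, Real.exp (-(2 * y * sv c x y v)) ∂(unif c)) ^ K ≤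
          16 * y ^ 4 * Real.exp (y * Γ / 3) * Real.exp (-(2 * y * Γ / 3)) := by gcongr
      refine e2.trans ?_
      rw [mul_assoc, ← Real.exp_add]
      have e3 : y * Γ / 3 + -(2 * y * Γ / 3) = -(y * Γ / 3) := by ring
      rw [e3]
      have e4 := Real.pow_div_factorial_le_exp (y * Γ / 3) (by positivity) 8
      have k3 : ((Nat.factorial 8 : ℕ) : ℝ) = 40320 := by
        norm_num [Nat.factorial]
      rw [k3] at e4
      have e5 : Real.exp (-(y * Γ / 3)) ≤ 40320 / (y * Γ / 3) ^ 8 := by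
        rw [Real.exp_neg, inv_le_comm₀ (Real.exp_pos _) (by positivity), inv_div]
        exact e4
      calc 16 * y ^ 4 * Real.exp (-(y * Γ / 3)) ≤ 16 * y ^ 4 * (40320 / (y * Γ / 3) ^ 8) := by gcongr
        _ = (16 * 40320 * 6561) / (y ^ 4 * Γ ^ 4) * (Γ⁻¹) ^ 4 := by
            field_simp
            norm_num
        _ ≤ 1 * (Γ⁻¹) ^ 4 := by
            gcongr
            rw [div_le_one (by positivity)]
            calc (16 * 40320 * 6561 : ℝ) ≤ (10 ^ 8) ^ 4 * (10 ^ 8) ^ 4 := by norm_num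
              _ ≤ y ^ 4 * Γ ^ 4 := by
                have := hΓ.trans hyΓ
                gcongr
        _ = _ := one_mul _
    have h3 : ∑ k ∈ Finset.range n, 4096 * y ^ 4 * 256 ^ k * (Real.exp 1 *
        (∫ v, Real.exp (-(2 * y * 4 ^ k * sv c x y v)) ∂(unif c)) ^ K) ≤ (Γ⁻¹) ^ 4 := by
      obtain ⟨A, hA⟩ : ∃ A, A = K * y / (4 * c) := ⟨_, rfl⟩
      have hA0 : 0 < A := by rw [hA]; positivity
      have hAl : y * Γ / 8 ≤ A := by
        rw [hA, div_le_div_iff₀ (by norm_num) (by positivity)]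
        have := h.H6
        nlinarith
      have hterm : ∀ k ∈ Finset.range n, 4096 * y ^ 4 * 256 ^ k * (Real.exp 1 *
          (∫ v, Real.exp (-(2 * y * 4 ^ k * sv c x y v)) ∂(unif c)) ^ K) ≤
          (4096 * 2.72 * 362880) * (y ^ 4 / A ^ 9) * (1 / 2) ^ k := by
        intro k hk
        have e1 := lap2 h hc hI hx k (hn2 k (Finset.mem_range.1 hk))
        rw [← hA] at e1
        have e4 := Real.pow_div_factorial_le_exp (A * 2 ^ k) (by positivity) 9
        have k3 : ((Nat.factorial 9 : ℕ) : ℝ) = 362880 := by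
          norm_num [Nat.factorial]
        rw [k3] at e4
        have e5 : Real.exp (-(A * 2 ^ k)) ≤ 362880 / (A * 2 ^ k) ^ 9 := by
          rw [Real.exp_neg, inv_le_comm₀ (Real.exp_pos _) (by positivity), inv_div]
          exact e4
        have e6 : Real.exp 1 ≤ 2.72 := by
          have := Real.exp_one_lt_d9
          linarith
        calc 4096 * y ^ 4 * 256 ^ k * (Real.exp 1 *
            (∫ v, Real.exp (-(2 * y * 4 ^ k * sv c x y v)) ∂(unif c)) ^ K) ≤
            4096 * y ^ 4 * 256 ^ k * (2.72 * (362880 / (A * 2 ^ k) ^ 9)) := by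
              have := e1.trans e5
              gcongr
          _ = _ := by
              have k5 : (256 : ℝ) ^ k = (2 ^ k) ^ 8 := by
                rw [← pow_mul, mul_comm k 8, pow_mul]
                norm_num
              have k6 : ((1 : ℝ) / 2) ^ k = 1 / 2 ^ k := by
                rw [one_div_pow]
              rw [k5, k6]
              field_simp
      refine (Finset.sum_le_sum hterm).trans ?_
      rw [← Finset.mul_sum]
      have hgeo : ∑ k ∈ Finset.range n, ((1 : ℝ) / 2) ^ k ≤ 2 := by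
        have := geom_sum_eq (show (1 : ℝ) / 2 ≠ 1 by norm_num) n
        rw [this]
        have : (0 : ℝ) < (1 / 2) ^ n := by positivity
        rw [div_le_iff_of_neg (by norm_num)]
        linarith
      calc 4096 * 2.72 * 362880 * (y ^ 4 / A ^ 9) * ∑ k ∈ Finset.range n, ((1 : ℝ) / 2) ^ k ≤
          4096 * 2.72 * 362880 * (y ^ 4 / (y * Γ / 8) ^ 9) * 2 := by
            gcongr
        _ = (4096 * 2.72 * 362880 * 2 * 8 ^ 9) / (y ^ 5 * Γ ^ 5) * (Γ⁻¹) ^ 4 := by
            field_simp
        _ ≤ 1 * (Γ⁻¹) ^ 4 := by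
            gcongr
            rw [div_le_one (by positivity)]
            calc (4096 * 2.72 * 362880 * 2 * 8 ^ 9 : ℝ) ≤ (10 ^ 8) ^ 5 * (10 ^ 8) ^ 5 := by norm_num
              _ ≤ y ^ 5 * Γ ^ 5 := by
                have := hΓ.trans hyΓ
                gcongr
        _ = _ := one_mul _
    linarith

end

end Pool.Agent.Helper32.SD
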