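import Pool.Agent.Helper32.SD.Prob

/-! One step of the matrix recursion: the algebra. -/

set_option autoImplicit false
set_option linter.unusedSectionVars false
set_option linter.unusedSimpArgs false
set_option linter.unusedVariables false

open scoped BigOperators Matrix ComplexOrder MatrixOrder
open Matrix

namespace Pool.Agent.Helper32.SD

open Pool.Agent.Helper32.BS

section one

theorem res_gen {n : Type} [Fintype n] [DecidableEq n] (A M g Φ : Matrix n n ℂ)
    (h1 : A * Φ = 1) (h2 : g * M = 1) : g - Φ = g * (A - M) * Φ := by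
  rw [Matrix.mul_sub, Matrix.sub_mul, Matrix.mul_assoc, h1, h2, Matrix.mul_one, Matrix.one_mul]

variable {n : Type} [Fintype n] [DecidableEq n] {W Ft g Φ : Matrix n n ℂ} {Γ η : ℝ}
  (hM : (W - (Γ : ℂ) • Ft) * g = 1)

include hM

theorem one_Y (hΦ : (W - ((Γ : ℂ) * Complex.I) • 1) * Φ = 1) :
    g - Φ = (Γ : ℂ) • (g * Yy Ft * Φ) := by
  have hM' := mul_eq_one_comm.1 hM
  have e1 : (Γ : ℂ) • Yy Ft = (W - ((Γ : ℂ) * Complex.I) • 1) - (W - (Γ : ℂ) • Ft) := by
    unfold Yy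
    rw [smul_sub, smul_smul]
    abel
  rw [res_gen _ _ _ _ hΦ hM', ← e1, Matrix.mul_smul, Matrix.smul_mul]

theorem one_N (hΦ : (W + ((Γ : ℂ) * Complex.I + 2 * Complex.I * η) • 1) * Φ = 1) (h : ℝ)
    (hh : h * Γ = η) :
    g - Φ = (Γ : ℂ) • (g * (Nn Ft + (2 * Complex.I * h) • 1) * Φ) := by
  have hM' := mul_eq_one_comm.1 hM
  have e1 : (Γ : ℂ) • (Nn Ft + (2 * Complex.I * h) • 1) =
      (W + ((Γ : ℂ) * Complex.I + 2 * Complex.I * η) • 1) - (W - (Γ : ℂ) • Ft) := by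
    unfold Nn
    rw [← hh]
    push_cast
    module
  rw [res_gen _ _ _ _ hΦ hM', ← e1, Matrix.mul_smul, Matrix.smul_mul]

theorem one_Q (hW : W - Wᴴ = (-(2 * Complex.I * η)) • 1) :
    Imm g = g * ((Γ : ℂ) • Imm Ft + (η : ℂ) • 1) * gᴴ := by
  have hM' := mul_eq_one_comm.1 hM
  have e0 : Wᴴ - W = (2 * Complex.I * η) • 1 := by
    rw [← neg_sub, hW]
    module
  have e1 : (W - (Γ : ℂ) • Ft)ᴴ - (W - (Γ : ℂ) • Ft) =
      (2 * Complex.I) • ((Γ : ℂ) • Imm Ft + (η : ℂ) • 1) := by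
    rw [conjTranspose_sub, conjTranspose_smul, RCLike.star_def, Complex.conj_ofReal]
    have a1 : Wᴴ - (Γ : ℂ) • Ftᴴ - (W - (Γ : ℂ) • Ft) = (Wᴴ - W) + (Γ : ℂ) • (Ft - Ftᴴ) := by
      rw [smul_sub]
      abel
    rw [a1, e0, imm_sub]
    module
  have e2 : g - gᴴ = g * ((W - (Γ : ℂ) • Ft)ᴴ - (W - (Γ : ℂ) • Ft)) * gᴴ := by
    have b1 : (W - (Γ : ℂ) • Ft)ᴴ * gᴴ = 1 := by
      rw [← conjTranspose_mul, hM', conjTranspose_one]
    exact res_gen _ _ _ _ b1 hM'
  have e3 : (2 * Complex.I) • Imm g = (2 * Complex.I) • (g * ((Γ : ℂ) • Imm Ft +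
      (η : ℂ) • 1) * gᴴ) := by
    rw [← imm_sub, e2, e1, Matrix.mul_smul, Matrix.smul_mul]
  have h2 : (2 * Complex.I) ≠ 0 := by simp
  exact smul_right_injective _ h2 e3

theorem one_unit : IsUnit g.det := by
  rw [← isUnit_iff_isUnit_det]
  exact IsUnit.of_mul_eq_one _ (mul_eq_one_comm.1 hM)

end one

section sum

variable {n : Type} [Fintype n] [DecidableEq n] {K : ℕ} (hK : K ≠ 0) {Γ η : ℝ} {z s : ℂ}
  (hz : z.im = η) (hs : s.im = Γ) (hη : 0 < η) (hΓ : 0 < Γ) (v : Fin K → n → ℝ)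
  (F g : Fin K → Matrix n n ℂ) (hF : ∀ j, (Imm (F j)).PosDef) (B V : Matrix n n ℂ) (ε : ℝ)
  (hB : (Γ : ℂ) • (ε : ℂ) • V = B) (hV : Vᴴ = V)
  (hM : ∀ j, (B + (diagonal fun x => ((v j x : ℝ) : ℂ)) - z • 1 - (s.re : ℂ) • 1 -
    (Γ : ℂ) • F j) * g j = 1)

include hK hz hs hη hΓ hF hB hV hM

theorem sq_of : Sq K (η / Γ) (fun j x => ((v j x : ℂ) - z - s)⁻¹)
    (fun x => ((∑ j, ((v j x : ℂ) - z - s)⁻¹) - s) / (Γ : ℂ)) (fun j => pt ε V (F j)) g
    ((Γ : ℂ)⁻¹ • ((∑ j, g j) - (s.re : ℂ) • 1)) := by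
  have hΓc : (Γ : ℂ) ≠ 0 := by exact_mod_cast hΓ.ne'
  have hne : ∀ j x, (v j x : ℂ) - z - s ≠ 0 := by
    intro j x h
    have := congrArg Complex.im h
    simp [hz, hs] at this
    linarith
  obtain ⟨W, hW⟩ : ∃ W : Fin K → Matrix n n ℂ, W = fun j =>
    diagonal fun x => (v j x : ℂ) - z - (s.re : ℂ) := ⟨_, rfl⟩
  have hWe : ∀ j, B + (diagonal fun x => ((v j x : ℝ) : ℂ)) - z • 1 - (s.re : ℂ) • 1 -
      (Γ : ℂ) • F j = W j - (Γ : ℂ) • pt ε V (F j) := by
    intro j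
    have e1 : W j = (diagonal fun x => ((v j x : ℝ) : ℂ)) - z • 1 - (s.re : ℂ) • 1 := by
      rw [hW, ← diagonal_one, ← diagonal_smul, ← diagonal_smul, diagonal_sub, diagonal_sub]
      congr 1
      funext x
      simp
    rw [e1]
    unfold pt
    rw [smul_sub, hB]
    abel
  have hM' : ∀ j, (W j - (Γ : ℂ) • pt ε V (F j)) * g j = 1 := fun j => by
    rw [← hWe]
    exact hM j
  have hs' : s = (s.re : ℂ) + (Γ : ℂ) * Complex.I := by
    rw [← hs]
    exact (Complex.re_add_im s).symm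
  have hΦ : ∀ j, (W j - ((Γ : ℂ) * Complex.I) • 1) *
      (diagonal fun x => ((v j x : ℂ) - z - s)⁻¹) = 1 := by
    intro j
    rw [hW, ← diagonal_one, ← diagonal_smul, diagonal_sub, diagonal_mul_diagonal]
    congr 1
    funext x
    have := hne j x
    simp only [Pi.smul_apply, smul_eq_mul, mul_one]
    have e1 : (v j x : ℂ) - z - (s.re : ℂ) - (Γ : ℂ) * Complex.I = (v j x : ℂ) - z - s := by
      conv_rhs => rw [hs']
      ring
    rw [e1, mul_inv_cancel₀ this]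
  have hzc : (starRingEnd ℂ) z = z - 2 * Complex.I * η := by
    apply Complex.ext
    · simp
    · simp [hz]
      ring
  have hsc : (starRingEnd ℂ) s = (s.re : ℂ) - (Γ : ℂ) * Complex.I := by
    apply Complex.ext
    · simp
    · simp [hs]
  have hΦ' : ∀ j, (W j + ((Γ : ℂ) * Complex.I + 2 * Complex.I * η) • 1) *
      (diagonal fun x => ((v j x : ℂ) - z - s)⁻¹)ᴴ = 1 := by
    intro j
    rw [hW, ← diagonal_one, ← diagonal_smul, diagonal_add, diagonal_conjTranspose,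
      diagonal_mul_diagonal]
    congr 1
    funext x
    have := hne j x
    simp only [Pi.smul_apply, smul_eq_mul, mul_one, Pi.star_apply, RCLike.star_def, map_inv₀,
      map_sub, Complex.conj_ofReal]
    have e1 : (v j x : ℂ) - z - (s.re : ℂ) + ((Γ : ℂ) * Complex.I + 2 * Complex.I * η) =
        (v j x : ℂ) - (starRingEnd ℂ) z - (starRingEnd ℂ) s := by
      rw [hzc, hsc]
      ring
    rw [e1]
    have e2 : (v j x : ℂ) - (starRingEnd ℂ) z - (starRingEnd ℂ) s =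
        (starRingEnd ℂ) ((v j x : ℂ) - z - s) := by
      simp
    rw [e2, mul_inv_cancel₀]
    exact (map_ne_zero _).2 this
  have hWW : ∀ j, W j - (W j)ᴴ = (-(2 * Complex.I * η)) • 1 := by
    intro j
    rw [hW, diagonal_conjTranspose, diagonal_sub, ← diagonal_one, ← diagonal_smul]
    congr 1
    funext x
    simp only [Pi.smul_apply, smul_eq_mul, mul_one, Pi.star_apply, RCLike.star_def, map_sub,
      Complex.conj_ofReal]
    rw [hzc]
    ring
  have hh : (η / Γ) * Γ = η := by field_simp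
  refine ⟨by positivity, hK, fun j => ?_, fun j => ?_, ?_, ?_, ?_, fun x => ?_⟩
  · rw [imm_pt _ _ _ hV]
    exact hF j
  · exact one_unit (hM' j)
  · -- eQ
    have e1 : Imm ((Γ : ℂ)⁻¹ • ((∑ j, g j) - (s.re : ℂ) • 1)) = (Γ : ℂ)⁻¹ • ∑ j, Imm (g j) := by
      unfold Imm
      rw [conjTranspose_smul, conjTranspose_sub, conjTranspose_smul, conjTranspose_one,
        conjTranspose_sum, RCLike.star_def, map_inv₀, Complex.conj_ofReal,
        Complex.conj_ofReal, ← Finset.smul_sum, Finset.sum_sub_distrib]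
      module
    rw [e1, Finset.smul_sum]
    refine Finset.sum_congr rfl fun j _ => ?_
    rw [one_Q (hM' j) (hWW j)]
    have e2 : (Γ : ℂ) • Imm (pt ε V (F j)) + (η : ℂ) • 1 =
        (Γ : ℂ) • (Imm (pt ε V (F j)) + ((η / Γ : ℝ) : ℂ) • 1) := by
      rw [smul_add, smul_smul]
      congr 2
      rw [← hh]
      push_cast
      field_simp
    rw [e2, Matrix.mul_smul, Matrix.smul_mul, smul_smul, inv_mul_cancel₀ hΓc, one_smul]
  · -- eY
    have e1 : ∀ j, g j * Yy (pt ε V (F j)) * diagonal (fun x => ((v j x : ℂ) - z - s)⁻¹) =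
        (Γ : ℂ)⁻¹ • (g j - diagonal (fun x => ((v j x : ℂ) - z - s)⁻¹)) := by
      intro j
      rw [one_Y (hM' j) (hΦ j), smul_smul, inv_mul_cancel₀ hΓc, one_smul]
    rw [Finset.sum_congr rfl fun j _ => e1 j, ← Finset.smul_sum, Finset.sum_sub_distrib]
    have e2 : (diagonal fun x => ((∑ j, ((v j x : ℂ) - z - s)⁻¹) - s) / (Γ : ℂ)) =
        (Γ : ℂ)⁻¹ • ((∑ j, diagonal fun x => ((v j x : ℂ) - z - s)⁻¹) - s • 1) := by
      ext x y
      rw [Matrix.smul_apply, Matrix.sub_apply, Matrix.sum_apply, Matrix.smul_apply]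
      by_cases hxy : x = y
      · subst hxy
        simp only [diagonal_apply_eq, one_apply_eq, smul_eq_mul, mul_one]
        field_simp
      · simp only [diagonal_apply_ne _ hxy, one_apply_ne hxy, smul_eq_mul, mul_zero,
          Finset.sum_const_zero, sub_zero]
    rw [e2]
    unfold Yy
    have e3 : (s.re : ℂ) = s - (Γ : ℂ) * Complex.I := by
      conv_rhs => rw [hs']
      simp
    rw [e3]
    have e4 : Complex.I • (1 : Matrix n n ℂ) = (Γ : ℂ)⁻¹ • ((Γ : ℂ) * Complex.I) • 1 := by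
      rw [smul_smul, ← mul_assoc, inv_mul_cancel₀ hΓc, one_mul]
    rw [e4]
    module
  · -- eN
    have e1 : ∀ j, g j * (Nn (pt ε V (F j)) + (2 * Complex.I * ((η / Γ : ℝ) : ℂ)) • 1) *
        (diagonal (fun x => ((v j x : ℂ) - z - s)⁻¹))ᴴ =
        (Γ : ℂ)⁻¹ • (g j - (diagonal (fun x => ((v j x : ℂ) - z - s)⁻¹))ᴴ) := by
      intro j
      rw [one_N (hM' j) (hΦ' j) (η / Γ) hh, smul_smul, inv_mul_cancel₀ hΓc, one_smul]
    rw [Finset.sum_congr rfl fun j _ => e1 j, ← Finset.smul_sum, Finset.sum_sub_distrib]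
    have e2 : (diagonal fun x => ((∑ j, ((v j x : ℂ) - z - s)⁻¹) - s) / (Γ : ℂ))ᴴ =
        (Γ : ℂ)⁻¹ • ((∑ j, (diagonal fun x => ((v j x : ℂ) - z - s)⁻¹)ᴴ) -
          ((starRingEnd ℂ) s) • 1) := by
      ext x y
      rw [Matrix.smul_apply, Matrix.sub_apply, Matrix.sum_apply, Matrix.smul_apply,
        conjTranspose_apply]
      simp only [conjTranspose_apply]
      by_cases hxy : x = y
      · subst hxy
        simp only [diagonal_apply_eq, one_apply_eq, smul_eq_mul, mul_one, RCLike.star_def,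
          map_div₀, map_sub, map_sum, Complex.conj_ofReal]
        field_simp
      · simp only [diagonal_apply_ne _ (Ne.symm hxy), one_apply_ne hxy, smul_eq_mul, mul_zero,
          Finset.sum_const_zero, sub_zero, star_zero]
    rw [e2]
    unfold Nn
    have e3 : (s.re : ℂ) = (starRingEnd ℂ) s + (Γ : ℂ) * Complex.I := by
      rw [hsc]
      ring
    rw [e3]
    have e4 : Complex.I • (1 : Matrix n n ℂ) = (Γ : ℂ)⁻¹ • ((Γ : ℂ) * Complex.I) • 1 := by
      rw [smul_smul, ← mul_assoc, inv_mul_cancel₀ hΓc, one_mul]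
    rw [e4]
    module
  · -- eP
    have e1 : ∀ j, (((v j x : ℂ) - z - s)⁻¹).im = (η + Γ) * ‖((v j x : ℂ) - z - s)⁻¹‖ ^ 2 := by
      intro j
      rw [Complex.inv_im, norm_inv, inv_pow, ← Complex.normSq_eq_norm_sq]
      have : ((v j x : ℂ) - z - s).im = -(η + Γ) := by
        simp [hz, hs]
        ring
      rw [this, neg_neg]
      rfl
    rw [Complex.div_ofReal_im, Complex.sub_im, Complex.im_sum, hs]
    simp only [e1]
    rw [← Finset.mul_sum]
    field_simp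
    ring

end sum

end Pool.Agent.Helper32.SD
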