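import Pool.Agent.Helper32.SD.Inst
import Pool.Agent.Helper32.BS.Mom

/-! The moment bound of the rooted tree times a finite group, for strong disorder. -/

set_option autoImplicit false
set_option linter.unusedSectionVars false
set_option linter.unusedSimpArgs false
set_option linter.unusedVariables false

open scoped BigOperators Matrix ComplexOrder MatrixOrder Topology
open Matrix MeasureTheory ProbabilityTheory Filter

namespace Pool.Agent.Helper32.SD

open Pool.Agent.Helper32.BS hiding Ph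
open Pool.Agent.Y662.TR (clp clp_abs clp_eq clp_cont)

/-- the bound of the scalars -/
noncomputable def u0 (K : ℕ) (c : ℝ) : ℝ := c + (c + Real.sqrt K) / 10 + 1 + Real.sqrt K

/-- the constant -/
noncomputable def Csd (K d : ℕ) (c : ℝ) : ℝ :=
  2 * (256 * (8 * (d : ℝ) ^ 2 + 2 * (u0 K c) ^ 2) ^ 2 + 8 * K)

variable {K d : ℕ} {S : Type} [AddGroup S] [Fintype S] [DecidableEq S]
variable (e : Fin d → S) (a c : ℝ) (z s : ℂ) (hz : 0 < z.im) (hsi : 0 < s.im)
variable (hc : 0 < c) (D : ℝ) (hD : D = d + 1) (hK : 10 ^ 17 * D * (c + D) ≤ K)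
  (hz1 : z.im ≤ 1) (hE : |z.re - a| ≤ (c + Real.sqrt K) / 20)
  (hf : SD.Ph (unif c) (clp c) K (z - a) s = s)

include hz hsi hc hD hK hz1 hE hf

theorem mom_s : ∫ ω, hs (Imm (Gh K e a 1 1 c z ω))⁻¹ ∂(BS.Ph K S (unif c)) ≤
    Csd K d c * Fintype.card S := by
  have hpr := unif_prob hc
  have hd0 : (0 : ℝ) ≤ d := Nat.cast_nonneg _
  have hD1 : 1 ≤ D := by linarith
  have hD0 : 0 < D := by linarith
  have hKp : (0 : ℝ) < K := lt_of_lt_of_le (by positivity) hK
  have hKn : K ≠ 0 := by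
    have : 0 < K := by exact_mod_cast hKp
    omega
  have hzi : (z - (a : ℂ)).im = z.im := by simp
  have hzr : (z - (a : ℂ)).re = z.re - a := by simp
  have hz' : 0 < (z - (a : ℂ)).im := by rw [hzi]; exact hz
  have hF := fp_fact hc hKp (z - (a : ℂ)) s hz' hsi hf
  have hE' : |(z - (a : ℂ)).re| ≤ (c + Real.sqrt K) / 20 := by rw [hzr]; exact hE
  have hη' : (z - (a : ℂ)).im ≤ 1 := by rw [hzi]; exact hz1
  have hlow := hF.Γlow hc hη' hD1 hK hE'
  have hup := hF.Γup hc hη' hD1 hK hE'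
  have hΓ1 : 1 ≤ s.im := by
    refine le_trans ?_ hlow
    linarith
  have hxR := hF.xR
  obtain ⟨M, hDt⟩ := the_dt (K := K) e a c z s hz hsi hc D hD hK hz1 hE hf
  have hmain := hDt.main
  have hFc := Fh_cont (K := K) e a c z s hz
  have hFp := Fh_pos (K := K) e a c z s hz hsi hKn
  obtain ⟨w, hw⟩ : ∃ w : ℝ, w = (8 * (d : ℝ) ^ 2 + 2 * (u0 K c) ^ 2) ^ 2 := ⟨_, rfl⟩
  have hw0 : 0 ≤ w := by rw [hw]; positivity
  have hpt : ∀ ω, hs (Imm (Gh K e a 1 1 c z ω))⁻¹ ≤ (256 * w + 8 * K) *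
      (hs (Dm (Fh e a c z s ω)) + hs (Dz (Fh e a c z s ω)) + Fintype.card S) := by
    intro ω
    obtain ⟨W, hW⟩ : ∃ W : Matrix S S ℂ, W = Bm e + (diagonal fun x =>
      ((clp c (ω ([], x)) : ℝ) : ℂ)) - (z - (a : ℂ)) • 1 - (s.re : ℂ) • 1 := ⟨_, rfl⟩
    have h1 : (W - (s.im : ℂ) • Fh e a c z s ω) * Gh K e a 1 1 c z ω = 1 := by
      have h2 := gh_rec e a 1 1 c z hz ω
      have h3 : (s.im : ℂ) • Fh e a c z s ω =
          (∑ i, Gh K e a 1 1 c z (tau K S i ω)) - (s.re : ℂ) • 1 := by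
        unfold Fh
        rw [smul_smul, mul_inv_cancel₀ (by exact_mod_cast hsi.ne'), one_smul]
      refine Eq.trans ?_ h2
      rw [h3, hW, am_bm]
      congr 1
      have h4 : ((1 ^ 2 : ℝ) : ℂ) = 1 := by norm_num
      rw [h4, Complex.ofReal_one, one_smul, one_smul]
      module
    have h2 : W - Wᴴ = (-(2 * Complex.I * z.im)) • 1 := by
      have e0 : (diagonal fun x => ((clp c (ω (([] : List (Fin K)), x)) : ℝ) : ℂ))ᴴ =
          (diagonal fun x : S => ((clp c (ω ([], x)) : ℝ) : ℂ)) := by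
        rw [diagonal_conjTranspose]
        congr 1
        funext x
        rw [Pi.star_apply, RCLike.star_def, Complex.conj_ofReal]
      have e1 : (starRingEnd ℂ) (z - (a : ℂ)) = (z - (a : ℂ)) - 2 * Complex.I * z.im := by
        apply Complex.ext
        · simp
        · simp
          ring
      rw [hW]
      simp only [conjTranspose_sub, conjTranspose_add, conjTranspose_smul, conjTranspose_one,
        bm_herm, e0, RCLike.star_def, Complex.conj_ofReal]
      rw [e1]
      module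
    have h3 : W - ((s.im : ℂ) * Complex.I) • (1 : Matrix S S ℂ) = Bm e + diagonal (fun x =>
        ((clp c (ω ([], x)) : ℝ) : ℂ) - (z - (a : ℂ)) - s) := by
      have e1 : diagonal (fun x => ((clp c (ω ([], x)) : ℝ) : ℂ) - (z - (a : ℂ)) - s) =
          (diagonal fun x => ((clp c (ω ([], x)) : ℝ) : ℂ)) - (z - (a : ℂ)) • 1 -
            s • (1 : Matrix S S ℂ) := by
        rw [← diagonal_one, ← diagonal_smul, ← diagonal_smul, diagonal_sub, diagonal_sub]
        congr 1
        funext x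
        simp
      rw [e1, hW]
      have e2 : s • (1 : Matrix S S ℂ) = (s.re : ℂ) • 1 + ((s.im : ℂ) * Complex.I) • 1 := by
        rw [← add_smul]
        congr 1
        exact (Complex.re_add_im s).symm
      rw [e2]
      abel
    have hu : ∀ x, ‖((clp c (ω (([] : List (Fin K)), x)) : ℝ) : ℂ) - (z - (a : ℂ)) - s‖ ≤
        u0 K c := by
      intro x
      have e1 : ‖((clp c (ω (([] : List (Fin K)), x)) : ℝ) : ℂ)‖ ≤ c := by
        rw [Complex.norm_real, Real.norm_eq_abs]
        have := clp_abs c (ω ([], x))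
        rwa [abs_of_pos hc] at this
      have e2 : ‖z - (a : ℂ)‖ ≤ (c + Real.sqrt K) / 20 + 1 := by
        refine (Complex.norm_le_abs_re_add_abs_im _).trans ?_
        rw [abs_of_pos hz']
        linarith
      have e3 : ‖s‖ ≤ (c + Real.sqrt K) / 20 + Real.sqrt K := by
        refine (Complex.norm_le_abs_re_add_abs_im _).trans ?_
        rw [abs_of_pos hsi]
        linarith [hxR.2]
      have e4 := norm_sub_le (((clp c (ω (([] : List (Fin K)), x)) : ℝ) : ℂ) - (z - (a : ℂ))) s
      have e5 := norm_sub_le ((clp c (ω (([] : List (Fin K)), x)) : ℝ) : ℂ) (z - (a : ℂ))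
      unfold u0
      linarith
    have h4 := inv_bd W (Fh e a c z s ω) (Gh K e a 1 1 c z ω) s.im z.im w hΓ1 hz (hFp ω) h1 h2 hw0
      (fun X => by
        rw [h3, hw]
        exact bm_w e _ (u0 K c) hu X)
    have h5 := hs_nonneg (Dm (Fh e a c z s ω))
    have h6 := hs_nonneg (Dz (Fh e a c z s ω))
    have h7 : (0 : ℝ) ≤ Fintype.card S := Nat.cast_nonneg _
    have h8 : s.im ^ 2 ≤ K := by
      have : s.im ^ 2 ≤ Real.sqrt K ^ 2 := by gcongr
      rwa [Real.sq_sqrt hKp.le] at this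
    refine h4.trans (mul_le_mul_of_nonneg_right ?_ (by linarith))
    linarith
  have hb : ∀ ω, hs (Dm (Fh (K := K) e a c z s ω)) ≤ M ∧ hs (Dz (Fh (K := K) e a c z s ω)) ≤ M :=
    fun ω => ⟨(hDt.bd ω).1, (hDt.bd ω).2.1⟩
  have iDm : Integrable (fun ω => hs (Dm (Fh (K := K) e a c z s ω))) (BS.Ph K S (unif c)) :=
    int_hs hDt.mDm fun ω => (hb ω).1
  have iDz : Integrable (fun ω => hs (Dz (Fh (K := K) e a c z s ω))) (BS.Ph K S (unif c)) :=
    int_hs hDt.mDz fun ω => (hb ω).2
  have iS : Integrable (fun ω => (256 * w + 8 * K) * (hs (Dm (Fh (K := K) e a c z s ω)) +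
      hs (Dz (Fh e a c z s ω)) + Fintype.card S)) (BS.Ph K S (unif c)) :=
    ((iDm.add iDz).add (integrable_const _)).const_mul _
  have iG : Integrable (fun ω => hs (Imm (Gh K e a 1 1 c z ω))⁻¹) (BS.Ph K S (unif c)) := by
    have hR := cont_hs (cont_inv (cont_imm (gh_cont (K := K) e a 1 1 c z hz))
      (fun ω => gm_pos _ z (Th_sa _ _ _ _ _) hz))
    refine Integrable.mono' iS hR.measurable.aestronglyMeasurable
      (Eventually.of_forall fun ω => ?_)
    rw [Real.norm_of_nonneg (hs_nonneg _)]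
    exact hpt ω
  have h1 := integral_mono iG iS hpt
  refine h1.trans ?_
  have i2 : Integrable (fun ω => hs (Dm (Fh (K := K) e a c z s ω)) + hs (Dz (Fh e a c z s ω)))
      (BS.Ph K S (unif c)) := iDm.add iDz
  rw [integral_const_mul, integral_add i2 (integrable_const _), integral_add iDm iDz]
  simp only [integral_const, probReal_univ, smul_eq_mul, one_mul]
  have h7 : (0 : ℝ) ≤ Fintype.card S := Nat.cast_nonneg _
  have h8 : (0 : ℝ) ≤ 256 * w + 8 * K := by positivity
  refine (mul_le_mul_of_nonneg_left (add_le_add_left hmain _) h8).trans (le_of_eq ?_)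
  unfold Csd
  rw [hw]
  ring

omit hsi hf in
/-- **the moment bound** -/
theorem mom_sd (x : S) : ∫ ω, mq e a 1 1 c z x ω ^ 2 ∂(BS.Ph K S (unif c)) ≤ Csd K d c := by
  have hpr := unif_prob hc
  have hd0 : (0 : ℝ) ≤ d := Nat.cast_nonneg _
  have hD0 : 0 < D := by linarith
  have hKp : (0 : ℝ) < K := lt_of_lt_of_le (by positivity) hK
  have hz' : 0 < (z - (a : ℂ)).im := by simpa using hz
  obtain ⟨s, hsi, hf⟩ := fix_ex (unif c) (clp c) (clp_cont c).measurable K (z - (a : ℂ)) hz' hKp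
  exact mq_le e a 1 1 c z hz x (unif c) _ (mom_s e a c z s hz hsi hc D hD hK hz1 hE hf)

end Pool.Agent.Helper32.SD
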