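import Pool.Agent.Helper32.SD.Alg

/-! The random recursion around a random reference point: the second moment bound. -/

set_option autoImplicit false
set_option linter.unusedSectionVars false
set_option linter.unusedSimpArgs false

open scoped BigOperators Matrix ComplexOrder MatrixOrder
open Matrix MeasureTheory ProbabilityTheory

namespace Pool.Agent.Helper32.SD

open Pool.Agent.Helper32.BS

section pointwise

variable {n : Type} [Fintype n] [DecidableEq n] {K : ℕ}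

/-- the coefficients -/
noncomputable def ka (ρ : n → ℂ) (φ : Fin K → n → ℂ) (x y : n) (j : Fin K) : ℝ :=
  ‖uq ρ x‖ ^ 2 * ‖uq ρ y‖ ^ 2 * (∑ i, ‖φ i x‖ * ‖φ i y‖) * (‖φ j x‖ * ‖φ j y‖)

/-- the tilt -/
noncomputable def tt (ρ : n → ℂ) (x : n) : ℝ := ‖ρ x‖ ^ 2 / (1 + (ρ x).im)

theorem ka_nonneg (ρ : n → ℂ) (φ : Fin K → n → ℂ) (x y : n) (j : Fin K) : 0 ≤ ka ρ φ x y j := by
  unfold ka
  positivity

theorem cs_sum (a : Fin K → ℂ) (c : Fin K → ℝ) (hc : ∀ j, ‖a j‖ = c j) (A : Fin K → ℂ) :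
    ‖∑ j, a j * A j‖ ^ 2 ≤ (∑ j, c j) * ∑ j, c j * ‖A j‖ ^ 2 := by
  have hc0 : ∀ j, 0 ≤ c j := fun j => by rw [← hc]; exact norm_nonneg _
  have h1 : ‖∑ j, a j * A j‖ ≤ ∑ j, Real.sqrt (c j) * (Real.sqrt (c j) * ‖A j‖) := by
    refine (norm_sum_le _ _).trans (le_of_eq ?_)
    refine Finset.sum_congr rfl fun j _ => ?_
    rw [norm_mul, hc, ← mul_assoc, Real.mul_self_sqrt (hc0 j)]
  calc ‖∑ j, a j * A j‖ ^ 2 ≤ (∑ j, Real.sqrt (c j) * (Real.sqrt (c j) * ‖A j‖)) ^ 2 := by gcongr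
    _ ≤ (∑ j, Real.sqrt (c j) ^ 2) * ∑ j, (Real.sqrt (c j) * ‖A j‖) ^ 2 :=
        Finset.sum_mul_sq_le_sq_mul_sq _ _ _
    _ = _ := by
        congr 1
        · exact Finset.sum_congr rfl fun j _ => Real.sq_sqrt (hc0 j)
        · refine Finset.sum_congr rfl fun j _ => ?_
          rw [mul_pow, Real.sq_sqrt (hc0 j)]

theorem wm_apply (φ : Fin K → n → ℂ) (A : Fin K → Matrix n n ℂ) (x y : n) :
    Wm φ A x y = ∑ j, (star (φ j x) * φ j y) * A j x y := by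
  unfold Wm
  rw [Matrix.sum_apply]
  refine Finset.sum_congr rfl fun j _ => ?_
  rw [diagonal_conjTranspose, mul_diagonal, diagonal_mul, Pi.star_apply]
  ring

theorem wz_apply (φ : Fin K → n → ℂ) (A : Fin K → Matrix n n ℂ) (x y : n) :
    Wz φ A x y = ∑ j, (φ j x * star (φ j y)) * A j x y := by
  unfold Wz
  rw [Matrix.sum_apply]
  refine Finset.sum_congr rfl fun j _ => ?_
  rw [diagonal_conjTranspose, mul_diagonal, diagonal_mul, Pi.star_apply]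
  ring

theorem wx_apply (φ : Fin K → n → ℂ) (A : Fin K → Matrix n n ℂ) (x y : n) :
    Wx φ A x y = ∑ j, (φ j x * φ j y) * A j x y := by
  unfold Wx
  rw [Matrix.sum_apply]
  refine Finset.sum_congr rfl fun j _ => ?_
  rw [mul_diagonal, diagonal_mul]
  ring

theorem wh_wm (ρ : n → ℂ) (φ : Fin K → n → ℂ) (A : Fin K → Matrix n n ℂ) :
    wh (uq ρ) (Wm φ A) ≤ ∑ x, ∑ y, ∑ j, ka ρ φ x y j * ‖A j x y‖ ^ 2 := by
  unfold wh
  refine Finset.sum_le_sum fun x _ => Finset.sum_le_sum fun y _ => ?_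
  rw [wm_apply]
  have h1 := cs_sum (fun j => star (φ j x) * φ j y) (fun j => ‖φ j x‖ * ‖φ j y‖)
    (fun j => by rw [norm_mul, norm_star]) (fun j => A j x y)
  calc ‖uq ρ x‖ ^ 2 * ‖uq ρ y‖ ^ 2 * ‖∑ j, (star (φ j x) * φ j y) * A j x y‖ ^ 2 ≤
      ‖uq ρ x‖ ^ 2 * ‖uq ρ y‖ ^ 2 * ((∑ j, ‖φ j x‖ * ‖φ j y‖) *
        ∑ j, (‖φ j x‖ * ‖φ j y‖) * ‖A j x y‖ ^ 2) := by gcongr
    _ = _ := by
      rw [← mul_assoc, Finset.mul_sum]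
      refine Finset.sum_congr rfl fun j _ => ?_
      unfold ka
      ring

theorem wh_wz (ρ : n → ℂ) (φ : Fin K → n → ℂ) (A : Fin K → Matrix n n ℂ) :
    wh (uq ρ) (Wz φ A) ≤ ∑ x, ∑ y, ∑ j, ka ρ φ x y j * ‖A j x y‖ ^ 2 := by
  unfold wh
  refine Finset.sum_le_sum fun x _ => Finset.sum_le_sum fun y _ => ?_
  rw [wz_apply]
  have h1 := cs_sum (fun j => φ j x * star (φ j y)) (fun j => ‖φ j x‖ * ‖φ j y‖)
    (fun j => by rw [norm_mul, norm_star]) (fun j => A j x y)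
  calc ‖uq ρ x‖ ^ 2 * ‖uq ρ y‖ ^ 2 * ‖∑ j, (φ j x * star (φ j y)) * A j x y‖ ^ 2 ≤
      ‖uq ρ x‖ ^ 2 * ‖uq ρ y‖ ^ 2 * ((∑ j, ‖φ j x‖ * ‖φ j y‖) *
        ∑ j, (‖φ j x‖ * ‖φ j y‖) * ‖A j x y‖ ^ 2) := by gcongr
    _ = _ := by
      rw [← mul_assoc, Finset.mul_sum]
      refine Finset.sum_congr rfl fun j _ => ?_
      unfold ka
      ring

variable {h : ℝ} (hh : 0 < h) {ρ : n → ℂ} {φ : Fin K → n → ℂ}
  (hP : ∀ x, 1 + (ρ x).im = (1 + h) * ∑ j, ‖φ j x‖ ^ 2) (hρ : ∀ x, 0 < 1 + (ρ x).im)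

include hh hP hρ

theorem up_le (x : n) : ‖uq ρ x‖ ^ 2 * ∑ j, ‖φ j x‖ ^ 2 ≤ tt ρ x := by
  have h1 := hP x
  have h2 := hρ x
  obtain ⟨s, hs⟩ : ∃ s, s = 1 + (ρ x).im := ⟨_, rfl⟩
  obtain ⟨p, hp⟩ : ∃ p, p = ∑ j, ‖φ j x‖ ^ 2 := ⟨_, rfl⟩
  have e1 : ‖uq ρ x‖ = ‖ρ x‖ / s := by
    unfold uq
    rw [← hs, norm_div, Complex.norm_real, Real.norm_of_nonneg (by rw [hs]; exact h2.le)]
  unfold tt
  rw [e1, ← hp, ← hs]
  rw [← hs] at h1 h2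
  rw [← hp] at h1
  have e2 : p ≤ s := by
    have : 0 < (1 + h) * p := by rw [← h1]; exact h2
    have hp0 : 0 < p := by
      by_contra hc
      push Not at hc
      nlinarith
    nlinarith
  rw [div_pow, div_mul_eq_mul_div, div_le_div_iff₀ (by positivity) h2]
  have e3 : 0 ≤ ‖ρ x‖ ^ 2 := by positivity
  have e4 : ‖ρ x‖ ^ 2 * p * s ≤ ‖ρ x‖ ^ 2 * s * s := by gcongr
  linarith [e4]

theorem tt_nonneg (x : n) : 0 ≤ tt ρ x := by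
  unfold tt
  have := hρ x
  positivity

theorem ka_sum (x y : n) : ∑ j, ka ρ φ x y j ≤ (tt ρ x ^ 2 + tt ρ y ^ 2) / 2 := by
  have h1 := up_le hh hP hρ x
  have h2 := up_le hh hP hρ y
  have e1 : ∑ j, ka ρ φ x y j = ‖uq ρ x‖ ^ 2 * ‖uq ρ y‖ ^ 2 * (∑ i, ‖φ i x‖ * ‖φ i y‖) ^ 2 := by
    unfold ka
    rw [← Finset.mul_sum]
    ring
  have e2 : (∑ i, ‖φ i x‖ * ‖φ i y‖) ^ 2 ≤ (∑ i, ‖φ i x‖ ^ 2) * ∑ i, ‖φ i y‖ ^ 2 :=
    Finset.sum_mul_sq_le_sq_mul_sq _ _ _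
  have h3 := tt_nonneg hh hP hρ x
  have h4 := tt_nonneg hh hP hρ y
  calc ∑ j, ka ρ φ x y j ≤ ‖uq ρ x‖ ^ 2 * ‖uq ρ y‖ ^ 2 * ((∑ i, ‖φ i x‖ ^ 2) *
      ∑ i, ‖φ i y‖ ^ 2) := by
        rw [e1]
        gcongr
    _ = (‖uq ρ x‖ ^ 2 * ∑ i, ‖φ i x‖ ^ 2) * (‖uq ρ y‖ ^ 2 * ∑ i, ‖φ i y‖ ^ 2) := by ring
    _ ≤ tt ρ x * tt ρ y := by gcongr
    _ ≤ _ := by nlinarith [sq_nonneg (tt ρ x - tt ρ y)]

omit hP in
theorem wh_sd : wh (uq ρ) (sd ρ) = ∑ x, tt ρ x ^ 2 := by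
  unfold wh
  refine Finset.sum_congr rfl fun x _ => ?_
  rw [Finset.sum_eq_single x]
  · unfold sd uq tt
    have h2 := hρ x
    rw [diagonal_apply_eq, norm_div, Complex.norm_real, Real.norm_of_nonneg h2.le]
    field_simp
  · intro y _ hy
    unfold sd
    rw [diagonal_apply_ne _ hy.symm, norm_zero]
    ring
  · intro h
    exact absurd (Finset.mem_univ _) h

omit hP in
theorem hs_sd : hs (sd ρ : Matrix n n ℂ) ≤ 4 * Fintype.card n + 4 * ∑ x, tt ρ x ^ 2 := by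
  have h1 : hs (sd ρ : Matrix n n ℂ) = ∑ x, (1 + (ρ x).im) ^ 2 := by
    unfold hs
    refine Finset.sum_congr rfl fun x _ => ?_
    rw [Finset.sum_eq_single x]
    · unfold sd
      rw [diagonal_apply_eq, Complex.norm_real, Real.norm_eq_abs, sq_abs]
    · intro y _ hy
      unfold sd
      rw [diagonal_apply_ne _ hy.symm, norm_zero]
      ring
    · intro h
      exact absurd (Finset.mem_univ _) h
  rw [h1]
  have h2 : 4 * (Fintype.card n : ℝ) + 4 * ∑ x, tt ρ x ^ 2 = ∑ x, (4 + 4 * tt ρ x ^ 2) := by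
    rw [Finset.sum_add_distrib, Finset.sum_const, Finset.card_univ, nsmul_eq_mul, Finset.mul_sum]
    ring
  rw [h2]
  refine Finset.sum_le_sum fun x _ => ?_
  have h3 := hρ x
  obtain ⟨s, hs⟩ : ∃ s, s = 1 + (ρ x).im := ⟨_, rfl⟩
  obtain ⟨r, hr⟩ : ∃ r, r = ‖ρ x‖ := ⟨_, rfl⟩
  have h4 : tt ρ x = r ^ 2 / s := by
    unfold tt
    rw [← hs, ← hr]
  rw [h4, ← hs]
  rw [← hs] at h3
  have h5 : s ≤ 1 + r := by
    rw [hs, hr]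
    have := Complex.abs_im_le_norm (ρ x)
    have := le_abs_self (ρ x).im
    linarith
  have hr0 : 0 ≤ r := by rw [hr]; exact norm_nonneg _
  obtain ⟨T, hT⟩ : ∃ T, T = r ^ 2 / s := ⟨_, rfl⟩
  rw [← hT]
  have h6 : r ^ 2 = T * s := by
    rw [hT]
    field_simp
  have hT0 : 0 ≤ T := by rw [hT]; positivity
  have h7 : r ^ 2 ≤ 2 * T + T ^ 2 := by nlinarith [sq_nonneg (r - T)]
  nlinarith [sq_nonneg (r - 1), sq_nonneg (T - 1)]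

end pointwise

section res

variable {n : Type} [Fintype n] [DecidableEq n] {K : ℕ} {h : ℝ} {φ : Fin K → n → ℂ} {ρ : n → ℂ}
  {Ft g : Fin K → Matrix n n ℂ} {F' : Matrix n n ℂ}

theorem low_aux {μ D d e : ℝ} (hμ : 0 < μ) (hμ7 : 7 * μ ≤ 1) (hd : 0 ≤ d) (he : 0 ≤ e)
    (h : D ≤ (1 + 7 * μ) * d + e) : (1 - 7 * μ) * D - e ≤ d := by
  by_cases hc : D - e ≤ 0
  · have h2 : (1 - 7 * μ) * D - e ≤ D - e ∨ D < 0 := by
      by_cases hD : D < 0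
      · exact Or.inr hD
      · left
        push Not at hD
        nlinarith
    rcases h2 with h2 | h2
    · linarith
    · nlinarith
  · push Not at hc
    have h3 : (1 - 7 * μ) * (D - e) ≤ (1 - 7 * μ) * ((1 + 7 * μ) * d) := by
      have : 0 ≤ 1 - 7 * μ := by linarith
      gcongr
      linarith
    nlinarith [mul_nonneg (mul_nonneg hμ.le hμ.le) hd, mul_nonneg hμ.le he]

theorem psd_wm (φ : Fin K → n → ℂ) (A : Fin K → Matrix n n ℂ) (hA : ∀ j, (A j).PosSemidef) :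
    (Wm φ A).PosSemidef :=
  posSemidef_sum _ fun j _ => (hA j).conjTranspose_mul_mul_same _

theorem hs_sub_psd (X Y : Matrix n n ℂ) (hX : X.PosSemidef) (hXY : (Y - X).PosSemidef) :
    hs X ≤ hs Y := hs_mono X Y hX hXY

theorem fin_aux {R xm b dm dz dp e1 e2 Dm Dz W1 W2 E0 μ N T a3 a2 a : ℝ}
    (m13 : R ≤ 2 * xm + 2 * b) (b2 : b ≤ (W1 - dm + (W2 - dz)) / 2)
    (l1 : (1 - 7 * μ) * Dm - 8 * a3 * e1 ≤ dm) (l2 : (1 - 7 * μ) * Dz - 8 * a3 * e2 ≤ dz)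
    (m3 : xm ≤ 3 / 2 * (a * dp + a * dm + 2 * a2 * e1 + 2 * a2 * e2))
    (k1 : a3 * e1 ≤ a3 * E0) (k2 : a3 * e2 ≤ a3 * E0) (k3 : a2 * e1 ≤ a2 * E0)
    (k4 : a2 * e2 ≤ a2 * E0) (k5 : a * dm ≤ a * W1) (k6 : a * dp ≤ a * (2 * W2 + 128 * (N + T))) :
    R ≤ W1 + W2 - (1 - 7 * μ) * (Dm + Dz) + 16 * a3 * E0 +
      3 * (a * (2 * W2 + 128 * (N + T) + W1) + 4 * a2 * E0) := by
  linarith

/-- **the pointwise bound of the residual** -/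
theorem res_le (hs0 : Sq K h φ ρ Ft g F') (hρ : ∀ x, 0 < 1 + (ρ x).im) (μ : ℝ) (hμ : 0 < μ)
    (hμ7 : 7 * μ ≤ 1) (W1 W2 E0 Tq : ℝ) (hW1 : W1 = hs (Wm φ fun j => Dm (Ft j)))
    (hW2 : W2 = hs (Wz φ fun j => Dz (Ft j))) (hTq : Tq = ∑ x, tt ρ x ^ 2)
    (hE0 : 3 / 4 * wh (uq ρ) (Wz φ fun j => Dz (Ft j)) + 3 / 4 * wh (uq ρ)
      (Wm φ fun j => Dm (Ft j)) + 12 * Tq ≤ E0) :
    hs (Xx F' - Wx φ fun j => Xx (Ft j)) ≤ W1 + W2 - (1 - 7 * μ) * (hs (Dm F') + hs (Dz F')) +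
      16 * μ⁻¹ ^ 3 * E0 + 3 * (μ ^ 2 * (2 * W2 + 128 * (Fintype.card n + Tq) + W1) +
        4 * μ⁻¹ ^ 2 * E0) := by
  have hμ1 : μ ≤ 1 := by linarith
  have hF := hs0.ipos
  obtain ⟨β, b1, b2, b3, b4⟩ := slack hs0
  have m1 := per_m F' ρ hF μ hμ hμ1
  have m2 := per_z F' ρ hF μ hμ hμ1
  have m3 := per_x F' ρ hF μ hμ hμ1
  have m4 := em_le F' ρ hF hρ _ _ b3 b4
  have m5 := ez_le F' ρ hF hρ _ _ b3 b4
  have m6 := wh_sd (h := h) hs0.hpos hρ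
  have m7 := hs_sd (h := h) hs0.hpos hρ
  rw [← hTq] at m6 m7
  rw [m6] at m4 m5
  have m8 : hs (em F' ρ) ≤ E0 := m4.trans hE0
  have m9 : hs (ez F' ρ) ≤ E0 := m5.trans hE0
  have m10 := hs_sub_psd _ _ (d0m_psd F' ρ hF) b3
  have m11 := hs_sub_psd _ _ (d0z_psd F' ρ hF) b4
  rw [← hW1] at m10 b2
  rw [← hW2] at m11 b2
  have m12 : hs (d0p F' ρ) ≤ 2 * W2 + 128 * (Fintype.card n + Tq) := by
    rw [d0_eq F' ρ hF]
    have e1 := hs_add (d0z F' ρ) ((4 : ℂ) • sd ρ)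
    rw [hs_smul] at e1
    norm_num at e1
    linarith
  have hβ : Xx F' - Wx φ (fun j => Xx (Ft j)) = (Xx F' - x0 F' ρ) + (-β) := by
    rw [b1]
    abel
  have m13 := hs_add (Xx F' - x0 F' ρ) (-β)
  rw [← hβ, hs_neg] at m13
  have n1 := hs_nonneg (d0m F' ρ)
  have n2 := hs_nonneg (d0z F' ρ)
  have n3 := hs_nonneg (em F' ρ)
  have n4 := hs_nonneg (ez F' ρ)
  have n5 : 0 ≤ μ⁻¹ ^ 3 := by positivity
  have n6 : 0 ≤ μ⁻¹ ^ 2 := by positivity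
  have n7 : 0 ≤ μ ^ 2 := by positivity
  have n8 : 0 ≤ 8 * μ⁻¹ ^ 3 * hs (em F' ρ) := mul_nonneg (by positivity) n3
  have n9 : 0 ≤ 8 * μ⁻¹ ^ 3 * hs (ez F' ρ) := mul_nonneg (by positivity) n4
  have l1 := low_aux hμ hμ7 n1 n8 m1
  have l2 := low_aux hμ hμ7 n2 n9 m2
  have k1 : μ⁻¹ ^ 3 * hs (em F' ρ) ≤ μ⁻¹ ^ 3 * E0 := mul_le_mul_of_nonneg_left m8 n5
  have k2 : μ⁻¹ ^ 3 * hs (ez F' ρ) ≤ μ⁻¹ ^ 3 * E0 := mul_le_mul_of_nonneg_left m9 n5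
  have k3 : μ⁻¹ ^ 2 * hs (em F' ρ) ≤ μ⁻¹ ^ 2 * E0 := mul_le_mul_of_nonneg_left m8 n6
  have k4 : μ⁻¹ ^ 2 * hs (ez F' ρ) ≤ μ⁻¹ ^ 2 * E0 := mul_le_mul_of_nonneg_left m9 n6
  have k5 : μ ^ 2 * hs (d0m F' ρ) ≤ μ ^ 2 * W1 := mul_le_mul_of_nonneg_left m10 n7
  have k6 : μ ^ 2 * hs (d0p F' ρ) ≤ μ ^ 2 * (2 * W2 + 128 * (Fintype.card n + Tq)) :=
    mul_le_mul_of_nonneg_left m12 n7
  exact fin_aux m13 b2 l1 l2 m3 k1 k2 k3 k4 k5 k6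

end res

section rand

variable {n Ω : Type} [Fintype n] [DecidableEq n] [MeasurableSpace Ω] {P : Measure Ω}
  [IsProbabilityMeasure P]

theorem hs_int' {G : Ω → Matrix n n ℂ} (hi : ∀ j k, Integrable (fun ω => ‖G ω j k‖ ^ 2) P) :
    Integrable (fun ω => hs (G ω)) P ∧ ∫ ω, hs (G ω) ∂P = ∑ j, ∑ k, ∫ ω, ‖G ω j k‖ ^ 2 ∂P := by
  unfold hs
  constructor
  · exact integrable_finsetSum _ fun j _ => integrable_finsetSum _ fun k _ => hi j k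
  · rw [integral_finsetSum _ fun j _ => integrable_finsetSum _ fun k _ => hi j k]
    exact Finset.sum_congr rfl fun j _ => integral_finsetSum _ fun k _ => hi j k

/-- linear combinations -/
theorem int_lc {m : ℕ} (f : Fin m → Ω → ℝ) (hf : ∀ i, Integrable (f i) P) (c : Fin m → ℝ)
    (c0 : ℝ) (g : Ω → ℝ) (hg : ∀ ω, g ω = c0 + ∑ i, c i * f i ω) :
    Integrable g P ∧ ∫ ω, g ω ∂P = c0 + ∑ i, c i * ∫ ω, f i ω ∂P := by
  have h1 : g = fun ω => c0 + ∑ i, c i * f i ω := funext hg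
  have h2 : Integrable (fun ω => ∑ i, c i * f i ω) P :=
    integrable_finsetSum _ fun i _ => (hf i).const_mul _
  refine ⟨by rw [h1]; exact (integrable_const _).add h2, ?_⟩
  rw [h1, integral_add (integrable_const _) h2, integral_finsetSum _ fun i _ =>
    (hf i).const_mul _]
  simp [integral_const_mul]

/-- a sum of independent copies of a product of independent functions -/
theorem ent {K : ℕ} (τ : Fin K → Ω → Ω) (hτ : ∀ i, MeasurePreserving (τ i) P P)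
    (hind : ∀ i j, i ≠ j → IndepFun (τ i) (τ j) P) (ψ A : Ω → ℂ) (hψ : Measurable ψ)
    (hA : Measurable A) (M1 M2 : ℝ) (h1 : ∀ ω, ‖ψ ω‖ ≤ M1) (h2 : ∀ ω, ‖A ω‖ ≤ M2)
    (hi : IndepFun ψ A P) (δ : ℝ) (hδ : K * ∫ ω, ‖ψ ω‖ ^ 2 ∂P ≤ δ)
    (hq : K * ‖∫ ω, ψ ω ∂P‖ ≤ 1) :
    ∫ ω, ‖∑ j, ψ (τ j ω) * A (τ j ω)‖ ^ 2 ∂P ≤ δ * ∫ ω, ‖A ω‖ ^ 2 ∂P + ‖∫ ω, A ω ∂P‖ ^ 2 ∧
      ∫ ω, ∑ j, ψ (τ j ω) * A (τ j ω) ∂P = (K * ∫ ω, ψ ω ∂P) * ∫ ω, A ω ∂P ∧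
      Integrable (fun ω => ‖∑ j, ψ (τ j ω) * A (τ j ω)‖ ^ 2) P ∧
      Integrable (fun ω => ∑ j, ψ (τ j ω) * A (τ j ω)) P := by
  have hM1 : 0 ≤ M1 := by
    obtain ⟨ω0⟩ : Nonempty Ω := nonempty_of_isProbabilityMeasure P
    exact (norm_nonneg _).trans (h1 ω0)
  have hfm : Measurable fun ω => ψ ω * A ω := hψ.mul hA
  have hfb : ∀ ω, ‖ψ ω * A ω‖ ≤ M1 * M2 := by
    intro ω
    rw [norm_mul]
    exact mul_le_mul (h1 ω) (h2 ω) (norm_nonneg _) hM1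
  have e1 := sum_two τ hτ hind (fun ω => ψ ω * A ω) hfm (M1 * M2) hfb
  have e2 : ∫ ω, ‖ψ ω * A ω‖ ^ 2 ∂P = (∫ ω, ‖ψ ω‖ ^ 2 ∂P) * ∫ ω, ‖A ω‖ ^ 2 ∂P := by
    have := hi.integral_fun_comp_mul_comp (f := fun z : ℂ => ‖z‖ ^ 2) (g := fun z : ℂ => ‖z‖ ^ 2)
      hψ.aemeasurable hA.aemeasurable (by fun_prop) (by fun_prop)
    rw [← this]
    simp only [norm_mul, mul_pow]
  have e3 : ∫ ω, ψ ω * A ω ∂P = (∫ ω, ψ ω ∂P) * ∫ ω, A ω ∂P := by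
    exact hi.integral_fun_comp_mul_comp (f := fun z : ℂ => z) (g := fun z : ℂ => z)
      hψ.aemeasurable hA.aemeasurable (by fun_prop) (by fun_prop)
  have i1 : ∀ j, Integrable (fun ω => ψ (τ j ω) * A (τ j ω)) P := fun j =>
    (hτ j).integrable_comp_of_integrable (bint hfm hfb)
  refine ⟨?_, ?_, ?_, integrable_finsetSum _ fun j _ => i1 j⟩
  · refine e1.trans ?_
    rw [e2, e3, norm_mul, mul_pow]
    have a1 : 0 ≤ ∫ ω, ‖A ω‖ ^ 2 ∂P := integral_nonneg fun ω => by positivity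
    have a2 : (K : ℝ) ^ 2 * (‖∫ ω, ψ ω ∂P‖ ^ 2 * ‖∫ ω, A ω ∂P‖ ^ 2) =
        (K * ‖∫ ω, ψ ω ∂P‖) ^ 2 * ‖∫ ω, A ω ∂P‖ ^ 2 := by ring
    have a3 : (K * ‖∫ ω, ψ ω ∂P‖) ^ 2 ≤ 1 ^ 2 := by gcongr
    rw [a2, ← mul_assoc]
    have a4 : (K : ℝ) * (∫ ω, ‖ψ ω‖ ^ 2 ∂P) * ∫ ω, ‖A ω‖ ^ 2 ∂P ≤ δ * ∫ ω, ‖A ω‖ ^ 2 ∂P := by
      gcongr
    have a5 : (K * ‖∫ ω, ψ ω ∂P‖) ^ 2 * ‖∫ ω, A ω ∂P‖ ^ 2 ≤ 1 ^ 2 * ‖∫ ω, A ω ∂P‖ ^ 2 := by
      gcongr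
    linarith
  · rw [integral_finsetSum _ fun j _ => i1 j]
    have : ∀ j, ∫ ω, ψ (τ j ω) * A (τ j ω) ∂P = (∫ ω, ψ ω ∂P) * ∫ ω, A ω ∂P := by
      intro j
      rw [← e3]
      exact mp_int (hτ j) hfm
    simp only [this]
    rw [Finset.sum_const, Finset.card_univ, Fintype.card_fin, nsmul_eq_mul]
    ring
  · refine bintr ?_ (M := (K * (M1 * M2)) ^ 2) fun ω => ?_
    · exact (Finset.measurable_fun_sum _ fun i _ => hfm.comp (hτ i).measurable).norm.pow_const 2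
    · rw [abs_of_nonneg (by positivity)]
      have : ‖∑ i, ψ (τ i ω) * A (τ i ω)‖ ≤ K * (M1 * M2) := by
        refine (norm_sum_le _ _).trans ?_
        refine (Finset.sum_le_sum fun i _ => hfb (τ i ω)).trans ?_
        rw [Finset.sum_const, Finset.card_univ, Fintype.card_fin, nsmul_eq_mul]
      gcongr

/-- the family of the children -/
def fam {K : ℕ} (τ : Fin K → Ω → Ω) (φ : Ω → n → ℂ) (ω : Ω) : Fin K → n → ℂ :=
  fun j => φ (τ j ω)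

variable (P) in
/-- the data -/
structure Dt (K : ℕ) (h ε δ T M B : ℝ) (τ : Fin K → Ω → Ω) (φ : Ω → n → ℂ)
    (ρ : (Fin K → n → ℂ) → n → ℂ) (V : Matrix n n ℂ) (F g : Ω → Matrix n n ℂ) : Prop where
  εpos : 0 < ε
  εle : 10 ^ 6 * ε ≤ 1
  δle : 1000 * δ ≤ 1
  Tle : T ≤ (1 / 10 ^ 6) ^ 4
  mp : ∀ i, MeasurePreserving (τ i) P P
  ind : ∀ i j, i ≠ j → IndepFun (τ i) (τ j) P
  step : ∀ ω, Sq K h (fam τ φ ω) (ρ (fam τ φ ω)) (fun j => pt ε V (F (τ j ω)))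
    (fun j => g (τ j ω)) (F ω)
  ne : ∀ ω x, φ ω x ≠ 0
  B0 : 0 ≤ B
  bφ : ∀ ω x, ‖φ ω x‖ ≤ B
  mφ : Measurable φ
  mρ : Measurable ρ
  herm : Vᴴ = V
  con : ∀ X : Matrix n n ℂ, hs (V * X * V) ≤ hs X
  pos : ∀ ω, (Imm (F ω)).PosDef
  ind1m : ∀ x y, IndepFun φ (fun ω => Dm (pt ε V (F ω)) x y) P
  ind1z : ∀ x y, IndepFun φ (fun ω => Dz (pt ε V (F ω)) x y) P
  ind1x : ∀ x y, IndepFun φ (fun ω => Xx (pt ε V (F ω)) x y) P
  ind2m : ∀ j x y, IndepFun (fam τ φ) (fun ω => Dm (pt ε V (F (τ j ω))) x y) P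
  ind2z : ∀ j x y, IndepFun (fam τ φ) (fun ω => Dz (pt ε V (F (τ j ω))) x y) P
  m2 : ∀ x, K * ∫ ω, ‖φ ω x‖ ^ 2 ∂P ≤ 1
  m4 : ∀ x, K * ∫ ω, ‖φ ω x‖ ^ 4 ∂P ≤ δ
  q : ∀ x y, 1 ≤ ‖1 - K * ∫ ω, φ ω x * φ ω y ∂P‖
  Ti : ∀ x, Integrable (fun ω => tt (ρ (fam τ φ ω)) x ^ 2) P
  Tm : ∀ x, ∫ ω, tt (ρ (fam τ φ ω)) x ^ 2 ∂P ≤ T
  mDm : ∀ x y, Measurable fun ω => Dm (F ω) x y
  mDz : ∀ x y, Measurable fun ω => Dz (F ω) x y
  mXx : ∀ x y, Measurable fun ω => Xx (F ω) x y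
  tDm : ∀ x y, Measurable fun ω => Dm (pt ε V (F ω)) x y
  tDz : ∀ x y, Measurable fun ω => Dz (pt ε V (F ω)) x y
  tXx : ∀ x y, Measurable fun ω => Xx (pt ε V (F ω)) x y
  bdd : ∀ ω, hs (Dp (F ω)) ≤ M
  bdt : ∀ ω, hs (Dp (pt ε V (F ω))) ≤ M

variable {K : ℕ} {h ε δ T M B : ℝ} {τ : Fin K → Ω → Ω} {φ : Ω → n → ℂ}
  {ρ : (Fin K → n → ℂ) → n → ℂ} {V : Matrix n n ℂ} {F g : Ω → Matrix n n ℂ}
  (D : Dt P K h ε δ T M B τ φ ρ V F g)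

include D

theorem Dt.pt_pos (ω : Ω) : (Imm (pt ε V (F ω))).PosDef := by
  rw [imm_pt _ _ _ D.herm]
  exact D.pos ω

theorem Dt.ρpos (ω : Ω) (x : n) : 0 < 1 + (ρ (fam τ φ ω) x).im := by
  have hs := D.step ω
  rw [hs.eP x]
  have h1 := hs.hpos
  have hK : 0 < K := Nat.pos_of_ne_zero hs.K0
  have h2 : 0 < ∑ j, ‖fam τ φ ω j x‖ ^ 2 := by
    refine Finset.sum_pos (fun j _ => ?_) ⟨⟨0, hK⟩, Finset.mem_univ _⟩
    have := norm_pos_iff.2 (D.ne (τ j ω) x)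
    unfold fam
    positivity
  positivity

theorem Dt.bd (ω : Ω) : hs (Dm (F ω)) ≤ M ∧ hs (Dz (F ω)) ≤ M ∧ hs (Xx (F ω)) ≤ M := by
  have h1 := D.pos ω
  have h2 := (xx_le_dp _ h1).trans (D.bdd ω)
  exact ⟨(dm_le_xx _ h1).trans h2, (dz_le_xx _ h1).trans h2, h2⟩

theorem Dt.bt (ω : Ω) : hs (Dm (pt ε V (F ω))) ≤ M ∧ hs (Dz (pt ε V (F ω))) ≤ M ∧
    hs (Xx (pt ε V (F ω))) ≤ M := by
  have h1 := D.pt_pos ω
  have h2 := (xx_le_dp _ h1).trans (D.bdt ω)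
  exact ⟨(dm_le_xx _ h1).trans h2, (dz_le_xx _ h1).trans h2, h2⟩

omit D in
theorem sq_entry_int {G : Ω → Matrix n n ℂ} (hm : ∀ j k, Measurable fun ω => G ω j k)
    (hb : ∀ ω, hs (G ω) ≤ M) (x y : n) : Integrable (fun ω => ‖G ω x y‖ ^ 2) P := by
  refine bintr ((hm x y).norm.pow_const 2) (M := M) fun ω => ?_
  rw [abs_of_nonneg (by positivity)]
  exact (entry_le _ _ _).trans (hb ω)

omit D in
theorem entry_sqrt {G : Ω → Matrix n n ℂ} (hb : ∀ ω, hs (G ω) ≤ M) (x y : n) (ω : Ω) :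
    ‖G ω x y‖ ≤ Real.sqrt M := by
  apply Real.le_sqrt_of_sq_le
  exact (entry_le _ _ _).trans (hb ω)

theorem Dt.psi (x y : n) (ψ : Ω → ℂ) (hψ : ∀ ω, ‖ψ ω‖ = ‖φ ω x‖ * ‖φ ω y‖) :
    K * ∫ ω, ‖ψ ω‖ ^ 2 ∂P ≤ δ ∧ K * ‖∫ ω, ψ ω ∂P‖ ≤ 1 := by
  have hm : ∀ x, Measurable fun ω => φ ω x := fun x => (measurable_pi_apply x).comp D.mφ
  have i4 : ∀ x, Integrable (fun ω => ‖φ ω x‖ ^ 4) P := by
    intro x
    refine bintr ((hm x).norm.pow_const 4) (M := B ^ 4) fun ω => ?_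
    rw [abs_of_nonneg (by positivity)]
    have := D.bφ ω x
    gcongr
  have i2 : ∀ x, Integrable (fun ω => ‖φ ω x‖ ^ 2) P := by
    intro x
    refine bintr ((hm x).norm.pow_const 2) (M := B ^ 2) fun ω => ?_
    rw [abs_of_nonneg (by positivity)]
    have := D.bφ ω x
    gcongr
  have hK : (0 : ℝ) ≤ K := Nat.cast_nonneg K
  have m4x := D.m4 x
  have m4y := D.m4 y
  have m2x := D.m2 x
  have m2y := D.m2 y
  constructor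
  · have h1 : ∫ ω, ‖ψ ω‖ ^ 2 ∂P ≤ ∫ ω, (1 / 2 * ‖φ ω x‖ ^ 4 + 1 / 2 * ‖φ ω y‖ ^ 4) ∂P := by
      refine integral_mono_of_nonneg (Filter.Eventually.of_forall fun ω => by positivity)
        (((i4 x).const_mul _).add ((i4 y).const_mul _)) (Filter.Eventually.of_forall fun ω => ?_)
      show ‖ψ ω‖ ^ 2 ≤ 1 / 2 * ‖φ ω x‖ ^ 4 + 1 / 2 * ‖φ ω y‖ ^ 4
      rw [hψ]
      nlinarith [sq_nonneg (‖φ ω x‖ ^ 2 - ‖φ ω y‖ ^ 2)]
    rw [integral_add ((i4 x).const_mul _) ((i4 y).const_mul _), integral_const_mul,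
      integral_const_mul] at h1
    have h2 := mul_le_mul_of_nonneg_left h1 hK
    linarith
  · have h1 : ‖∫ ω, ψ ω ∂P‖ ≤ ∫ ω, (1 / 2 * ‖φ ω x‖ ^ 2 + 1 / 2 * ‖φ ω y‖ ^ 2) ∂P := by
      refine (norm_integral_le_integral_norm _).trans ?_
      refine integral_mono_of_nonneg (Filter.Eventually.of_forall fun ω => by positivity)
        (((i2 x).const_mul _).add ((i2 y).const_mul _)) (Filter.Eventually.of_forall fun ω => ?_)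
      show ‖ψ ω‖ ≤ 1 / 2 * ‖φ ω x‖ ^ 2 + 1 / 2 * ‖φ ω y‖ ^ 2
      rw [hψ]
      nlinarith [sq_nonneg (‖φ ω x‖ - ‖φ ω y‖)]
    rw [integral_add ((i2 x).const_mul _) ((i2 y).const_mul _), integral_const_mul,
      integral_const_mul] at h1
    have h2 := mul_le_mul_of_nonneg_left h1 hK
    linarith

theorem Dt.psi_b (x y : n) (ψ : Ω → ℂ) (hψ : ∀ ω, ‖ψ ω‖ = ‖φ ω x‖ * ‖φ ω y‖) (ω : Ω) :
    ‖ψ ω‖ ≤ B * B := by
  rw [hψ]
  exact mul_le_mul (D.bφ ω x) (D.bφ ω y) (norm_nonneg _) D.B0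

theorem Dt.phm (x : n) : Measurable fun ω => φ ω x := (measurable_pi_apply x).comp D.mφ

theorem Dt.wm_int : Integrable (fun ω => hs (Wm (fam τ φ ω) fun j => Dm (pt ε V (F (τ j ω))))) P ∧
    ∫ ω, hs (Wm (fam τ φ ω) fun j => Dm (pt ε V (F (τ j ω)))) ∂P ≤
      (1 + δ) * ∫ ω, hs (Dm (pt ε V (F ω))) ∂P := by
  have key : ∀ x y, ∫ ω, ‖Wm (fam τ φ ω) (fun j => Dm (pt ε V (F (τ j ω)))) x y‖ ^ 2 ∂P ≤
      (1 + δ) * ∫ ω, ‖Dm (pt ε V (F ω)) x y‖ ^ 2 ∂P ∧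
      Integrable (fun ω => ‖Wm (fam τ φ ω) (fun j => Dm (pt ε V (F (τ j ω)))) x y‖ ^ 2) P := by
    intro x y
    have h0 : ∀ ω, ‖star (φ ω x) * φ ω y‖ = ‖φ ω x‖ * ‖φ ω y‖ := fun ω => by
      rw [norm_mul, norm_star]
    have hG : Measurable fun f : n → ℂ => star (f x) * f y := by fun_prop
    have h1 := D.psi x y (fun ω => star (φ ω x) * φ ω y) h0
    have h2 := ent τ D.mp D.ind (fun ω => star (φ ω x) * φ ω y)
      (fun ω => Dm (pt ε V (F ω)) x y) (hG.comp D.mφ) (D.tDm x y) (B * B) (Real.sqrt M)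
      (D.psi_b x y _ h0) (entry_sqrt (fun ω => (D.bt ω).1) x y)
      ((D.ind1m x y).comp hG measurable_id) δ h1.1 h1.2
    simp only [wm_apply, fam]
    refine ⟨h2.1.trans ?_, h2.2.2.1⟩
    have h3 := norm_int_sq (P := P) (fun ω => Dm (pt ε V (F ω)) x y) (D.tDm x y) _
      (entry_sqrt (fun ω => (D.bt ω).1) x y)
    linarith
  have h1 := hs_int' (P := P) (G := fun ω => Wm (fam τ φ ω) fun j => Dm (pt ε V (F (τ j ω))))
    fun x y => (key x y).2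
  have h2 := hs_int' (P := P) (G := fun ω => Dm (pt ε V (F ω)))
    fun x y => sq_entry_int D.tDm (fun ω => (D.bt ω).1) x y
  refine ⟨h1.1, ?_⟩
  rw [h1.2, h2.2, Finset.mul_sum]
  refine Finset.sum_le_sum fun x _ => ?_
  rw [Finset.mul_sum]
  exact Finset.sum_le_sum fun y _ => (key x y).1

theorem Dt.wz_int : Integrable (fun ω => hs (Wz (fam τ φ ω) fun j => Dz (pt ε V (F (τ j ω))))) P ∧
    ∫ ω, hs (Wz (fam τ φ ω) fun j => Dz (pt ε V (F (τ j ω)))) ∂P ≤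
      (1 + δ) * ∫ ω, hs (Dz (pt ε V (F ω))) ∂P := by
  have key : ∀ x y, ∫ ω, ‖Wz (fam τ φ ω) (fun j => Dz (pt ε V (F (τ j ω)))) x y‖ ^ 2 ∂P ≤
      (1 + δ) * ∫ ω, ‖Dz (pt ε V (F ω)) x y‖ ^ 2 ∂P ∧
      Integrable (fun ω => ‖Wz (fam τ φ ω) (fun j => Dz (pt ε V (F (τ j ω)))) x y‖ ^ 2) P := by
    intro x y
    have h0 : ∀ ω, ‖φ ω x * star (φ ω y)‖ = ‖φ ω x‖ * ‖φ ω y‖ := fun ω => by
      rw [norm_mul, norm_star]
    have hG : Measurable fun f : n → ℂ => f x * star (f y) := by fun_prop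
    have h1 := D.psi x y (fun ω => φ ω x * star (φ ω y)) h0
    have h2 := ent τ D.mp D.ind (fun ω => φ ω x * star (φ ω y))
      (fun ω => Dz (pt ε V (F ω)) x y) (hG.comp D.mφ) (D.tDz x y) (B * B) (Real.sqrt M)
      (D.psi_b x y _ h0) (entry_sqrt (fun ω => (D.bt ω).2.1) x y)
      ((D.ind1z x y).comp hG measurable_id) δ h1.1 h1.2
    simp only [wz_apply, fam]
    refine ⟨h2.1.trans ?_, h2.2.2.1⟩
    have h3 := norm_int_sq (P := P) (fun ω => Dz (pt ε V (F ω)) x y) (D.tDz x y) _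
      (entry_sqrt (fun ω => (D.bt ω).2.1) x y)
    linarith
  have h1 := hs_int' (P := P) (G := fun ω => Wz (fam τ φ ω) fun j => Dz (pt ε V (F (τ j ω))))
    fun x y => (key x y).2
  have h2 := hs_int' (P := P) (G := fun ω => Dz (pt ε V (F ω)))
    fun x y => sq_entry_int D.tDz (fun ω => (D.bt ω).2.1) x y
  refine ⟨h1.1, ?_⟩
  rw [h1.2, h2.2, Finset.mul_sum]
  refine Finset.sum_le_sum fun x _ => ?_
  rw [Finset.mul_sum]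
  exact Finset.sum_le_sum fun y _ => (key x y).1

omit D in
theorem ka_meas (mρ : Measurable ρ) (x y : n) (j : Fin K) :
    Measurable fun f : Fin K → n → ℂ => ka (ρ f) f x y j := by
  have h1 : ∀ x, Measurable fun f : Fin K → n → ℂ => ρ f x := fun x =>
    (measurable_pi_apply x).comp mρ
  have h2 : ∀ x, Measurable fun f : Fin K → n → ℂ => uq (ρ f) x := by
    intro x
    unfold uq
    exact (h1 x).div (Complex.measurable_ofReal.comp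
      ((Complex.measurable_im.comp (h1 x)).const_add 1))
  have h3 : ∀ i x, Measurable fun f : Fin K → n → ℂ => ‖f i x‖ := by
    intro i x
    fun_prop
  unfold ka
  exact ((((h2 x).norm.pow_const 2).mul ((h2 y).norm.pow_const 2)).mul
    (Finset.measurable_fun_sum _ fun i _ => (h3 i x).mul (h3 i y))).mul ((h3 j x).mul (h3 j y))

theorem Dt.fam_meas : Measurable (fam τ φ) :=
  measurable_pi_lambda _ fun j => D.mφ.comp (D.mp j).measurable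

theorem Dt.ka_int (x y : n) (j : Fin K) :
    Integrable (fun ω => ka (ρ (fam τ φ ω)) (fam τ φ ω) x y j) P := by
  refine Integrable.mono' (((D.Ti x).add (D.Ti y)).div_const 2)
    ((ka_meas D.mρ x y j).comp D.fam_meas).aestronglyMeasurable
    (Filter.Eventually.of_forall fun ω => ?_)
  rw [Real.norm_of_nonneg (ka_nonneg _ _ _ _ _)]
  have h1 := ka_sum (D.step ω).hpos (D.step ω).eP (D.ρpos ω) x y
  refine le_trans ?_ h1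
  exact Finset.single_le_sum (f := fun j => ka (ρ (fam τ φ ω)) (fam τ φ ω) x y j)
    (fun i _ => ka_nonneg _ _ _ _ _) (Finset.mem_univ j)

theorem Dt.ka_tot (x y : n) :
    ∑ j, ∫ ω, ka (ρ (fam τ φ ω)) (fam τ φ ω) x y j ∂P ≤ T := by
  rw [← integral_finsetSum _ fun j _ => D.ka_int x y j]
  have h1 : ∫ ω, ∑ j, ka (ρ (fam τ φ ω)) (fam τ φ ω) x y j ∂P ≤
      ∫ ω, (tt (ρ (fam τ φ ω)) x ^ 2 + tt (ρ (fam τ φ ω)) y ^ 2) / 2 ∂P :=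
    integral_mono (integrable_finsetSum _ fun j _ => D.ka_int x y j)
      (((D.Ti x).add (D.Ti y)).div_const 2)
      fun ω => ka_sum (D.step ω).hpos (D.step ω).eP (D.ρpos ω) x y
  rw [integral_div, integral_add (D.Ti x) (D.Ti y)] at h1
  have := D.Tm x
  have := D.Tm y
  linarith

/-- the error term -/
theorem Dt.err (A : Ω → Matrix n n ℂ) (hA : ∀ x y, Measurable fun ω => A ω x y)
    (hb : ∀ ω, hs (A ω) ≤ M) (hi : ∀ j x y, IndepFun (fam τ φ) (fun ω => A (τ j ω) x y) P) :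
    Integrable (fun ω => ∑ x, ∑ y, ∑ j, ka (ρ (fam τ φ ω)) (fam τ φ ω) x y j *
      ‖A (τ j ω) x y‖ ^ 2) P ∧
    ∫ ω, ∑ x, ∑ y, ∑ j, ka (ρ (fam τ φ ω)) (fam τ φ ω) x y j * ‖A (τ j ω) x y‖ ^ 2 ∂P ≤
      T * ∫ ω, hs (A ω) ∂P := by
  have hAj : ∀ j x y, Measurable fun ω => A (τ j ω) x y := fun j x y =>
    (hA x y).comp (D.mp j).measurable
  have i1 : ∀ x y j, Integrable (fun ω => ka (ρ (fam τ φ ω)) (fam τ φ ω) x y j *
      ‖A (τ j ω) x y‖ ^ 2) P := by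
    intro x y j
    refine Integrable.mono' ((D.ka_int x y j).mul_const M) ?_
      (Filter.Eventually.of_forall fun ω => ?_)
    · exact (((ka_meas D.mρ x y j).comp D.fam_meas).mul
        ((hAj j x y).norm.pow_const 2)).aestronglyMeasurable
    · have h1 := ka_nonneg (ρ (fam τ φ ω)) (fam τ φ ω) x y j
      rw [Real.norm_of_nonneg (by positivity)]
      have h2 := (entry_le (A (τ j ω)) x y).trans (hb (τ j ω))
      gcongr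
  have e1 : ∀ x y j, ∫ ω, ka (ρ (fam τ φ ω)) (fam τ φ ω) x y j * ‖A (τ j ω) x y‖ ^ 2 ∂P =
      (∫ ω, ka (ρ (fam τ φ ω)) (fam τ φ ω) x y j ∂P) * ∫ ω, ‖A ω x y‖ ^ 2 ∂P := by
    intro x y j
    have h1 := (hi j x y).integral_fun_comp_mul_comp
      (f := fun f : Fin K → n → ℂ => ka (ρ f) f x y j) (g := fun z : ℂ => ‖z‖ ^ 2)
      D.fam_meas.aemeasurable (hAj j x y).aemeasurable
      (ka_meas D.mρ x y j).aestronglyMeasurable (by fun_prop)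
    rw [h1]
    congr 1
    exact mp_intr (D.mp j) (f := fun ω => ‖A ω x y‖ ^ 2) ((hA x y).norm.pow_const 2)
  have i2 : ∀ x y, Integrable (fun ω => ∑ j, ka (ρ (fam τ φ ω)) (fam τ φ ω) x y j *
      ‖A (τ j ω) x y‖ ^ 2) P := fun x y => integrable_finsetSum _ fun j _ => i1 x y j
  have i3 : ∀ x, Integrable (fun ω => ∑ y, ∑ j, ka (ρ (fam τ φ ω)) (fam τ φ ω) x y j *
      ‖A (τ j ω) x y‖ ^ 2) P := fun x => integrable_finsetSum _ fun y _ => i2 x y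
  refine ⟨integrable_finsetSum _ fun x _ => i3 x, ?_⟩
  rw [integral_finsetSum _ fun x _ => i3 x, (hs_int' (P := P) (G := A)
    fun x y => sq_entry_int hA hb x y).2, Finset.mul_sum]
  refine Finset.sum_le_sum fun x _ => ?_
  rw [integral_finsetSum _ fun y _ => i2 x y, Finset.mul_sum]
  refine Finset.sum_le_sum fun y _ => ?_
  rw [integral_finsetSum _ fun j _ => i1 x y j]
  simp only [e1]
  rw [← Finset.sum_mul]
  have h1 : 0 ≤ ∫ ω, ‖A ω x y‖ ^ 2 ∂P := integral_nonneg fun ω => by positivity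
  exact mul_le_mul_of_nonneg_right (D.ka_tot x y) h1

/-- the residual -/
noncomputable def rr (τ : Fin K → Ω → Ω) (φ : Ω → n → ℂ) (ε : ℝ) (V : Matrix n n ℂ)
    (F : Ω → Matrix n n ℂ) (ω : Ω) : Matrix n n ℂ :=
  Xx (F ω) - Wx (fam τ φ ω) fun j => Xx (pt ε V (F (τ j ω)))

theorem Dt.wx_meas (x y : n) : Measurable fun ω =>
    Wx (fam τ φ ω) (fun j => Xx (pt ε V (F (τ j ω)))) x y := by
  simp only [wx_apply, fam]
  exact Finset.measurable_fun_sum _ fun j _ =>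
    ((((D.phm x).mul (D.phm y)).comp (D.mp j).measurable).mul
      ((D.tXx x y).comp (D.mp j).measurable))

theorem Dt.wx_bd (x y : n) (ω : Ω) :
    ‖Wx (fam τ φ ω) (fun j => Xx (pt ε V (F (τ j ω)))) x y‖ ≤ K * (B * B * Real.sqrt M) := by
  rw [wx_apply]
  refine (norm_sum_le _ _).trans ?_
  have h1 : ∀ j, ‖fam τ φ ω j x * fam τ φ ω j y * Xx (pt ε V (F (τ j ω))) x y‖ ≤
      B * B * Real.sqrt M := by
    intro j
    have hB := D.B0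
    rw [norm_mul, norm_mul]
    have e1 : ‖fam τ φ ω j x‖ * ‖fam τ φ ω j y‖ ≤ B * B :=
      mul_le_mul (D.bφ _ _) (D.bφ _ _) (norm_nonneg _) hB
    have e2 := entry_sqrt (G := fun ω => Xx (pt ε V (F ω))) (fun ω => (D.bt ω).2.2) x y (τ j ω)
    exact mul_le_mul e1 e2 (norm_nonneg _) (by positivity)
  refine (Finset.sum_le_sum fun j _ => h1 j).trans ?_
  rw [Finset.sum_const, Finset.card_univ, Fintype.card_fin, nsmul_eq_mul]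

/-- the second moments of the entries of `X` -/
theorem Dt.chi (x y : n) : ∫ ω, ‖Xx (F ω) x y‖ ^ 2 ∂P ≤
    13 * (∫ ω, ‖(Xx (pt ε V (F ω)) - Xx (F ω)) x y‖ ^ 2 ∂P) +
      11 * ∫ ω, ‖rr τ φ ε V F ω x y‖ ^ 2 ∂P := by
  have h0 : ∀ ω, ‖φ ω x * φ ω y‖ = ‖φ ω x‖ * ‖φ ω y‖ := fun ω => norm_mul _ _
  have hG : Measurable fun f : n → ℂ => f x * f y := by fun_prop
  have h1 := D.psi x y (fun ω => φ ω x * φ ω y) h0
  have h2 := ent τ D.mp D.ind (fun ω => φ ω x * φ ω y)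
    (fun ω => Xx (pt ε V (F ω)) x y) (hG.comp D.mφ) (D.tXx x y) (B * B) (Real.sqrt M)
    (D.psi_b x y _ h0) (entry_sqrt (fun ω => (D.bt ω).2.2) x y)
    ((D.ind1x x y).comp hG measurable_id) δ h1.1 h1.2
  have hq := D.q x y
  obtain ⟨q, hqd⟩ : ∃ q, q = (K : ℂ) * ∫ ω, φ ω x * φ ω y ∂P := ⟨_, rfl⟩
  have hq1 : ‖q‖ ≤ 1 := by
    rw [hqd, norm_mul, Complex.norm_natCast]
    exact h1.2
  obtain ⟨f, hf⟩ : ∃ f : Ω → ℂ, f = fun ω => Xx (F ω) x y := ⟨_, rfl⟩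
  obtain ⟨X, hX⟩ : ∃ X : Ω → ℂ, X = fun ω => Xx (pt ε V (F ω)) x y := ⟨_, rfl⟩
  obtain ⟨W, hW⟩ : ∃ W : Ω → ℂ, W = fun ω =>
    Wx (fam τ φ ω) (fun j => Xx (pt ε V (F (τ j ω)))) x y := ⟨_, rfl⟩
  have hWe : ∀ ω, W ω = ∑ j, φ (τ j ω) x * φ (τ j ω) y * X (τ j ω) := by
    intro ω
    rw [hW, hX]
    exact wx_apply _ _ _ _
  obtain ⟨c1, hc1⟩ : ∃ c, c = Real.sqrt M := ⟨_, rfl⟩
  obtain ⟨c2, hc2⟩ : ∃ c, c = K * (B * B * Real.sqrt M) := ⟨_, rfl⟩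
  have fm : Measurable f := by rw [hf]; exact D.mXx x y
  have Xm : Measurable X := by rw [hX]; exact D.tXx x y
  have Wm' : Measurable W := by rw [hW]; exact D.wx_meas x y
  have fb : ∀ ω, ‖f ω‖ ≤ c1 := by
    rw [hf, hc1]
    exact entry_sqrt (fun ω => (D.bd ω).2.2) x y
  have Xb : ∀ ω, ‖X ω‖ ≤ c1 := by
    rw [hX, hc1]
    exact entry_sqrt (fun ω => (D.bt ω).2.2) x y
  have Wb : ∀ ω, ‖W ω‖ ≤ c2 := by
    rw [hW, hc2]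
    exact D.wx_bd x y
  have rb : ∀ ω, ‖f ω - W ω‖ ≤ c1 + c2 := fun ω => (norm_sub_le _ _).trans
    (add_le_add (fb ω) (Wb ω))
  have db : ∀ ω, ‖X ω - f ω‖ ≤ c1 + c1 := fun ω => (norm_sub_le _ _).trans
    (add_le_add (Xb ω) (fb ω))
  have fi : Integrable f P := bint fm fb
  have Xi : Integrable X P := bint Xm Xb
  have Wi : Integrable W P := bint Wm' Wb
  have sqi : ∀ (u : Ω → ℂ) (c : ℝ), Measurable u → (∀ ω, ‖u ω‖ ≤ c) →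
      Integrable (fun ω => ‖u ω‖ ^ 2) P := by
    intro u c hu hb
    refine bintr (hu.norm.pow_const 2) (M := c ^ 2) fun ω => ?_
    rw [abs_of_nonneg (by positivity)]
    have := hb ω
    gcongr
  have g1 : ∫ ω, ‖W ω‖ ^ 2 ∂P ≤ δ * (∫ ω, ‖X ω‖ ^ 2 ∂P) + ‖∫ ω, X ω ∂P‖ ^ 2 := by
    simp only [hWe]
    rw [hX]
    exact h2.1
  have g2 : ∫ ω, W ω ∂P = q * ∫ ω, X ω ∂P := by
    simp only [hWe]
    rw [hX, hqd]
    exact h2.2.1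
  have g3 : (fun ω => (Xx (pt ε V (F ω)) - Xx (F ω)) x y) = fun ω => X ω - f ω := by
    funext ω
    rw [hX, hf, Matrix.sub_apply]
  have g4 : (fun ω => rr τ φ ε V F ω x y) = fun ω => f ω - W ω := by
    funext ω
    rw [hW, hf]
    rfl
  have g3' : ∀ ω, (Xx (pt ε V (F ω)) - Xx (F ω)) x y = X ω - f ω := fun ω => congrFun g3 ω
  have g4' : ∀ ω, rr τ φ ε V F ω x y = f ω - W ω := fun ω => congrFun g4 ω
  have g5 : ∀ ω, Xx (F ω) x y = f ω := fun ω => by rw [hf]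
  simp only [g3', g4', g5]
  have n1 := norm_int_sq (P := P) (fun ω => X ω - f ω) (Xm.sub fm) _ db
  have n2 := norm_int_sq (P := P) (fun ω => f ω - W ω) (fm.sub Wm') _ rb
  rw [integral_sub Xi fi] at n1
  rw [integral_sub fi Wi, g2] at n2
  obtain ⟨fx, hfx⟩ : ∃ fx, fx = ∫ ω, f ω ∂P := ⟨_, rfl⟩
  obtain ⟨Xx', hXx⟩ : ∃ a, a = ∫ ω, X ω ∂P := ⟨_, rfl⟩
  rw [← hXx, ← hfx] at n1 n2
  rw [← hXx] at g1
  obtain ⟨dq, hdq⟩ : ∃ a, a = ∫ ω, ‖X ω - f ω‖ ^ 2 ∂P := ⟨_, rfl⟩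
  obtain ⟨rq, hrq⟩ : ∃ a, a = ∫ ω, ‖f ω - W ω‖ ^ 2 ∂P := ⟨_, rfl⟩
  rw [← hdq] at n1
  rw [← hrq] at n2
  have k1 : ‖fx‖ ≤ ‖fx - q * Xx'‖ + ‖Xx' - fx‖ := by
    have e1 : (1 - q) * fx = (fx - q * Xx') + q * (Xx' - fx) := by ring
    have e2 : ‖(1 - q) * fx‖ ≤ ‖fx - q * Xx'‖ + ‖Xx' - fx‖ := by
      rw [e1]
      refine (norm_add_le _ _).trans ?_
      rw [norm_mul]
      have := norm_nonneg (Xx' - fx)
      nlinarith
    rw [norm_mul] at e2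
    rw [← hqd] at hq
    have := norm_nonneg fx
    nlinarith
  have k2 : ‖fx‖ ^ 2 ≤ 2 * rq + 2 * dq := by
    have e1 : ‖fx‖ ^ 2 ≤ (‖fx - q * Xx'‖ + ‖Xx' - fx‖) ^ 2 := by gcongr
    nlinarith [sq_nonneg (‖fx - q * Xx'‖ - ‖Xx' - fx‖)]
  have k3 : ‖Xx'‖ ^ 2 ≤ 4 * rq + 6 * dq := by
    have e0 : ‖Xx'‖ ≤ ‖fx‖ + ‖Xx' - fx‖ := by
      have : Xx' = fx + (Xx' - fx) := by ring
      conv_lhs => rw [this]
      exact norm_add_le _ _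
    have e1 : ‖Xx'‖ ^ 2 ≤ (‖fx‖ + ‖Xx' - fx‖) ^ 2 := by gcongr
    nlinarith [sq_nonneg (‖fx‖ - ‖Xx' - fx‖)]
  have k4 : ∫ ω, ‖X ω‖ ^ 2 ∂P ≤ 2 * (∫ ω, ‖f ω‖ ^ 2 ∂P) + 2 * dq := by
    rw [hdq, ← integral_const_mul, ← integral_const_mul, ← integral_add
      ((sqi f _ fm fb).const_mul _) ((sqi (fun ω => X ω - f ω) _ (Xm.sub fm) db).const_mul _)]
    refine integral_mono (sqi X _ Xm Xb) (((sqi f _ fm fb).const_mul _).add
      ((sqi (fun ω => X ω - f ω) _ (Xm.sub fm) db).const_mul _)) fun ω => ?_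
    show ‖X ω‖ ^ 2 ≤ 2 * ‖f ω‖ ^ 2 + 2 * ‖X ω - f ω‖ ^ 2
    have e0 : ‖X ω‖ ≤ ‖f ω‖ + ‖X ω - f ω‖ := by
      have : X ω = f ω + (X ω - f ω) := by ring
      conv_lhs => rw [this]
      exact norm_add_le _ _
    have e1 : ‖X ω‖ ^ 2 ≤ (‖f ω‖ + ‖X ω - f ω‖) ^ 2 := by gcongr
    nlinarith [sq_nonneg (‖f ω‖ - ‖X ω - f ω‖)]
  have k5 : ∫ ω, ‖f ω‖ ^ 2 ∂P ≤ 2 * (∫ ω, ‖W ω‖ ^ 2 ∂P) + 2 * rq := by
    rw [hrq, ← integral_const_mul, ← integral_const_mul, ← integral_add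
      ((sqi W _ Wm' Wb).const_mul _) ((sqi (fun ω => f ω - W ω) _ (fm.sub Wm') rb).const_mul _)]
    refine integral_mono (sqi f _ fm fb) (((sqi W _ Wm' Wb).const_mul _).add
      ((sqi (fun ω => f ω - W ω) _ (fm.sub Wm') rb).const_mul _)) fun ω => ?_
    show ‖f ω‖ ^ 2 ≤ 2 * ‖W ω‖ ^ 2 + 2 * ‖f ω - W ω‖ ^ 2
    have e0 : ‖f ω‖ ≤ ‖W ω‖ + ‖f ω - W ω‖ := by
      have : f ω = W ω + (f ω - W ω) := by ring
      conv_lhs => rw [this]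
      exact norm_add_le _ _
    have e1 : ‖f ω‖ ^ 2 ≤ (‖W ω‖ + ‖f ω - W ω‖) ^ 2 := by gcongr
    nlinarith [sq_nonneg (‖W ω‖ - ‖f ω - W ω‖)]
  rw [← hdq, ← hrq]
  have z1 : 0 ≤ ∫ ω, ‖f ω‖ ^ 2 ∂P := integral_nonneg fun ω => by positivity
  have z2 : 0 ≤ ∫ ω, ‖X ω‖ ^ 2 ∂P := integral_nonneg fun ω => by positivity
  have z3 : 0 ≤ dq := by rw [hdq]; exact integral_nonneg fun ω => by positivity
  have z4 : 0 ≤ rq := by rw [hrq]; exact integral_nonneg fun ω => by positivity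
  obtain ⟨fq, hfq⟩ : ∃ a, a = ∫ ω, ‖f ω‖ ^ 2 ∂P := ⟨_, rfl⟩
  obtain ⟨Xq, hXq⟩ : ∃ a, a = ∫ ω, ‖X ω‖ ^ 2 ∂P := ⟨_, rfl⟩
  obtain ⟨Wq, hWq⟩ : ∃ a, a = ∫ ω, ‖W ω‖ ^ 2 ∂P := ⟨_, rfl⟩
  rw [← hfq] at z1 k4 k5 ⊢
  rw [← hXq] at z2 k4 g1
  rw [← hWq] at g1 k5
  have hδ : δ * Xq ≤ 1 / 1000 * Xq := by
    have := D.δle
    have : δ ≤ 1 / 1000 := by linarith
    gcongr
  linarith


theorem Dt.ε1 : ε ≤ 1 := by
  have := D.εle
  have := D.εpos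
  linarith

/-- the perturbation -/
theorem Dt.tilt (ω : Ω) :
    hs (Dm (pt ε V (F ω))) ≤ hs (Dm (F ω)) + ε * (7 * hs (Dm (F ω)) + 16 * hs (Dz (F ω)) +
      256 * Fintype.card n) ∧
    hs (Dz (pt ε V (F ω))) ≤ hs (Dz (F ω)) + ε * (39 * hs (Dz (F ω)) +
      576 * Fintype.card n) ∧
    hs (Xx (pt ε V (F ω)) - Xx (F ω)) ≤ ε * (20 * hs (Dz (F ω)) + 320 * Fintype.card n) := by
  have hp := D.pos ω
  have e0 := D.εpos
  have e1 := D.ε1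
  have h1 := pert_m ε V (F ω) D.herm hp e0 e1
  have h2 := pert_z ε V (F ω) D.herm hp e0 e1
  have h3 := pert_x ε V (F ω) D.herm hp e0 e1
  have h4 : hs (Ee V (F ω)) ≤ 2 * hs (Dz (F ω)) + 32 * Fintype.card n :=
    (D.con _).trans ((inv_le_dp _ hp).trans (dp_le_dz _ hp))
  have h5 := dp_le_dz _ hp
  have h6 := hs_nonneg (Dz (F ω))
  have h7 := hs_nonneg (Dm (F ω))
  have h8 : (0 : ℝ) ≤ Fintype.card n := Nat.cast_nonneg _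
  obtain ⟨a, ha⟩ : ∃ a, a = hs (Dm (F ω)) := ⟨_, rfl⟩
  obtain ⟨b, hb⟩ : ∃ a, a = hs (Dz (F ω)) := ⟨_, rfl⟩
  obtain ⟨e, he⟩ : ∃ a, a = hs (Ee V (F ω)) := ⟨_, rfl⟩
  obtain ⟨c, hc⟩ : ∃ a, a = hs (Dp (F ω)) := ⟨_, rfl⟩
  obtain ⟨N, hN⟩ : ∃ a : ℝ, a = Fintype.card n := ⟨_, rfl⟩
  rw [← ha] at h1 h7 ⊢
  rw [← hb] at h2 h4 h5 h6 ⊢
  rw [← he] at h1 h2 h3 h4
  rw [← hc] at h3 h5
  rw [← hN] at h2 h4 h5 h8 ⊢
  have k1 : ε * e ≤ ε * (2 * b + 32 * N) := by gcongr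
  have k2 : ε ^ 2 * (4 * c + 6 * e) ≤ ε * (10 * (2 * b + 32 * N)) := by
    have z1 : 0 ≤ 10 * (2 * b + 32 * N) := by positivity
    calc ε ^ 2 * (4 * c + 6 * e) ≤ ε ^ 2 * (10 * (2 * b + 32 * N)) := by
          gcongr
          linarith
      _ ≤ ε * (10 * (2 * b + 32 * N)) := by
          have : ε ^ 2 ≤ ε := by nlinarith
          gcongr
  refine ⟨?_, ?_, ?_⟩
  · linarith
  · linarith
  · linarith

/-- the integral of the residual -/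
theorem Dt.rr_int (a b : ℝ) (ha : a = ∫ ω, hs (Dm (F ω)) ∂P) (hb : b = ∫ ω, hs (Dz (F ω)) ∂P) :
    ∫ ω, hs (rr τ φ ε V F ω) ∂P ≤ 1 / 100 * (a + b + Fintype.card n) := by
  obtain ⟨N, hN⟩ : ∃ a : ℝ, a = Fintype.card n := ⟨_, rfl⟩
  have hN0 : 0 ≤ N := by rw [hN]; exact Nat.cast_nonneg _
  rw [← hN]
  have ia := (hs_int' (P := P) (G := fun ω => Dm (F ω))
    fun x y => sq_entry_int D.mDm (fun ω => (D.bd ω).1) x y).1
  have ib := (hs_int' (P := P) (G := fun ω => Dz (F ω))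
    fun x y => sq_entry_int D.mDz (fun ω => (D.bd ω).2.1) x y).1
  have iat := (hs_int' (P := P) (G := fun ω => Dm (pt ε V (F ω)))
    fun x y => sq_entry_int D.tDm (fun ω => (D.bt ω).1) x y).1
  have ibt := (hs_int' (P := P) (G := fun ω => Dz (pt ε V (F ω)))
    fun x y => sq_entry_int D.tDz (fun ω => (D.bt ω).2.1) x y).1
  obtain ⟨at', hat⟩ : ∃ c, c = ∫ ω, hs (Dm (pt ε V (F ω))) ∂P := ⟨_, rfl⟩
  obtain ⟨bt', hbt⟩ : ∃ c, c = ∫ ω, hs (Dz (pt ε V (F ω))) ∂P := ⟨_, rfl⟩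
  have a0 : 0 ≤ a := by rw [ha]; exact integral_nonneg fun ω => hs_nonneg _
  have b0 : 0 ≤ b := by rw [hb]; exact integral_nonneg fun ω => hs_nonneg _
  have hε0 := D.εpos
  have hε : ε ≤ 1 / 10 ^ 6 := by
    have := D.εle
    linarith
  have t1 : at' ≤ a + ε * (7 * a + 16 * b + 256 * N) := by
    rw [hat]
    have j1 := int_lc (P := P) ![fun ω => hs (Dm (F ω)), fun ω => hs (Dz (F ω))]
      (by intro i; fin_cases i; exacts [ia, ib]) ![1 + 7 * ε, 16 * ε] (256 * ε * N)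
      (fun ω => hs (Dm (F ω)) + ε * (7 * hs (Dm (F ω)) + 16 * hs (Dz (F ω)) + 256 * N))
      (by intro ω; simp [Fin.sum_univ_succ]; ring)
    have e1 : ∫ ω, hs (Dm (pt ε V (F ω))) ∂P ≤ ∫ ω, (hs (Dm (F ω)) + ε * (7 * hs (Dm (F ω)) +
        16 * hs (Dz (F ω)) + 256 * N)) ∂P := by
      refine integral_mono iat j1.1 fun ω => ?_
      have := (D.tilt ω).1
      rw [← hN] at this
      exact this
    rw [j1.2] at e1
    simp [Fin.sum_univ_succ, ← ha, ← hb] at e1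
    linarith
  have t2 : bt' ≤ b + ε * (39 * b + 576 * N) := by
    rw [hbt]
    have j1 := int_lc (P := P) ![fun ω => hs (Dz (F ω))]
      (by intro i; fin_cases i; exacts [ib]) ![1 + 39 * ε] (576 * ε * N)
      (fun ω => hs (Dz (F ω)) + ε * (39 * hs (Dz (F ω)) + 576 * N))
      (by intro ω; simp; ring)
    have e1 : ∫ ω, hs (Dz (pt ε V (F ω))) ∂P ≤ ∫ ω, (hs (Dz (F ω)) + ε * (39 * hs (Dz (F ω)) +
        576 * N)) ∂P := by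
      refine integral_mono ibt j1.1 fun ω => ?_
      have := (D.tilt ω).2.1
      rw [← hN] at this
      exact this
    rw [j1.2] at e1
    simp [← hb] at e1
    linarith
  obtain ⟨w1i, w1⟩ := D.wm_int
  obtain ⟨w2i, w2⟩ := D.wz_int
  rw [← hat] at w1
  rw [← hbt] at w2
  obtain ⟨s1i, s1⟩ := D.err (fun ω => Dm (pt ε V (F ω))) D.tDm (fun ω => (D.bt ω).1) D.ind2m
  obtain ⟨s2i, s2⟩ := D.err (fun ω => Dz (pt ε V (F ω))) D.tDz (fun ω => (D.bt ω).2.1) D.ind2z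
  rw [← hat] at s1
  rw [← hbt] at s2
  obtain ⟨S1, hS1⟩ : ∃ f : Ω → ℝ, f = fun ω => ∑ x, ∑ y, ∑ j, ka (ρ (fam τ φ ω)) (fam τ φ ω) x y j *
      ‖Dm (pt ε V (F (τ j ω))) x y‖ ^ 2 := ⟨_, rfl⟩
  obtain ⟨S2, hS2⟩ : ∃ f : Ω → ℝ, f = fun ω => ∑ x, ∑ y, ∑ j, ka (ρ (fam τ φ ω)) (fam τ φ ω) x y j *
      ‖Dz (pt ε V (F (τ j ω))) x y‖ ^ 2 := ⟨_, rfl⟩
  obtain ⟨Tq, hTq⟩ : ∃ f : Ω → ℝ, f = fun ω => ∑ x, tt (ρ (fam τ φ ω)) x ^ 2 := ⟨_, rfl⟩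
  obtain ⟨W1, hW1⟩ : ∃ f : Ω → ℝ, f = fun ω => hs (Wm (fam τ φ ω) fun j =>
    Dm (pt ε V (F (τ j ω)))) := ⟨_, rfl⟩
  obtain ⟨W2, hW2⟩ : ∃ f : Ω → ℝ, f = fun ω => hs (Wz (fam τ φ ω) fun j =>
    Dz (pt ε V (F (τ j ω)))) := ⟨_, rfl⟩
  have iT : Integrable Tq P := by
    rw [hTq]
    exact integrable_finsetSum _ fun x _ => D.Ti x
  have hT0 : ∫ ω, Tq ω ∂P ≤ N * T := by
    rw [hTq, integral_finsetSum _ fun x _ => D.Ti x]
    refine (Finset.sum_le_sum fun x _ => D.Tm x).trans (le_of_eq ?_)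
    rw [Finset.sum_const, Finset.card_univ, nsmul_eq_mul, hN]
  have T0 : 0 ≤ T * N := by
    have : 0 ≤ ∫ ω, Tq ω ∂P := integral_nonneg fun ω => by
      rw [hTq]
      exact Finset.sum_nonneg fun x _ => sq_nonneg _
    linarith
  have iS1 : Integrable S1 P := by rw [hS1]; exact s1i
  have iS2 : Integrable S2 P := by rw [hS2]; exact s2i
  have iW1 : Integrable W1 P := by rw [hW1]; exact w1i
  have iW2 : Integrable W2 P := by rw [hW2]; exact w2i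
  obtain ⟨μ, hμ⟩ : ∃ μ : ℝ, μ = 1 / 10 ^ 6 := ⟨_, rfl⟩
  have hμ0 : 0 < μ := by rw [hμ]; positivity
  obtain ⟨E0, hE0⟩ : ∃ f : Ω → ℝ, f = fun ω => 3 / 4 * S2 ω + 3 / 4 * S1 ω + 12 * Tq ω :=
    ⟨_, rfl⟩
  have iE : Integrable E0 P := by
    rw [hE0]
    exact ((iS2.const_mul _).add (iS1.const_mul _)).add (iT.const_mul _)
  have hEi : ∫ ω, E0 ω ∂P ≤ 3 / 4 * (T * bt') + 3 / 4 * (T * at') + 12 * (N * T) := by
    rw [hE0]
    have e1 : ∫ ω, (3 / 4 * S2 ω + 3 / 4 * S1 ω + 12 * Tq ω) ∂P = 3 / 4 * (∫ ω, S2 ω ∂P) +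
        3 / 4 * (∫ ω, S1 ω ∂P) + 12 * ∫ ω, Tq ω ∂P := by
      have j1 := int_lc (P := P) ![S2, S1, Tq]
        (by intro i; fin_cases i; exacts [iS2, iS1, iT]) ![3 / 4, 3 / 4, 12] 0
        (fun ω => 3 / 4 * S2 ω + 3 / 4 * S1 ω + 12 * Tq ω)
        (by intro ω; simp [Fin.sum_univ_succ]; ring)
      rw [j1.2]
      simp [Fin.sum_univ_succ]
      ring
    rw [e1]
    have e2 : ∫ ω, S2 ω ∂P ≤ T * bt' := by rw [hS2]; exact s2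
    have e3 : ∫ ω, S1 ω ∂P ≤ T * at' := by rw [hS1]; exact s1
    linarith
  have hpt : ∀ ω, hs (rr τ φ ε V F ω) ≤ W1 ω + W2 ω - (1 - 7 * μ) * (hs (Dm (F ω)) +
      hs (Dz (F ω))) + 16 * μ⁻¹ ^ 3 * E0 ω + 3 * (μ ^ 2 * (2 * W2 ω + 128 * (N + Tq ω) + W1 ω) +
        4 * μ⁻¹ ^ 2 * E0 ω) := by
    intro ω
    have hstep := D.step ω
    have e1 := wh_wm (ρ (fam τ φ ω)) (fam τ φ ω) (fun j => Dm (pt ε V (F (τ j ω))))
    have e2 := wh_wz (ρ (fam τ φ ω)) (fam τ φ ω) (fun j => Dz (pt ε V (F (τ j ω))))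
    rw [hN]
    refine res_le hstep (D.ρpos ω) μ hμ0 (by rw [hμ]; norm_num) (W1 ω) (W2 ω) (E0 ω) (Tq ω)
      (by rw [hW1]) (by rw [hW2]) (by rw [hTq]) ?_
    have e3 : S1 ω = ∑ x, ∑ y, ∑ j, ka (ρ (fam τ φ ω)) (fam τ φ ω) x y j *
      ‖Dm (pt ε V (F (τ j ω))) x y‖ ^ 2 := by rw [hS1]
    have e4 : S2 ω = ∑ x, ∑ y, ∑ j, ka (ρ (fam τ φ ω)) (fam τ φ ω) x y j *
      ‖Dz (pt ε V (F (τ j ω))) x y‖ ^ 2 := by rw [hS2]
    have e5 : E0 ω = 3 / 4 * S2 ω + 3 / 4 * S1 ω + 12 * Tq ω := by rw [hE0]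
    rw [← e3] at e1
    rw [← e4] at e2
    rw [e5]
    linarith
  have jR := int_lc (P := P) ![W1, W2, fun ω => hs (Dm (F ω)), fun ω => hs (Dz (F ω)), E0, Tq]
    (by intro i; fin_cases i; exacts [iW1, iW2, ia, ib, iE, iT])
    ![1 + 3 * μ ^ 2, 1 + 6 * μ ^ 2, -(1 - 7 * μ), -(1 - 7 * μ), 16 * μ⁻¹ ^ 3 + 12 * μ⁻¹ ^ 2,
      384 * μ ^ 2] (384 * μ ^ 2 * N)
    (fun ω => W1 ω + W2 ω - (1 - 7 * μ) * (hs (Dm (F ω)) +
      hs (Dz (F ω))) + 16 * μ⁻¹ ^ 3 * E0 ω + 3 * (μ ^ 2 * (2 * W2 ω + 128 * (N + Tq ω) + W1 ω) +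
        4 * μ⁻¹ ^ 2 * E0 ω))
    (by intro ω; simp [Fin.sum_univ_succ]; ring)
  have h1 : ∫ ω, hs (rr τ φ ε V F ω) ∂P ≤ ∫ ω, (W1 ω + W2 ω - (1 - 7 * μ) * (hs (Dm (F ω)) +
      hs (Dz (F ω))) + 16 * μ⁻¹ ^ 3 * E0 ω + 3 * (μ ^ 2 * (2 * W2 ω + 128 * (N + Tq ω) + W1 ω) +
        4 * μ⁻¹ ^ 2 * E0 ω)) ∂P :=
    integral_mono_of_nonneg (Filter.Eventually.of_forall fun ω => hs_nonneg _) jR.1
      (Filter.Eventually.of_forall hpt)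
  have h2 : ∫ ω, (W1 ω + W2 ω - (1 - 7 * μ) * (hs (Dm (F ω)) +
      hs (Dz (F ω))) + 16 * μ⁻¹ ^ 3 * E0 ω + 3 * (μ ^ 2 * (2 * W2 ω + 128 * (N + Tq ω) + W1 ω) +
        4 * μ⁻¹ ^ 2 * E0 ω)) ∂P = (∫ ω, W1 ω ∂P) + (∫ ω, W2 ω ∂P) - (1 - 7 * μ) * (a + b) +
      16 * μ⁻¹ ^ 3 * (∫ ω, E0 ω ∂P) + 3 * (μ ^ 2 * (2 * (∫ ω, W2 ω ∂P) +
        128 * (N + ∫ ω, Tq ω ∂P) + ∫ ω, W1 ω ∂P) + 4 * μ⁻¹ ^ 2 * ∫ ω, E0 ω ∂P) := by
    rw [jR.2]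
    simp only [Fin.sum_univ_succ, Matrix.cons_val_zero, Matrix.cons_val_succ, Fin.sum_univ_zero,
      Finset.univ_eq_empty, Finset.sum_empty]
    rw [← ha, ← hb]
    ring
  rw [h2] at h1
  have w1' : ∫ ω, W1 ω ∂P ≤ (1 + δ) * at' := by rw [hW1]; exact w1
  have w2' : ∫ ω, W2 ω ∂P ≤ (1 + δ) * bt' := by rw [hW2]; exact w2
  obtain ⟨x1, hx1⟩ : ∃ x, x = ∫ ω, W1 ω ∂P := ⟨_, rfl⟩
  obtain ⟨x2, hx2⟩ : ∃ x, x = ∫ ω, W2 ω ∂P := ⟨_, rfl⟩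
  obtain ⟨x3, hx3⟩ : ∃ x, x = ∫ ω, E0 ω ∂P := ⟨_, rfl⟩
  obtain ⟨x4, hx4⟩ : ∃ x, x = ∫ ω, Tq ω ∂P := ⟨_, rfl⟩
  rw [← hx1, ← hx2, ← hx3, ← hx4] at h1
  rw [← hx1] at w1'
  rw [← hx2] at w2'
  rw [← hx3] at hEi
  rw [← hx4] at hT0
  have at0 : 0 ≤ at' := by rw [hat]; exact integral_nonneg fun ω => hs_nonneg _
  have bt0 : 0 ≤ bt' := by rw [hbt]; exact integral_nonneg fun ω => hs_nonneg _
  have y1 : ε * (7 * a + 16 * b + 256 * N) ≤ 1 / 10 ^ 6 * (7 * a + 16 * b + 256 * N) := by gcongr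
  have y2 : ε * (39 * b + 576 * N) ≤ 1 / 10 ^ 6 * (39 * b + 576 * N) := by gcongr
  have y3 : δ * at' ≤ 1 / 1000 * at' := by
    have := D.δle
    have : δ ≤ 1 / 1000 := by linarith
    gcongr
  have y4 : δ * bt' ≤ 1 / 1000 * bt' := by
    have := D.δle
    have : δ ≤ 1 / 1000 := by linarith
    gcongr
  have hTl := D.Tle
  have y5 : T * bt' ≤ (1 / 10 ^ 6) ^ 4 * bt' := by gcongr
  have y6 : T * at' ≤ (1 / 10 ^ 6) ^ 4 * at' := by gcongr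
  have y7 : T * N ≤ (1 / 10 ^ 6) ^ 4 * N := by gcongr
  rw [hμ] at h1
  norm_num at h1 y1 y2 y5 y6 y7 ⊢
  linarith

/-- **the second moment bound** -/
theorem Dt.main : ∫ ω, hs (Dm (F ω)) ∂P + ∫ ω, hs (Dz (F ω)) ∂P ≤ Fintype.card n := by
  obtain ⟨a, ha⟩ : ∃ a, a = ∫ ω, hs (Dm (F ω)) ∂P := ⟨_, rfl⟩
  obtain ⟨b, hb⟩ : ∃ b, b = ∫ ω, hs (Dz (F ω)) ∂P := ⟨_, rfl⟩
  rw [← ha, ← hb]
  have h1 := D.rr_int a b ha hb
  obtain ⟨N, hN⟩ : ∃ a : ℝ, a = Fintype.card n := ⟨_, rfl⟩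
  have hN0 : 0 ≤ N := by rw [hN]; exact Nat.cast_nonneg _
  rw [← hN] at h1 ⊢
  have ia := (hs_int' (P := P) (G := fun ω => Dm (F ω))
    fun x y => sq_entry_int D.mDm (fun ω => (D.bd ω).1) x y).1
  have ib := (hs_int' (P := P) (G := fun ω => Dz (F ω))
    fun x y => sq_entry_int D.mDz (fun ω => (D.bd ω).2.1) x y).1
  have ix := hs_int' (P := P) (G := fun ω => Xx (F ω))
    fun x y => sq_entry_int D.mXx (fun ω => (D.bd ω).2.2) x y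
  have a0 : 0 ≤ a := by rw [ha]; exact integral_nonneg fun ω => hs_nonneg _
  have b0 : 0 ≤ b := by rw [hb]; exact integral_nonneg fun ω => hs_nonneg _
  have e1 : a ≤ ∫ ω, hs (Xx (F ω)) ∂P := by
    rw [ha]
    exact integral_mono ia ix.1 fun ω => dm_le_xx _ (D.pos ω)
  have e2 : b ≤ ∫ ω, hs (Xx (F ω)) ∂P := by
    rw [hb]
    exact integral_mono ib ix.1 fun ω => dz_le_xx _ (D.pos ω)
  have iX : ∀ x y, Integrable (fun ω => ‖(Xx (pt ε V (F ω)) - Xx (F ω)) x y‖ ^ 2) P := by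
    intro x y
    have hm : Measurable fun ω => (Xx (pt ε V (F ω)) - Xx (F ω)) x y := by
      simp only [Matrix.sub_apply]
      exact (D.tXx x y).sub (D.mXx x y)
    refine bintr (hm.norm.pow_const 2) (M := (Real.sqrt M + Real.sqrt M) ^ 2) fun ω => ?_
    rw [abs_of_nonneg (by positivity)]
    have h2 : ‖(Xx (pt ε V (F ω)) - Xx (F ω)) x y‖ ≤ Real.sqrt M + Real.sqrt M := by
      rw [Matrix.sub_apply]
      exact (norm_sub_le _ _).trans (add_le_add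
        (entry_sqrt (G := fun ω => Xx (pt ε V (F ω))) (fun ω => (D.bt ω).2.2) x y ω)
        (entry_sqrt (fun ω => (D.bd ω).2.2) x y ω))
    gcongr
  have iR : ∀ x y, Integrable (fun ω => ‖rr τ φ ε V F ω x y‖ ^ 2) P := by
    intro x y
    have hm : Measurable fun ω => rr τ φ ε V F ω x y := by
      unfold rr
      simp only [Matrix.sub_apply]
      exact (D.mXx x y).sub (D.wx_meas x y)
    refine bintr (hm.norm.pow_const 2) (M := (Real.sqrt M + K * (B * B * Real.sqrt M)) ^ 2)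
      fun ω => ?_
    rw [abs_of_nonneg (by positivity)]
    have h2 : ‖rr τ φ ε V F ω x y‖ ≤ Real.sqrt M + K * (B * B * Real.sqrt M) := by
      unfold rr
      rw [Matrix.sub_apply]
      exact (norm_sub_le _ _).trans (add_le_add
        (entry_sqrt (fun ω => (D.bd ω).2.2) x y ω) (D.wx_bd x y ω))
    gcongr
  have jX := hs_int' (P := P) iX
  have jR := hs_int' (P := P) iR
  have e3 : ∫ ω, hs (Xx (F ω)) ∂P ≤ 13 * (∫ ω, hs (Xx (pt ε V (F ω)) - Xx (F ω)) ∂P) +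
      11 * ∫ ω, hs (rr τ φ ε V F ω) ∂P := by
    rw [ix.2, jX.2, jR.2, Finset.mul_sum, Finset.mul_sum, ← Finset.sum_add_distrib]
    refine Finset.sum_le_sum fun x _ => ?_
    rw [Finset.mul_sum, Finset.mul_sum, ← Finset.sum_add_distrib]
    exact Finset.sum_le_sum fun y _ => D.chi x y
  have hε : ε ≤ 1 / 10 ^ 6 := by
    have := D.εle
    linarith
  have e4 : ∫ ω, hs (Xx (pt ε V (F ω)) - Xx (F ω)) ∂P ≤ ε * (20 * b + 320 * N) := by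
    have j1 := int_lc (P := P) ![fun ω => hs (Dz (F ω))]
      (by intro i; fin_cases i; exacts [ib]) ![20 * ε] (320 * ε * N)
      (fun ω => ε * (20 * hs (Dz (F ω)) + 320 * N))
      (by intro ω; simp; ring)
    have e1 : ∫ ω, hs (Xx (pt ε V (F ω)) - Xx (F ω)) ∂P ≤ ∫ ω, ε * (20 * hs (Dz (F ω)) +
        320 * N) ∂P := by
      refine integral_mono jX.1 j1.1 fun ω => ?_
      have := (D.tilt ω).2.2
      rw [← hN] at this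
      exact this
    rw [j1.2] at e1
    simp [← hb] at e1
    linarith
  have e5 : ε * (20 * b + 320 * N) ≤ 1 / 10 ^ 6 * (20 * b + 320 * N) := by gcongr
  norm_num at e5
  linarith

end rand

end Pool.Agent.Helper32.SD
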