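import Pool.Agent.Helper32.SD.Fix
import Pool.Agent.Helper32.BS.Op

/-! The uniform law: the scalar facts. -/

set_option autoImplicit false
set_option linter.unusedSectionVars false
set_option linter.unusedSimpArgs false
set_option linter.unusedVariables false

open scoped BigOperators Topology ENNReal
open MeasureTheory Filter

namespace Pool.Agent.Helper32.SD

open Pool.Agent.Y662.TR (clp clp_abs clp_eq clp_cont)

/-- the uniform law on `[-c, c]` -/
noncomputable def unif (c : ℝ) : Measure ℝ :=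
  ENNReal.ofReal (1 / (2 * c)) • volume.restrict (Set.Icc (-c) c)

section law

variable {c : ℝ} (hc : 0 < c)

include hc

theorem unif_prob : IsProbabilityMeasure (unif c) := by
  refine ⟨?_⟩
  unfold unif
  rw [Measure.smul_apply, Measure.restrict_apply MeasurableSet.univ, Set.univ_inter,
    Real.volume_Icc, smul_eq_mul, ← ENNReal.ofReal_mul (by positivity)]
  have : 1 / (2 * c) * (c - -c) = 1 := by
    field_simp
    ring
  rw [this, ENNReal.ofReal_one]

theorem unif_int {E : Type} [NormedAddCommGroup E] [NormedSpace ℝ E] (g : ℝ → E) :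
    ∫ v, g v ∂(unif c) = (1 / (2 * c)) • ∫ v in (-c)..c, g v := by
  unfold unif
  rw [integral_smul_measure, intervalIntegral.integral_of_le (by linarith),
    integral_Icc_eq_integral_Ioc, ENNReal.toReal_ofReal (by positivity)]

theorem unif_ae : ∀ᵐ v ∂(unif c), |v| ≤ c := by
  unfold unif
  refine Measure.ae_smul_measure ?_ _
  filter_upwards [ae_restrict_mem measurableSet_Icc] with v hv
  exact abs_le.2 hv

theorem unif_low (x u : ℝ) (hx : |x| ≤ c) (hu : 0 ≤ u) (huc : u ≤ c) (g : ℝ → ℝ)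
    (hg : Integrable g (unif c)) (g0 : ∀ v, 0 ≤ g v) (t : ℝ) (ht : 0 ≤ t)
    (h : ∀ v, |v| ≤ c → |v - x| ≤ u → t ≤ g v) : t * (u / (2 * c)) ≤ ∫ v, g v ∂(unif c) := by
  have := unif_prob hc
  obtain ⟨B, hB, hBm, hBv⟩ : ∃ B : Set ℝ, (∀ v ∈ B, |v| ≤ c ∧ |v - x| ≤ u) ∧ MeasurableSet B ∧
      ENNReal.ofReal (u / (2 * c)) ≤ unif c B := by
    have key : ∀ a : ℝ, -c ≤ a → a + u ≤ c → ENNReal.ofReal (u / (2 * c)) ≤
        unif c (Set.Icc a (a + u)) := by
      intro a h1 h2
      unfold unif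
      have h3 : Set.Icc a (a + u) ∩ Set.Icc (-c) c = Set.Icc a (a + u) := by
        rw [Set.inter_eq_left]
        intro v hv
        exact ⟨h1.trans hv.1, hv.2.trans h2⟩
      rw [Measure.smul_apply, Measure.restrict_apply measurableSet_Icc, h3, Real.volume_Icc,
        smul_eq_mul, ← ENNReal.ofReal_mul (by positivity)]
      apply ENNReal.ofReal_le_ofReal
      apply le_of_eq
      field_simp
      ring
    rcases le_total 0 x with h0 | h0
    · rw [abs_of_nonneg h0] at hx
      refine ⟨Set.Icc (x - u) (x - u + u), fun v hv => ?_, measurableSet_Icc,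
        key _ (by linarith) (by linarith)⟩
      rw [abs_le, abs_le]
      have := hv.1
      have := hv.2
      refine ⟨⟨?_, ?_⟩, ?_, ?_⟩ <;> linarith
    · rw [abs_of_nonpos h0] at hx
      refine ⟨Set.Icc x (x + u), fun v hv => ?_, measurableSet_Icc,
        key _ (by linarith) (by linarith)⟩
      rw [abs_le, abs_le]
      have := hv.1
      have := hv.2
      refine ⟨⟨?_, ?_⟩, ?_, ?_⟩ <;> linarith
  have h1 : ∫ v, B.indicator (fun _ => t) v ∂(unif c) ≤ ∫ v, g v ∂(unif c) := by
    refine integral_mono ((integrable_const t).indicator hBm) hg fun v => ?_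
    by_cases hv : v ∈ B
    · rw [Set.indicator_of_mem hv]
      exact h v (hB v hv).1 (hB v hv).2
    · rw [Set.indicator_of_notMem hv]
      exact g0 v
  rw [integral_indicator_const t hBm, smul_eq_mul, mul_comm] at h1
  refine le_trans ?_ h1
  have h2 : u / (2 * c) ≤ (unif c).real B := by
    rw [Measure.real, ← ENNReal.ofReal_le_iff_le_toReal (measure_ne_top _ _)]
    exact hBv
  gcongr

end law

section scal

variable {c K : ℝ} (hc : 0 < c) (hK : 0 < K) (z s : ℂ) (hz : 0 < z.im) (hs : 0 < s.im)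

theorem gr_nsq (f : ℝ → ℝ) (v : ℝ) : ‖gr f z s v‖ ^ 2 =
    ((f v - (z + s).re) ^ 2 + (z + s).im ^ 2)⁻¹ := by
  unfold gr
  rw [norm_inv, inv_pow, ← Complex.normSq_eq_norm_sq, Complex.normSq_apply]
  congr 1
  simp
  ring

theorem gr_re (f : ℝ → ℝ) (v : ℝ) : (gr f z s v).re =
    (f v - (z + s).re) * ((f v - (z + s).re) ^ 2 + (z + s).im ^ 2)⁻¹ := by
  unfold gr
  rw [Complex.inv_re, Complex.normSq_apply, div_eq_mul_inv]
  congr 1
  · simp
    ring
  · congr 1
    simp
    ring

include hc in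
theorem clp_int {E : Type} [NormedAddCommGroup E] [NormedSpace ℝ E] (g : ℝ → E) :
    ∫ v, g (clp c v) ∂(unif c) = (1 / (2 * c)) • ∫ v in (-c)..c, g v := by
  rw [← unif_int hc]
  refine integral_congr_ae ?_
  filter_upwards [unif_ae hc] with v hv
  rw [clp_eq (hv.trans (le_abs_self c))]

theorem int_arctan (x y : ℝ) (hy : 0 < y) : ∫ v in (-c)..c, ((v - x) ^ 2 + y ^ 2)⁻¹ =
    (Real.arctan ((c - x) / y) + Real.arctan ((c + x) / y)) / y := by
  have h1 : ∀ v ∈ Set.uIcc (-c) c, HasDerivAt (fun v => Real.arctan ((v - x) / y) / y)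
      (((v - x) ^ 2 + y ^ 2)⁻¹) v := by
    intro v _
    have h2 := (((hasDerivAt_id v).sub_const x).div_const y).arctan.div_const y
    refine h2.congr_deriv ?_
    simp only [id]
    field_simp
    ring
  have h3 : Continuous fun v : ℝ => ((v - x) ^ 2 + y ^ 2)⁻¹ := by
    refine Continuous.inv₀ (by fun_prop) fun v => ?_
    positivity
  rw [intervalIntegral.integral_eq_sub_of_hasDerivAt h1 (h3.intervalIntegrable _ _)]
  have h4 : (-c - x) / y = -((c + x) / y) := by ring
  rw [h4, Real.arctan_neg]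
  ring

theorem int_log (x y : ℝ) (hy : 0 < y) :
    ∫ v in (-c)..c, (v - x) * ((v - x) ^ 2 + y ^ 2)⁻¹ =
    (Real.log ((c - x) ^ 2 + y ^ 2) - Real.log ((c + x) ^ 2 + y ^ 2)) / 2 := by
  have h1 : ∀ v ∈ Set.uIcc (-c) c, HasDerivAt (fun v => Real.log ((v - x) ^ 2 + y ^ 2) / 2)
      ((v - x) * ((v - x) ^ 2 + y ^ 2)⁻¹) v := by
    intro v _
    have h0 : HasDerivAt (fun v : ℝ => (v - x) ^ 2 + y ^ 2) (2 * (v - x)) v := by
      have e1 : HasDerivAt (fun v : ℝ => v - x) 1 v := (hasDerivAt_id v).sub_const x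
      have e2 := (e1.fun_pow 2).add_const (y ^ 2)
      refine e2.congr_deriv ?_
      simp
    have h5 : (v - x) ^ 2 + y ^ 2 ≠ 0 := by positivity
    have h2 := (h0.log h5).div_const 2
    refine h2.congr_deriv ?_
    field_simp
  have h3 : Continuous fun v : ℝ => (v - x) * ((v - x) ^ 2 + y ^ 2)⁻¹ := by
    refine Continuous.mul (by fun_prop) (Continuous.inv₀ (by fun_prop) fun v => ?_)
    positivity
  rw [intervalIntegral.integral_eq_sub_of_hasDerivAt h1 (h3.intervalIntegrable _ _)]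
  have h4 : (-c - x) ^ 2 = (c + x) ^ 2 := by ring
  rw [h4]
  ring

theorem int_sq (w : ℂ) (hw : 0 < w.im) : ∫ v in (-c)..c, (((v : ℂ) - w)⁻¹) ^ 2 =
    2 * c / (w ^ 2 - (c : ℂ) ^ 2) := by
  have hne : ∀ v : ℝ, (v : ℂ) - w ≠ 0 := by
    intro v h
    have := congrArg Complex.im h
    simp at this
    linarith
  have h1 : ∀ v ∈ Set.uIcc (-c) c, HasDerivAt (fun v : ℝ => -((v : ℂ) - w)⁻¹)
      ((((v : ℂ) - w)⁻¹) ^ 2) v := by
    intro v _
    have h2 : HasDerivAt (fun u : ℝ => (u : ℂ) - w) 1 v :=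
      (Complex.ofRealCLM.hasDerivAt (x := v)).sub_const w
    have h3 := (h2.inv (hne v)).neg
    refine h3.congr_deriv ?_
    have := hne v
    field_simp
  have h3 : Continuous fun v : ℝ => (((v : ℂ) - w)⁻¹) ^ 2 := by
    refine Continuous.pow (Continuous.inv₀ (by fun_prop) hne) 2
  rw [intervalIntegral.integral_eq_sub_of_hasDerivAt h1 (h3.intervalIntegrable _ _)]
  have h4 := hne c
  have h5 := hne (-c)
  have h6 : w ^ 2 - (c : ℂ) ^ 2 ≠ 0 := by
    have : w ^ 2 - (c : ℂ) ^ 2 = (((-c : ℝ) : ℂ) - w) * ((c : ℂ) - w) := by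
      push_cast
      ring
    rw [this]
    exact mul_ne_zero h5 h4
  push_cast at h5 ⊢
  field_simp
  ring

include hc in
theorem am_eq : am (unif c) (clp c) z s =
    (1 / (2 * c)) * ∫ v in (-c)..c, ((v - (z + s).re) ^ 2 + (z + s).im ^ 2)⁻¹ := by
  unfold am
  simp only [gr_nsq]
  exact clp_int hc fun v => ((v - (z + s).re) ^ 2 + (z + s).im ^ 2)⁻¹

include hc hK hz hs in
theorem fp_im (hf : Ph (unif c) (clp c) K z s = s) :
    s.im = K * ((z + s).im * am (unif c) (clp c) z s) := by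
  have := unif_prob hc
  conv_lhs => rw [← hf]
  rw [ph_im (unif c) (clp c) (clp_cont c).measurable K z hz s hs.le, Complex.add_im]

include hc hK hz hs in
theorem fp_re (hf : Ph (unif c) (clp c) K z s = s) : s.re = K * ((1 / (2 * c)) *
    ((Real.log ((c - (z + s).re) ^ 2 + (z + s).im ^ 2) -
      Real.log ((c + (z + s).re) ^ 2 + (z + s).im ^ 2)) / 2)) := by
  have := unif_prob hc
  have hy : 0 < (z + s).im := by
    rw [Complex.add_im]
    linarith
  conv_lhs => rw [← hf]
  unfold Ph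
  rw [Complex.re_ofReal_mul]
  congr 1
  have h1 : (∫ v, gr (clp c) z s v ∂(unif c)).re = ∫ v, (gr (clp c) z s v).re ∂(unif c) :=
    (integral_re (𝕜 := ℂ) (gr_int (unif c) (clp c) (clp_cont c).measurable z hz s hs.le)).symm
  rw [h1]
  simp only [gr_re]
  rw [clp_int hc fun v => (v - (z + s).re) * ((v - (z + s).re) ^ 2 + (z + s).im ^ 2)⁻¹,
    int_log _ _ hy, smul_eq_mul]

/-- the facts on the fixed point -/
structure Fp (K c : ℝ) (E η R Γ x y : ℝ) : Prop where
  ηpos : 0 < η
  Γpos : 0 < Γ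
  ex : x = E + R
  ey : y = η + Γ
  H1 : R * x ≤ 0
  H2 : ((c - |x|) ^ 2 + y ^ 2) * |R| ≤ K * |x|
  H3 : Γ * y ≤ K
  H4 : K * y ≤ Γ * ((|x| + c) ^ 2 + y ^ 2)
  H5 : |x| ≤ c → ∀ u, 0 ≤ u → u ≤ c → u ≤ y → K * u ≤ 4 * c * y * Γ
  H6 : c * Γ ≤ 2 * K

include hc hK hz hs in
theorem fp_fact (hf : Ph (unif c) (clp c) K z s = s) :
    Fp K c z.re z.im s.re s.im (z + s).re (z + s).im := by
  have := unif_prob hc
  have hy : 0 < (z + s).im := by
    rw [Complex.add_im]
    linarith
  have e1 := fp_im hc hK z s hz hs hf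
  have e2 := fp_re hc hK z s hz hs hf
  have e3 := am_eq hc z s
  have ham : 0 < am (unif c) (clp c) z s :=
    am_pos (unif c) (clp c) (clp_cont c).measurable z hz s hs.le
  have hin := gr_sq_int (unif c) (clp c) (clp_cont c).measurable z hz s hs.le
  obtain ⟨x, hx⟩ : ∃ x, x = (z + s).re := ⟨_, rfl⟩
  obtain ⟨y, hy'⟩ : ∃ y, y = (z + s).im := ⟨_, rfl⟩
  have hns : ∀ v, ‖gr (clp c) z s v‖ ^ 2 = ((clp c v - x) ^ 2 + y ^ 2)⁻¹ := by
    intro v
    rw [gr_nsq, hx, hy']
  have ey : y = z.im + s.im := by rw [hy', Complex.add_im]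
  have ex : x = z.re + s.re := by rw [hx, Complex.add_re]
  rw [← hx, ← hy'] at e2 e3
  rw [← hy'] at e1 hy
  rw [← hx, ← hy']
  obtain ⟨A, hA⟩ : ∃ A, A = am (unif c) (clp c) z s := ⟨_, rfl⟩
  rw [← hA] at e1 e3 ham
  have hAi : A = ∫ v, ‖gr (clp c) z s v‖ ^ 2 ∂(unif c) := hA
  have q1 : 0 < (c - x) ^ 2 + y ^ 2 := by positivity
  have q2 : 0 < (c + x) ^ 2 + y ^ 2 := by positivity
  refine ⟨hz, hs, ex, ey, ?_, ?_, ?_, ?_, ?_, ?_⟩
  · rcases le_total 0 x with h0 | h0
    · have : Real.log ((c - x) ^ 2 + y ^ 2) ≤ Real.log ((c + x) ^ 2 + y ^ 2) := by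
        apply Real.log_le_log q1
        nlinarith
      have h1 : s.re ≤ 0 := by
        rw [e2]
        refine mul_nonpos_of_nonneg_of_nonpos hK.le (mul_nonpos_of_nonneg_of_nonpos
          (by positivity) ?_)
        linarith
      exact mul_nonpos_of_nonpos_of_nonneg h1 h0
    · have : Real.log ((c + x) ^ 2 + y ^ 2) ≤ Real.log ((c - x) ^ 2 + y ^ 2) := by
        apply Real.log_le_log q2
        nlinarith
      have h1 : 0 ≤ s.re := by
        rw [e2]
        refine mul_nonneg hK.le (mul_nonneg (by positivity) ?_)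
        linarith
      exact mul_nonpos_of_nonneg_of_nonpos h1 h0
  · have key : ∀ p q : ℝ, 0 < p → p ≤ q → Real.log q - Real.log p ≤ (q - p) / p := by
      intro p q hp hpq
      have h1 := Real.log_le_sub_one_of_pos (show 0 < q / p by
        have := hp.trans_le hpq
        positivity)
      rw [Real.log_div (hp.trans_le hpq).ne' hp.ne'] at h1
      have : q / p - 1 = (q - p) / p := by
        field_simp
      linarith
    rcases le_total 0 x with h0 | h0
    · rw [abs_of_nonneg h0]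
      have h1 := key _ _ q1 (show (c - x) ^ 2 + y ^ 2 ≤ (c + x) ^ 2 + y ^ 2 by nlinarith)
      have h2 : Real.log ((c - x) ^ 2 + y ^ 2) ≤ Real.log ((c + x) ^ 2 + y ^ 2) := by
        apply Real.log_le_log q1
        nlinarith
      have h3 : |s.re| = K * ((1 / (2 * c)) * ((Real.log ((c + x) ^ 2 + y ^ 2) -
          Real.log ((c - x) ^ 2 + y ^ 2)) / 2)) := by
        rw [e2, abs_of_nonpos]
        · ring
        · refine mul_nonpos_of_nonneg_of_nonpos hK.le (mul_nonpos_of_nonneg_of_nonpos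
            (by positivity) ?_)
          linarith
      rw [h3]
      calc ((c - x) ^ 2 + y ^ 2) * (K * ((1 / (2 * c)) * ((Real.log ((c + x) ^ 2 + y ^ 2) -
          Real.log ((c - x) ^ 2 + y ^ 2)) / 2))) ≤ ((c - x) ^ 2 + y ^ 2) * (K * ((1 / (2 * c)) *
            ((((c + x) ^ 2 + y ^ 2 - ((c - x) ^ 2 + y ^ 2)) / ((c - x) ^ 2 + y ^ 2)) / 2))) := by
            gcongr
        _ = K * x := by
            field_simp
            ring
    · rw [abs_of_nonpos h0]
      have h1 := key _ _ q2 (show (c + x) ^ 2 + y ^ 2 ≤ (c - x) ^ 2 + y ^ 2 by nlinarith)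
      have h2 : Real.log ((c + x) ^ 2 + y ^ 2) ≤ Real.log ((c - x) ^ 2 + y ^ 2) := by
        apply Real.log_le_log q2
        nlinarith
      have h3 : |s.re| = K * ((1 / (2 * c)) * ((Real.log ((c - x) ^ 2 + y ^ 2) -
          Real.log ((c + x) ^ 2 + y ^ 2)) / 2)) := by
        rw [e2, abs_of_nonneg]
        refine mul_nonneg hK.le (mul_nonneg (by positivity) ?_)
        linarith
      rw [h3]
      have h4 : (c - -x) ^ 2 = (c + x) ^ 2 := by ring
      rw [h4]
      calc ((c + x) ^ 2 + y ^ 2) * (K * ((1 / (2 * c)) * ((Real.log ((c - x) ^ 2 + y ^ 2) -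
          Real.log ((c + x) ^ 2 + y ^ 2)) / 2))) ≤ ((c + x) ^ 2 + y ^ 2) * (K * ((1 / (2 * c)) *
            ((((c - x) ^ 2 + y ^ 2 - ((c + x) ^ 2 + y ^ 2)) / ((c + x) ^ 2 + y ^ 2)) / 2))) := by
            gcongr
        _ = K * -x := by
            field_simp
            ring
  · have h1 : A ≤ (y ^ 2)⁻¹ := by
      have h2 : A ≤ ∫ v, (y ^ 2)⁻¹ ∂(unif c) := by
        rw [hAi]
        refine integral_mono hin (integrable_const _) fun v => ?_
        show ‖gr (clp c) z s v‖ ^ 2 ≤ (y ^ 2)⁻¹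
        rw [hns]
        refine inv_anti₀ (by positivity) ?_
        nlinarith [sq_nonneg (clp c v - x)]
      simpa using h2
    calc s.im * y = K * (y ^ 2 * A) := by
          rw [e1]
          ring
      _ ≤ K * (y ^ 2 * (y ^ 2)⁻¹) := by gcongr
      _ = K := by
          field_simp
  · have h1 : ((|x| + c) ^ 2 + y ^ 2)⁻¹ ≤ A := by
      have h2 : ∫ v, ((|x| + c) ^ 2 + y ^ 2)⁻¹ ∂(unif c) ≤ A := by
        rw [hAi]
        refine integral_mono (integrable_const _) hin fun v => ?_
        show ((|x| + c) ^ 2 + y ^ 2)⁻¹ ≤ ‖gr (clp c) z s v‖ ^ 2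
        rw [hns]
        refine inv_anti₀ (by positivity) ?_
        have h3 : |clp c v - x| ≤ |x| + c := by
          have h4 := clp_abs c v
          rw [abs_of_pos hc] at h4
          have h5 := abs_sub (clp c v) x
          linarith
        have h6 : (clp c v - x) ^ 2 ≤ (|x| + c) ^ 2 := by
          rw [← sq_abs (clp c v - x)]
          gcongr
        linarith
      simpa using h2
    have h2 : 1 ≤ A * ((|x| + c) ^ 2 + y ^ 2) := by
      have h3 : 0 < (|x| + c) ^ 2 + y ^ 2 := by positivity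
      rw [inv_le_iff_one_le_mul₀ h3] at h1
      exact h1
    calc K * y = K * y * 1 := by ring
      _ ≤ K * y * (A * ((|x| + c) ^ 2 + y ^ 2)) := by gcongr
      _ = s.im * ((|x| + c) ^ 2 + y ^ 2) := by
          rw [e1]
          ring
  · intro hxc u hu huc huy
    have h1 := unif_low hc x u hxc hu huc (fun v => ((clp c v - x) ^ 2 + y ^ 2)⁻¹)
      (by
        refine hin.congr (Eventually.of_forall fun v => ?_)
        exact hns v)
      (fun v => by positivity) ((2 * y ^ 2)⁻¹) (by positivity)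
      (fun v hv0 hv => by
        refine inv_anti₀ (by positivity) ?_
        have h6 : (v - x) ^ 2 ≤ y ^ 2 := by
          rw [← sq_abs (v - x)]
          have := hv.trans huy
          gcongr
        rw [clp_eq (hv0.trans (le_abs_self c))]
        linarith)
    have h2 : (2 * y ^ 2)⁻¹ * (u / (2 * c)) ≤ A := by
      rw [hAi]
      refine h1.trans (le_of_eq ?_)
      exact integral_congr_ae (Eventually.of_forall fun v => (hns v).symm)
    calc K * u = (4 * c * y ^ 2) * K * ((2 * y ^ 2)⁻¹ * (u / (2 * c))) := by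
          field_simp
          ring
      _ ≤ (4 * c * y ^ 2) * K * A := by gcongr
      _ = 4 * c * y * s.im := by
          rw [e1]
          ring
  · rw [int_arctan x y hy] at e3
    have h1 := Real.arctan_lt_pi_div_two ((c - x) / y)
    have h2 := Real.arctan_lt_pi_div_two ((c + x) / y)
    have h3 := Real.pi_lt_d2
    rw [e1, e3]
    calc c * (K * (y * (1 / (2 * c) * ((Real.arctan ((c - x) / y) +
        Real.arctan ((c + x) / y)) / y)))) = K * ((Real.arctan ((c - x) / y) +
        Real.arctan ((c + x) / y)) / 2) := by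
          field_simp
      _ ≤ K * 2 := by
          gcongr
          linarith
      _ = 2 * K := by ring

end scal

end Pool.Agent.Helper32.SD
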